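import Pool.Agent.H73.DC.Piece

/-! A new root above the root of a piece. -/

namespace Pool.Agent.H73.DC

variable {V : Type} [DecidableEq V] {adj : V → V → Prop}

/-- JOB DC-3 ADDROOT. New parent map: `Function.update par r y` (with `par` the old one).
The flow at `v ∈ S`: in the sum over `(insert y S).erase y = S` the term of `r` vanishes because its
new parent is `y ∉ S`; the flow at `y`: only `r` has parent `y`, because for `u ≠ r` the parent
lies in `S`. -/
theorem IsPiece.addRoot (hsymm : ∀ u v, adj u v → adj v u) {W : V → ℕ → ℝ} {S : Finset V} {r : V}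
    {H : ℕ} (hp : IsPiece adj W S r H) {y : V} (hy : y ∉ S) (hyr : adj r y) (hirr : ¬ adj y y)
    (honly : ∀ v ∈ S, adj y v → v = r) (β : ℕ → ℝ) (h0 : 1 ≤ β 0)
    (hβ : ∀ n, β (n + 1) = W r n) (hgood : ∀ n, 0 < W r n → W r n < β n) :
    IsPiece adj (Function.update W y β) (insert y S) y (H + 1) := by
  obtain ⟨par, h1, h2, h3, h4⟩ := hp.tree
  have hyS : ∀ v ∈ S, v ≠ y := fun v hv h => hy (h ▸ hv)
  have hry : r ≠ y := hyS r hp.mem
  have hWy : Function.update W y β y = β := Function.update_self _ _ _
  have hWS : ∀ v, v ≠ y → Function.update W y β v = W v := fun v hv =>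
    Function.update_of_ne hv _ _
  have hpr : Function.update par r y r = y := Function.update_self _ _ _
  have hpS : ∀ v, v ≠ r → Function.update par r y v = par v := fun v hv =>
    Function.update_of_ne hv _ _
  refine ⟨?_, ?_, ?_, ?_, Finset.mem_insert_self _ _, Function.update par r y, ?_, ?_, ?_, ?_⟩
  · intro v n
    by_cases hv : v = y
    · subst hv
      rw [hWy]
      cases n with
      | zero => linarith
      | succ n => rw [hβ]; exact hp.nonneg r n
    · rw [hWS v hv]; exact hp.nonneg v n
  · intro v hv n
    rw [Finset.mem_insert, not_or] at hv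
    rw [hWS v hv.1]
    exact hp.supp v hv.2 n
  · intro v hv
    rcases Finset.mem_insert.mp hv with rfl | hv
    · rw [hWy]; exact h0
    · rw [hWS v (hyS v hv)]; exact hp.one_le v hv
  · intro v n hn
    by_cases hv : v = y
    · subst hv
      rw [hWy]
      cases n with
      | zero => omega
      | succ n => rw [hβ]; exact hp.vanish r n (by omega)
    · rw [hWS v hv]; exact hp.vanish v n (by omega)
  · intro v hv hvy
    rcases Finset.mem_insert.mp hv with h | hv
    · exact absurd h hvy
    · by_cases hvr : v = r
      · subst hvr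
        rw [hpr]
        exact ⟨Finset.mem_insert_self _ _, hyr⟩
      · rw [hpS v hvr]
        exact ⟨Finset.mem_insert_of_mem (h1 v hv hvr).1, (h1 v hv hvr).2⟩
  · intro u hu v hv huv
    rcases Finset.mem_insert.mp hu with hu1 | hu1
    · rcases Finset.mem_insert.mp hv with hv1 | hv1
      · rw [hu1, hv1] at huv
        exact absurd huv hirr
      · have h5 : v = r := honly v hv1 (by rw [← hu1]; exact huv)
        exact Or.inr ⟨hyS v hv1, by rw [h5, hpr, hu1]⟩
    · rcases Finset.mem_insert.mp hv with hv1 | hv1
      · have h5 : u = r := honly u hu1 (by rw [← hv1]; exact hsymm _ _ huv)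
        exact Or.inl ⟨hyS u hu1, by rw [h5, hpr, hv1]⟩
      · rcases h2 u hu1 v hv1 huv with ⟨ha, hb⟩ | ⟨ha, hb⟩
        · exact Or.inl ⟨hyS u hu1, by rw [hpS u ha]; exact hb⟩
        · exact Or.inr ⟨hyS v hv1, by rw [hpS v ha]; exact hb⟩
  · intro v hv hvy n hn
    rcases Finset.mem_insert.mp hv with h | hv
    · exact absurd h hvy
    · rw [hWS v hvy] at hn ⊢
      by_cases hvr : v = r
      · subst hvr
        rw [hpr, hWy]
        exact hgood n hn
      · rw [hpS v hvr, hWS _ (hyS _ (h1 v hv hvr).1)]
        exact h3 v hv hvr n hn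
  · intro v hv n
    rw [Finset.erase_insert hy]
    have hsum : ∑ u ∈ S, (if Function.update par r y u = v then Function.update W y β u n else 0) =
        (if y = v then W r n else 0) + ∑ u ∈ S.erase r, (if par u = v then W u n else 0) := by
      rw [← Finset.add_sum_erase S _ hp.mem, hpr, hWS r hry]
      congr 1
      refine Finset.sum_congr rfl fun u hu => ?_
      have hu' := Finset.mem_erase.mp hu
      rw [hpS u hu'.1, hWS u (hyS u hu'.2)]
    rw [hsum]
    rcases Finset.mem_insert.mp hv with rfl | hv
    · rw [hWy, hβ, if_pos rfl]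
      have : ∑ u ∈ S.erase r, (if par u = v then W u n else 0) = 0 := by
        refine Finset.sum_eq_zero fun u hu => ?_
        have hu' := Finset.mem_erase.mp hu
        rw [if_neg (hyS _ (h1 u hu'.2 hu'.1).1)]
      rw [this, add_zero]
    · rw [hWS v (hyS v hv), if_neg (fun h => hyS v hv h.symm), zero_add]
      exact h4 v hv n

end Pool.Agent.H73.DC
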