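import Mathlib

/-! The profiles along a trunk. -/

namespace Pool.Agent.H73.DC

/-- The profile at the `j`-th vertex of the trunk, when the vertices of the trunk have weights
`b 1, b 2, …` and all side children have the profile `u`. -/
def alpha (b u : ℕ → ℝ) : ℕ → ℕ → ℝ
  | 0, _ => 0
  | j + 1, 0 => b (j + 1)
  | j + 1, n + 1 => alpha b u j n + u n

/-- Tail sums. -/
def tailS (u : ℕ → ℝ) (Hu i : ℕ) : ℝ := ∑ l ∈ Finset.Ico i Hu, u l

/-- The weights of the trunk. -/
def trunkB (c u : ℕ → ℝ) (Hu N j : ℕ) : ℝ := c j + tailS u Hu (N - j)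

section
variable {u c : ℕ → ℝ} {Hu N : ℕ}

/-- partial sums -/
noncomputable def alphaU (u : ℕ → ℝ) (n : ℕ) : ℝ := ∑ l ∈ Finset.range n, u l

theorem alphaU_succ (u : ℕ → ℝ) (n : ℕ) : alphaU u (n + 1) = alphaU u n + u n :=
  Finset.sum_range_succ _ _

theorem alphaU_zero (u : ℕ → ℝ) : alphaU u 0 = 0 := Finset.sum_range_zero _

theorem alphaU_mono (hnn : ∀ n, 0 ≤ u n) {m n : ℕ} (h : m ≤ n) : alphaU u m ≤ alphaU u n :=
  Finset.sum_le_sum_of_subset_of_nonneg (Finset.range_mono h) fun i _ _ => hnn i

theorem alphaU_const (hzero : ∀ n, Hu ≤ n → u n = 0) {n : ℕ} (h : Hu ≤ n) :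
    alphaU u n = alphaU u Hu := by
  induction n, h using Nat.le_induction with
  | base => rfl
  | succ n hn ih => rw [alphaU_succ, ih, hzero n hn, add_zero]

theorem tailS_eq (hzero : ∀ n, Hu ≤ n → u n = 0) (i : ℕ) :
    tailS u Hu i = alphaU u Hu - alphaU u i := by
  rcases le_total i Hu with h | h
  · unfold tailS alphaU
    rw [Finset.sum_Ico_eq_sub _ h]
  · unfold tailS
    rw [Finset.Ico_eq_empty_of_le h, Finset.sum_empty, alphaU_const hzero h, sub_self]

theorem alpha_closed (b u : ℕ → ℝ) (j : ℕ) : ∀ n, alpha b u j n =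
    if n < j then b (j - n) + alphaU u n else alphaU u n - alphaU u (n - j) := by
  induction j with
  | zero =>
    intro n
    rw [if_neg (Nat.not_lt_zero n), Nat.sub_zero, sub_self]
    rfl
  | succ j ih =>
    intro n
    cases n with
    | zero =>
      rw [if_pos (Nat.succ_pos j), alphaU_zero, add_zero, Nat.sub_zero]
      rfl
    | succ n =>
      change alpha b u j n + u n = _
      rw [ih n]
      by_cases h : n < j
      · rw [if_pos h, if_pos (by omega), alphaU_succ, show j + 1 - (n + 1) = j - n by omega]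
        ring
      · rw [if_neg h, if_neg (by omega), alphaU_succ, show n + 1 - (j + 1) = n - j by omega]
        ring

theorem alpha_nn (hpos : ∀ n, n < Hu → 0 < u n) (hzero : ∀ n, Hu ≤ n → u n = 0) (n : ℕ) :
    0 ≤ u n := by
  rcases lt_or_ge n Hu with h | h
  · exact (hpos n h).le
  · rw [hzero n h]

/-- JOB DC-7 ALPHA (whole file). Closed form, with `R i = tailS u Hu i` and `b j = c j + R (N - j)`:
for `n < j`: `alpha b u j n = b (j - n) + (R 0 - R n)`, and for `j ≤ n`:
`alpha b u j n = R (n - j) - R n` (by induction on `j`). Hence for `n < j < N`: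
`alpha (j+1) n - alpha j n = c (j+1-n) - c (j-n) + u (N-j-1+n) > 0`; for `n = j` the difference is
`b 1 > 0`; for `j < n` it is `u (n - j - 1)`, which is positive because `alpha j n > 0` forces
`R (n - j) > 0`, so `n - j < Hu`. For `j = N`: `alpha N n = c (N - n) + R 0` for `n < N` and
`alpha N n = R (n - N)` for `N ≤ n` (as `R n = 0` for `Hu ≤ n`). -/
theorem alpha_lt_succ (hpos : ∀ n, n < Hu → 0 < u n) (hzero : ∀ n, Hu ≤ n → u n = 0)
    (hc0 : ∀ j, 1 ≤ j → 0 < c j) (hc : ∀ j, 1 ≤ j → j < N → c j < c (j + 1)) (hHu : 1 ≤ Hu)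
    (hN : Hu ≤ N) (j : ℕ) (hj : 1 ≤ j) (hjN : j < N) (n : ℕ)
    (h : 0 < alpha (trunkB c u Hu N) u j n) :
    alpha (trunkB c u Hu N) u j n < alpha (trunkB c u Hu N) u (j + 1) n := by
  have hnn := alpha_nn hpos hzero
  rw [alpha_closed] at h
  rw [alpha_closed, alpha_closed]
  rcases lt_trichotomy n j with hn | hn | hn
  · rw [if_pos hn, if_pos (by omega)]
    unfold trunkB
    rw [tailS_eq hzero, tailS_eq hzero]
    have h1 := hc (j - n) (by omega) (by omega)
    have h2 := alphaU_mono hnn (show N - (j + 1 - n) ≤ N - (j - n) by omega)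
    rw [show j - n + 1 = j + 1 - n by omega] at h1
    linarith
  · subst hn
    rw [if_neg (lt_irrefl _), if_pos (by omega), Nat.sub_self, alphaU_zero]
    unfold trunkB
    rw [tailS_eq hzero, show n + 1 - n = 1 by omega]
    have h1 := hc0 1 le_rfl
    have h2 : alphaU u (N - 1) ≤ alphaU u Hu := by
      rcases le_total (N - 1) Hu with h3 | h3
      · exact alphaU_mono hnn h3
      · exact (alphaU_const hzero h3).le
    linarith
  · rw [if_neg (by omega)] at h ⊢
    rw [if_neg (by omega)]
    have h1 : n - (j + 1) < Hu := by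
      by_contra hcon
      push Not at hcon
      rw [alphaU_const hzero (show Hu ≤ n by omega), alphaU_const hzero (show Hu ≤ n - j by omega),
        sub_self] at h
      exact lt_irrefl _ h
    have h2 := alphaU_succ u (n - (j + 1))
    rw [show n - (j + 1) + 1 = n - j by omega] at h2
    have h3 := hpos _ h1
    linarith

theorem side_lt_alpha (hpos : ∀ n, n < Hu → 0 < u n) (hzero : ∀ n, Hu ≤ n → u n = 0)
    (hdec : ∀ n, n < Hu → u (n + 1) < u n) (hc : ∀ j, 1 ≤ j → u 0 < c j) (j : ℕ) (n : ℕ)
    (h : 0 < u n) : u n < alpha (trunkB c u Hu N) u (j + 1) n := by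
  have hnn := alpha_nn hpos hzero
  have hR : ∀ i, 0 ≤ tailS u Hu i := fun i => Finset.sum_nonneg fun l _ => hnn l
  have hnn' : ∀ (j n : ℕ), 0 ≤ alpha (trunkB c u Hu N) u j n := by
    intro j
    induction j with
    | zero => intro n; exact le_rfl
    | succ j ih =>
      intro n
      cases n with
      | zero =>
        change 0 ≤ trunkB c u Hu N (j + 1)
        unfold trunkB
        have h1 := hc (j + 1) (by omega)
        have h2 := hnn 0
        have h3 := hR (N - (j + 1))
        linarith
      | succ n => exact add_nonneg (ih n) (hnn n)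
  cases n with
  | zero =>
    change u 0 < trunkB c u Hu N (j + 1)
    unfold trunkB
    have h1 := hc (j + 1) (by omega)
    have h3 := hR (N - (j + 1))
    linarith
  | succ n =>
    change u (n + 1) < alpha (trunkB c u Hu N) u j n + u n
    have h1 : n < Hu := by
      by_contra hcon
      push Not at hcon
      rw [hzero (n + 1) (by omega)] at h
      exact lt_irrefl _ h
    have h2 := hdec n h1
    have h3 := hnn' j n
    linarith

theorem alpha_top_pos (hpos : ∀ n, n < Hu → 0 < u n) (hzero : ∀ n, Hu ≤ n → u n = 0)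
    (hc0 : ∀ j, 1 ≤ j → 0 < c j) (hHu : 1 ≤ Hu) (hN : Hu ≤ N) (n : ℕ) (hn : n < N + Hu) :
    0 < alpha (trunkB c u Hu N) u N n := by
  have hnn := alpha_nn hpos hzero
  rw [alpha_closed]
  by_cases h : n < N
  · rw [if_pos h]
    unfold trunkB
    have h1 := hc0 (N - n) (by omega)
    have h2 : 0 ≤ tailS u Hu (N - (N - n)) := Finset.sum_nonneg fun l _ => hnn l
    have h3 : 0 ≤ alphaU u n := Finset.sum_nonneg fun l _ => hnn l
    linarith
  · rw [if_neg h]
    have h1 := hpos (n - N) (by omega)
    have h2 := alphaU_succ u (n - N)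
    have h3 := alphaU_mono hnn (show n - N + 1 ≤ n by omega)
    linarith

theorem alpha_top_dec (hpos : ∀ n, n < Hu → 0 < u n) (hzero : ∀ n, Hu ≤ n → u n = 0)
    (hc0 : ∀ j, 1 ≤ j → 0 < c j) (hc : ∀ j, 1 ≤ j → j < N → c j < c (j + 1)) (hHu : 1 ≤ Hu)
    (hN : Hu ≤ N) (n : ℕ) (hn : n < N + Hu) :
    alpha (trunkB c u Hu N) u N (n + 1) < alpha (trunkB c u Hu N) u N n := by
  rw [alpha_closed, alpha_closed]
  rcases lt_trichotomy (n + 1) N with h | h | h
  · rw [if_pos h, if_pos (by omega)]
    unfold trunkB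
    rw [tailS_eq hzero, tailS_eq hzero, show N - (N - (n + 1)) = n + 1 by omega,
      show N - (N - n) = n by omega]
    have h1 := hc (N - (n + 1)) (by omega) (by omega)
    rw [show N - (n + 1) + 1 = N - n by omega] at h1
    linarith
  · rw [if_neg (by omega), if_pos (by omega), h, Nat.sub_self, alphaU_zero]
    unfold trunkB
    rw [tailS_eq hzero, show N - n = 1 by omega, show N - 1 = n by omega]
    have h1 := hc0 1 le_rfl
    rw [alphaU_const hzero hN]
    linarith
  · rw [if_neg (by omega), if_neg (by omega)]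
    rw [alphaU_const hzero (show Hu ≤ n + 1 by omega), alphaU_const hzero (show Hu ≤ n by omega)]
    have h1 := hpos (n - N) (by omega)
    have h2 := alphaU_succ u (n - N)
    rw [show n - N + 1 = n + 1 - N by omega] at h2
    linarith

theorem alpha_vanish (hzero : ∀ n, Hu ≤ n → u n = 0) (b : ℕ → ℝ) (j n : ℕ) (hn : j + Hu ≤ n)
    : alpha b u j n = 0 := by
  rw [alpha_closed, if_neg (by omega), alphaU_const hzero (show Hu ≤ n by omega),
    alphaU_const hzero (show Hu ≤ n - j by omega), sub_self]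

/-- The total of the tail sums. -/
theorem sum_tailS_le (hnn : ∀ n, 0 ≤ u n) (hN : Hu ≤ N) :
    ∑ j ∈ Finset.range N, tailS u Hu (N - (j + 1)) ≤ Hu * tailS u Hu 0 := by
  have h1 : ∑ j ∈ Finset.range N, tailS u Hu (N - (j + 1)) = ∑ j ∈ Finset.range N, tailS u Hu j := by
    rw [← Finset.sum_range_reflect (fun j => tailS u Hu j) N]
    refine Finset.sum_congr rfl fun j _ => ?_
    rw [show N - (j + 1) = N - 1 - j by omega]
  have h2 : ∑ j ∈ Finset.range N, tailS u Hu j = ∑ j ∈ Finset.range Hu, tailS u Hu j := by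
    symm
    refine Finset.sum_subset (Finset.range_mono hN) fun j _ hj => ?_
    unfold tailS
    rw [Finset.Ico_eq_empty_of_le (by simpa using hj), Finset.sum_empty]
  rw [h1, h2]
  calc ∑ j ∈ Finset.range Hu, tailS u Hu j ≤ ∑ _j ∈ Finset.range Hu, tailS u Hu 0 := by
        refine Finset.sum_le_sum fun j _ => ?_
        exact Finset.sum_le_sum_of_subset_of_nonneg
          (Finset.Ico_subset_Ico_left (Nat.zero_le j)) fun i _ _ => hnn i
    _ = Hu * tailS u Hu 0 := by rw [Finset.sum_const, Finset.card_range, nsmul_eq_mul]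
end

end Pool.Agent.H73.DC
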