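import Pool.Agent.H73.DC.AddRoot

/-! Adding a path on top of the root. -/

namespace Pool.Agent.H73.DC

/-- The profile at the end of a path of length `L` with weights `a 1, …, a L` (from the bottom) put
on top of a root with profile `R`. -/
def stemProf (a : ℕ → ℝ) (L : ℕ) (R : ℕ → ℝ) (n : ℕ) : ℝ := if n < L then a (L - n) else R (n - L)

variable {V : Type} [DecidableEq V] {adj : V → V → Prop}

theorem stem_prof_zero (a : ℕ → ℝ) (R : ℕ → ℝ) : stemProf a 0 R = R := by
  funext n
  simp [stemProf]

theorem stem_prof_succ (a : ℕ → ℝ) (L : ℕ) (R : ℕ → ℝ) (n : ℕ) :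
    stemProf a (L + 1) R (n + 1) = stemProf a L R n := by
  unfold stemProf
  by_cases h : n < L
  · rw [if_pos h, if_pos (by omega)]
    congr 1
    omega
  · rw [if_neg h, if_neg (by omega)]
    congr 1
    omega

theorem stem_one_le (a : ℕ → ℝ) (L : ℕ) (ha : ∀ t, 1 ≤ t → t < L → a t < a (t + 1))
    (ha1 : 1 ≤ a 1) : ∀ t, 1 ≤ t → t ≤ L → 1 ≤ a t := by
  intro t ht
  induction t, ht using Nat.le_induction with
  | base => exact fun _ => ha1
  | succ t ht ih =>
    intro h
    exact (ih (by omega)).trans (ha t ht (by omega)).le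

/-- JOB DC-6 STEM. Induction on `L` with `IsPiece.addRoot`: `β 0 = a (L + 1)`,
`β (n + 1) = W (g L) n`. Also prove in the induction that the values at time zero of the new
vertices are `a t` (or prove the sum directly: the vertex set grows by the new vertex `g (L + 1)`).
The condition `W (g L) n < β n` when `0 < W (g L) n`: cases `n = 0` (`W r 0 < a 1` or
`a L < a (L + 1)`), `0 < n < L`, `n = L`, `n > L` (`hdec`). -/
theorem IsPiece.stem (hsymm : ∀ u v, adj u v → adj v u) (hirr : ∀ u, ¬ adj u u)
    {W : V → ℕ → ℝ} {S : Finset V} {r : V} {H : ℕ} (hp : IsPiece adj W S r H)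
    (hdec : ∀ n, 0 < W r (n + 1) → W r (n + 1) < W r n) (L : ℕ) (g : ℕ → V) (a : ℕ → ℝ)
    (g0 : g 0 = r) (hadj : ∀ t, t < L → adj (g t) (g (t + 1)))
    (hS : ∀ t, 1 ≤ t → t ≤ L → g t ∉ S)
    (hSfar : ∀ t, 1 ≤ t → t ≤ L → ∀ v ∈ S, adj (g t) v → t = 1 ∧ v = r)
    (hind : ∀ s t, 1 ≤ s → s < t → t ≤ L → g s ≠ g t ∧ (adj (g s) (g t) → t = s + 1))
    (ha0 : W r 0 < a 1) (ha : ∀ t, 1 ≤ t → t < L → a t < a (t + 1)) (ha1 : 1 ≤ a 1) :
    ∃ W' : V → ℕ → ℝ, IsPiece adj W' (S ∪ (Finset.Icc 1 L).image g) (g L) (H + L) ∧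
      (∀ v ∈ S, W' v = W v) ∧ W' (g L) = stemProf a L (W r) ∧
      ∑ v ∈ S ∪ (Finset.Icc 1 L).image g, W' v 0 =
        ∑ v ∈ S, W v 0 + ∑ t ∈ Finset.Icc 1 L, a t := by
  induction L with
  | zero =>
    refine ⟨W, ?_, fun v _ => rfl, ?_, ?_⟩
    · simpa [g0] using hp
    · rw [stem_prof_zero, g0]
    · simp
  | succ L ih =>
    obtain ⟨W₁, h1, h2, h3, h4⟩ := ih (fun t ht => hadj t (by omega))
      (fun t ht1 ht2 => hS t ht1 (by omega)) (fun t ht1 ht2 => hSfar t ht1 (by omega))
      (fun s t hs hst ht => hind s t hs hst (by omega)) (fun t ht1 ht2 => ha t ht1 (by omega))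
    have hyS : g (L + 1) ∉ S := hS (L + 1) (by omega) le_rfl
    have hy : g (L + 1) ∉ S ∪ (Finset.Icc 1 L).image g := by
      intro hc
      rcases Finset.mem_union.1 hc with h | h
      · exact hyS h
      · obtain ⟨s, hs, hse⟩ := Finset.mem_image.1 h
        rw [Finset.mem_Icc] at hs
        exact (hind s (L + 1) hs.1 (by omega) le_rfl).1 hse
    have heq : S ∪ (Finset.Icc 1 (L + 1)).image g =
        insert (g (L + 1)) (S ∪ (Finset.Icc 1 L).image g) := by
      have h5 : Finset.Icc 1 (L + 1) = insert (L + 1) (Finset.Icc 1 L) := by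
        ext t
        simp only [Finset.mem_Icc, Finset.mem_insert]
        omega
      rw [h5, Finset.image_insert, Finset.union_insert]
    have hone : 1 ≤ a (L + 1) := stem_one_le a (L + 1) ha ha1 (L + 1) (by omega) le_rfl
    have hpc := IsPiece.addRoot hsymm h1 hy (hadj L (by omega)) (hirr _) (by
      intro v hv hav
      rcases Finset.mem_union.1 hv with h | h
      · obtain ⟨h6, h7⟩ := hSfar (L + 1) (by omega) le_rfl v h hav
        have h8 : L = 0 := by omega
        rw [h8, g0, h7]
      · obtain ⟨s, hs, rfl⟩ := Finset.mem_image.1 h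
        rw [Finset.mem_Icc] at hs
        have h9 := (hind s (L + 1) hs.1 (by omega) le_rfl).2 (hsymm _ _ hav)
        have h10 : s = L := by omega
        rw [h10]) (stemProf a (L + 1) (W r)) (by
      simpa [stemProf] using hone) (by
      intro n
      rw [stem_prof_succ, h3]) (by
      intro n hn
      rw [h3] at hn ⊢
      unfold stemProf at hn ⊢
      rcases lt_trichotomy n L with h | h | h
      · rw [if_pos h, if_pos (by omega)]
        have h11 : L + 1 - n = (L - n) + 1 := by omega
        rw [h11]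
        exact ha (L - n) (by omega) (by omega)
      · subst h
        rw [if_neg (by omega), if_pos (by omega)]
        have h12 : n + 1 - n = 1 := by omega
        rw [h12, Nat.sub_self]
        exact ha0
      · rw [if_neg (by omega)] at hn ⊢
        rw [if_neg (by omega)]
        have h13 : n - L = (n - (L + 1)) + 1 := by omega
        rw [h13] at hn ⊢
        exact hdec _ hn)
    rw [← heq] at hpc
    refine ⟨_, hpc, ?_, ?_, ?_⟩
    · intro v hv
      rw [Function.update_of_ne (by
        rintro rfl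
        exact hyS hv)]
      exact h2 v hv
    · rw [Function.update_self]
    · rw [heq, Finset.sum_insert hy, Function.update_self, Finset.sum_Icc_succ_top (by omega)]
      have h14 : ∑ v ∈ S ∪ (Finset.Icc 1 L).image g,
          Function.update W₁ (g (L + 1)) (stemProf a (L + 1) (W r)) v 0 =
          ∑ v ∈ S ∪ (Finset.Icc 1 L).image g, W₁ v 0 := by
        refine Finset.sum_congr rfl fun v hv => ?_
        rw [Function.update_of_ne (by
          rintro rfl
          exact hy hv)]
      rw [h14, h4]
      have h15 : stemProf a (L + 1) (W r) 0 = a (L + 1) := by simp [stemProf]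
      rw [h15]
      ring

end Pool.Agent.H73.DC
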