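import Pool.Agent.H73.DC.Quality
import Pool.Agent.H73.DC.Stem

/-! The first level. -/

namespace Pool.Agent.H73.DC

/-- The one vertex tree. -/
noncomputable def baseW (v : P3) (n : ℕ) : ℝ := if v = (0, 0, 0) ∧ n = 0 then 1 else 0

theorem base_piece : IsPiece adj3 baseW {((0, 0, 0) : P3)} (0, 0, 0) 1 := by
  refine ⟨?_, ?_, ?_, ?_, Finset.mem_singleton_self _, fun v => v, ?_, ?_, ?_, ?_⟩
  · intro v n
    unfold baseW
    split_ifs <;> norm_num
  · intro v hv n
    rw [Finset.mem_singleton] at hv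
    unfold baseW
    rw [if_neg fun h => hv h.1]
  · intro v hv
    rw [Finset.mem_singleton] at hv
    unfold baseW
    rw [if_pos ⟨hv, rfl⟩]
  · intro v n hn
    unfold baseW
    rw [if_neg fun h => by omega]
  · intro v hv hvr
    exact absurd (Finset.mem_singleton.1 hv) hvr
  · intro u hu v hv huv
    rw [Finset.mem_singleton] at hu hv
    rw [hu, hv] at huv
    exact absurd huv (adj3_irrefl _)
  · intro v hv hvr
    exact absurd (Finset.mem_singleton.1 hv) hvr
  · intro v hv n
    unfold baseW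
    rw [if_neg fun h => by omega]
    simp

/-- The weights of the first level. -/
noncomputable def baseA (X : ℕ) (t : ℕ) : ℝ := 1 + t / X

theorem baseA_lt {X : ℕ} (hX : 1 ≤ X) {s t : ℕ} (h : s < t) : baseA X s < baseA X t := by
  unfold baseA
  have h1 : (0 : ℝ) < X := by exact_mod_cast hX
  have h2 : (s : ℝ) < t := by exact_mod_cast h
  have := div_lt_div_of_pos_right h2 h1
  linarith

theorem baseA_zero (X : ℕ) : baseA X 0 = 1 := by
  simp [baseA]

theorem baseA_one_le (X t : ℕ) : 1 ≤ baseA X t := by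
  unfold baseA
  have : (0 : ℝ) ≤ (t : ℝ) / X := by positivity
  linarith

theorem baseA_le {X t : ℕ} (hX : 1 ≤ X) (h : t ≤ X) : baseA X t ≤ 2 := by
  unfold baseA
  have h1 : (0 : ℝ) < X := by exact_mod_cast hX
  have h2 : (t : ℝ) ≤ X := by exact_mod_cast h
  have h3 : (t : ℝ) / X ≤ 1 := (div_le_one h1).2 h2
  linarith

theorem baseW_root (n : ℕ) : baseW (0, 0, 0) n = if n = 0 then 1 else 0 := by
  unfold baseW
  simp

theorem exists_base_lev (X B : ℕ) (hX : 1 ≤ X) (hB : 1 ≤ B) :
    ∃ (W : P3 → ℕ → ℝ) (S : Finset P3), IsLev X B X W S ∧ W (rootP X) 0 ≤ 2 ∧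
      (X : ℝ) ≤ ∑ v ∈ S, W v 0 := by
  obtain ⟨L, rfl⟩ : ∃ L, X = L + 1 := ⟨X - 1, by omega⟩
  have hg : ∀ t : ℕ, (((t : ℤ), (0 : ℤ), (0 : ℤ)) : P3).1 = t := fun _ => rfl
  obtain ⟨W, h1, h2, h3, h4⟩ := IsPiece.stem (adj := adj3) (fun _ _ => adj3_symm) adj3_irrefl
    base_piece (by
      intro n hn
      rw [baseW_root, if_neg (by omega)] at hn
      exact absurd hn (lt_irrefl _)) L (fun t => ((t : ℤ), (0 : ℤ), (0 : ℤ))) (baseA (L + 1))
    (by simp)
    (by
      intro t _
      unfold adj3 dst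
      push_cast
      omega)
    (by
      intro t ht _ h
      rw [Finset.mem_singleton, Prod.mk.injEq] at h
      have := h.1
      omega)
    (by
      intro t ht _ v hv hadj
      rw [Finset.mem_singleton] at hv
      subst hv
      unfold adj3 dst at hadj
      refine ⟨?_, rfl⟩
      simp only at hadj
      omega)
    (by
      intro s t hs hst _
      refine ⟨?_, ?_⟩
      · intro h
        rw [Prod.mk.injEq] at h
        have := h.1
        omega
      · intro hadj
        unfold adj3 dst at hadj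
        simp only at hadj
        omega)
    (by
      rw [baseW_root, if_pos rfl, ← baseA_zero (L + 1)]
      exact baseA_lt (by omega) (by omega))
    (fun t _ _ => baseA_lt (by omega) (by omega)) (baseA_one_le _ _)
  have hr : (((L : ℕ) : ℤ), (0 : ℤ), (0 : ℤ)) = rootP (L + 1) := by
    unfold rootP
    push_cast
    simp
  rw [hr] at h3 h1
  refine ⟨W, {((0, 0, 0) : P3)} ∪ (Finset.Icc 1 L).image fun t : ℕ => ((t : ℤ), (0 : ℤ), (0 : ℤ)),
    ⟨by omega, hB, by omega, ?_, ?_, ?_, ?_⟩, ?_, ?_⟩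
  · have h5 : 1 + L = L + 1 := by omega
    rw [← h5]
    rw [h5] at h1 ⊢
    exact h1
  · intro v hv
    rw [mem_boxF]
    rcases Finset.mem_union.1 hv with h | h
    · rw [Finset.mem_singleton] at h
      subst h
      simp only
      omega
    · obtain ⟨t, ht, rfl⟩ := Finset.mem_image.1 h
      rw [Finset.mem_Icc] at ht
      simp only
      omega
  · intro n hn
    rw [h3]
    unfold stemProf
    split_ifs with h
    · exact lt_of_lt_of_le one_pos (baseA_one_le _ _)
    · rw [baseW_root, if_pos (by omega)]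
      exact one_pos
  · intro n hn
    rw [h3]
    unfold stemProf
    rcases Nat.lt_or_ge (n + 1) L with h | h
    · rw [if_pos h, if_pos (by omega)]
      exact baseA_lt (by omega) (by omega)
    · rw [if_neg (by omega)]
      rcases Nat.lt_or_ge n L with h' | h'
      · rw [if_pos h', baseW_root, if_pos (by omega), ← baseA_zero (L + 1)]
        exact baseA_lt (by omega) (by omega)
      · rw [if_neg (by omega), baseW_root, baseW_root, if_neg (by omega), if_pos (by omega)]
        exact one_pos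
  · rw [h3]
    unfold stemProf
    split_ifs with h
    · exact baseA_le (by omega) (by omega)
    · rw [baseW_root]
      split_ifs <;> norm_num
  · rw [h4]
    have h5 : ∑ v ∈ {((0, 0, 0) : P3)}, baseW v 0 = 1 := by
      rw [Finset.sum_singleton, baseW_root, if_pos rfl]
    rw [h5]
    have h6 : (L : ℝ) ≤ ∑ t ∈ Finset.Icc 1 L, baseA (L + 1) t := by
      calc (L : ℝ) = ∑ t ∈ Finset.Icc 1 L, (1 : ℝ) := by simp
        _ ≤ _ := Finset.sum_le_sum fun t _ => baseA_one_le _ _
    push_cast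
    linarith

/-- JOB DC-19 BASE. The first level, a straight path of length `X` in a box of width `B`: choose
`B` with `16 ≤ δ * B` and `K ≤ B`, then `n` by `eventually_quality` with `X₀ = K`, `c = 1`, `M' = 3`,
and `X = n * (n - 1) - (lam B n + 1)`. The tree: the points `(i, 0, 0)`, `0 ≤ i < X`, root
`(X - 1, 0, 0)`, with weights increasing from `1` to at most `3`; either apply `IsPiece.stem` with
`L = X - 1` to the tree with one vertex `(0,0,0)` of weight `1`, or prove `IsPiece` directly; here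
`H = X`, `W (i,0,0) n = w (i - n)` for `n ≤ i`, and `m ≥ X`. -/
theorem exists_base (δ : ℝ) (hδ : 0 < δ) (hδ1 : δ ≤ 1) (K : ℕ) :
    ∃ L : Lvl, L.Q δ ∧ K ≤ L.n ∧ K ≤ L.X ∧ K ≤ L.B := by
  obtain ⟨B₀, hB₀⟩ := exists_nat_ge (16 / δ)
  obtain ⟨B, hB, hK, hB1⟩ : ∃ B : ℕ, 16 ≤ δ * B ∧ K ≤ B ∧ 1 ≤ B := by
    refine ⟨B₀ + K + 1, ?_, by omega, by omega⟩
    have h1 : 16 ≤ δ * B₀ := by
      rw [div_le_iff₀ hδ] at hB₀
      linarith
    push_cast
    have h2 : 0 ≤ δ * (K + 1) := by positivity
    nlinarith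
  obtain ⟨n, h1, h2, h3, h4⟩ :=
    (eventually_quality (K + 1) B 1 3 δ hB1 hδ hδ1 one_pos (by norm_num) hB).exists
  have hX : 1 ≤ n * (n - 1) - (lam B n + 1) := by omega
  obtain ⟨W, S, h5, h6, h7⟩ := exists_base_lev (n * (n - 1) - (lam B n + 1)) B hX hB1
  refine ⟨⟨n * (n - 1) - (lam B n + 1), B, n, _, W, S, h5, by omega⟩, ⟨h3, ?_⟩, by
    show K ≤ n; omega, by show K ≤ n * (n - 1) - (lam B n + 1); omega, hK⟩
  show ((lam B n : ℝ) + 1) * (W (rootP (n * (n - 1) - (lam B n + 1))) 0 + 2) ≤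
    δ * ∑ v ∈ S, W v 0
  have h8 : ((n * (n - 1) - (lam B n + 1) - (K + 1) : ℕ) : ℝ) ≤
      ((n * (n - 1) - (lam B n + 1) : ℕ) : ℝ) := by
    exact_mod_cast Nat.sub_le _ _
  calc ((lam B n : ℝ) + 1) * (W (rootP (n * (n - 1) - (lam B n + 1))) 0 + 2)
      ≤ ((lam B n : ℝ) + 1) * (3 + 2) := by
        apply mul_le_mul_of_nonneg_left _ (by positivity)
        linarith
    _ ≤ _ := h4
    _ ≤ _ := by
      apply mul_le_mul_of_nonneg_left _ hδ.le
      rw [one_mul]
      exact h8.trans h7

end Pool.Agent.H73.DC
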