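import Pool.Agent.H73.DC.SideDef

/-! The profile of a side tree. -/

namespace Pool.Agent.H73.DC

theorem sideProf_lt {a : ℕ → ℝ} {L : ℕ} {R : ℕ → ℝ} {n : ℕ} (h : n < L) :
    stemProf a L R n = a (L - n) := if_pos h

theorem sideProf_ge {a : ℕ → ℝ} {L : ℕ} {R : ℕ → ℝ} {n : ℕ} (h : L ≤ n) :
    stemProf a L R n = R (n - L) := if_neg (not_lt.2 h)

/-- JOB DC-15 SIDEPROF. Facts about the profile of a side tree (elementary). -/
theorem stemProf_facts {X B H : ℕ} {W : P3 → ℕ → ℝ} {S : Finset P3} (h : IsLev X B H W S)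
    {L : ℕ} (hL : 1 ≤ L) :
    (∀ n, n < H + L → 0 < stemProf (stemA (W (rootP X) 0) L) L (W (rootP X)) n) ∧
    (∀ n, H + L ≤ n → stemProf (stemA (W (rootP X) 0) L) L (W (rootP X)) n = 0) ∧
    (∀ n, n < H + L → stemProf (stemA (W (rootP X) 0) L) L (W (rootP X)) (n + 1) <
      stemProf (stemA (W (rootP X) 0) L) L (W (rootP X)) n) ∧
    stemProf (stemA (W (rootP X) 0) L) L (W (rootP X)) 0 = W (rootP X) 0 + 1 ∧
    ∑ t ∈ Finset.Icc 1 L, stemA (W (rootP X) 0) L t ≤ L * (W (rootP X) 0 + 1) ∧
    tailS (stemProf (stemA (W (rootP X) 0) L) L (W (rootP X))) (H + L) 0 ≤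
      ∑ n ∈ Finset.range H, W (rootP X) n + L * (W (rootP X) 0 + 1) := by
  have hM := one_le_root h
  have hLpos : (0 : ℝ) < L := by exact_mod_cast hL
  have hterm : ∀ t, t ≤ L → stemA (W (rootP X) 0) L t ≤ W (rootP X) 0 + 1 := by
    intro t ht
    unfold stemA
    have h1 : (t : ℝ) / L ≤ 1 := by
      rw [div_le_one hLpos]
      exact_mod_cast ht
    linarith
  refine ⟨?_, ?_, ?_, ?_, ?_, ?_⟩
  · intro n hn
    rcases lt_or_ge n L with h1 | h1
    · rw [sideProf_lt h1]
      unfold stemA
      positivity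
    · rw [sideProf_ge h1]
      exact h.pos _ (by omega)
  · intro n hn
    rw [sideProf_ge (by omega)]
    exact h.piece.vanish _ _ (by omega)
  · intro n hn
    rcases lt_trichotomy (n + 1) L with h1 | h1 | h1
    · rw [sideProf_lt h1, sideProf_lt (by omega : n < L)]
      unfold stemA
      have h2 : ((L - (n + 1) : ℕ) : ℝ) / L < ((L - n : ℕ) : ℝ) / L := by
        apply div_lt_div_of_pos_right _ hLpos
        exact_mod_cast (by omega : L - (n + 1) < L - n)
      linarith
    · rw [sideProf_ge (by omega : L ≤ n + 1), sideProf_lt (by omega : n < L)]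
      unfold stemA
      rw [show n + 1 - L = 0 by omega, show L - n = 1 by omega]
      have h2 : (0 : ℝ) < ((1 : ℕ) : ℝ) / L := by positivity
      linarith
    · rw [sideProf_ge (by omega : L ≤ n + 1), sideProf_ge (by omega : L ≤ n),
        show n + 1 - L = n - L + 1 by omega]
      exact h.dec _ (by omega)
  · rw [sideProf_lt (by omega : 0 < L)]
    unfold stemA
    rw [Nat.sub_zero, div_self hLpos.ne']
  · calc ∑ t ∈ Finset.Icc 1 L, stemA (W (rootP X) 0) L t
        ≤ ∑ _t ∈ Finset.Icc 1 L, (W (rootP X) 0 + 1) :=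
          Finset.sum_le_sum fun t ht => hterm t (Finset.mem_Icc.1 ht).2
      _ = L * (W (rootP X) 0 + 1) := by
          rw [Finset.sum_const, Nat.card_Icc, nsmul_eq_mul, Nat.add_sub_cancel]
  · unfold tailS
    rw [Nat.Ico_zero_eq_range, add_comm H L, Finset.sum_range_add]
    have h1 : ∑ l ∈ Finset.range L, stemProf (stemA (W (rootP X) 0) L) L (W (rootP X)) l ≤
        L * (W (rootP X) 0 + 1) := by
      calc ∑ l ∈ Finset.range L, stemProf (stemA (W (rootP X) 0) L) L (W (rootP X)) l
          ≤ ∑ _l ∈ Finset.range L, (W (rootP X) 0 + 1) := by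
            refine Finset.sum_le_sum fun l hl => ?_
            rw [sideProf_lt (Finset.mem_range.1 hl)]
            exact hterm _ (by omega)
        _ = L * (W (rootP X) 0 + 1) := by
            rw [Finset.sum_const, Finset.card_range, nsmul_eq_mul]
    have h2 : ∑ l ∈ Finset.range H, stemProf (stemA (W (rootP X) 0) L) L (W (rootP X)) (L + l) =
        ∑ n ∈ Finset.range H, W (rootP X) n := by
      refine Finset.sum_congr rfl fun l _ => ?_
      rw [sideProf_ge (by omega), show L + l - L = l by omega]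
    rw [h2]
    linarith

end Pool.Agent.H73.DC
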