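import Pool.Agent.H73.DC.Side
import Pool.Agent.H73.DC.SideProf

/-! One step of the hierarchical construction: the next tree. -/

namespace Pool.Agent.H73.DC

namespace Frame

variable {X B n : ℕ} (F : Frame X B n)

theorem cyw_le (j : ℕ) : F.cyw j + (B + 3) ≤ n * (B + 3) := by
  unfold cyw
  have h := (F.hlt j).1
  have h' : (F.cy j : ℤ) + 1 ≤ n := by exact_mod_cast h
  nlinarith [h']

theorem czw_le (j : ℕ) : F.czw j + (B + 3) ≤ n * (B + 3) := by
  unfold czw
  have h := (F.hlt j).2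
  have h' : (F.cz j : ℤ) + 1 ≤ n := by exact_mod_cast h
  nlinarith [h']

theorem g_adj_trunk (j : ℕ) : adj3 (F.g j (lam B n)) (F.trunkPt j) := by
  have h := posS_adj (e := F.e j) (x := F.x j) (F.cyw_nonneg j) (F.czw_nonneg j)
    (le_refl (0 : ℤ))
  have h0 : posS (F.e j) (F.x j) (F.cyw j) (F.czw j) 0 = F.trunkPt j := by
    unfold posS posE trunkPt swapP
    have hy := F.cyw_nonneg j
    have hz := F.czw_nonneg j
    cases F.e j <;> simp [hy, hz]
  have h1 : F.g j (lam B n) = posS (F.e j) (F.x j) (F.cyw j) (F.czw j) (0 + 1) := by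
    unfold g
    congr 1
    ring
  rw [h1]
  rw [← h0]
  exact adj3_symm h

theorem side_inbox {S : Finset P3} (hS : ∀ v ∈ S, v ∈ boxF X B) {N j : ℕ} (hj : j < N) {v : P3}
    (hv : v ∈ F.sideS S j) : v ∈ boxF (X + lam B n + N) (n * (B + 3)) := by
  have h := F.side_mem hS hv
  have h1 := F.cyw_le j
  have h2 := F.czw_le j
  have h3 := F.cyw_nonneg j
  have h4 := F.czw_nonneg j
  have h5 := F.D_pos j
  have h6 := F.D_le j
  have hB := F.hB
  rw [mem_boxF]
  unfold PathPt BoxPt x at h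
  push_cast
  rcases h with ⟨hx, h⟩ | ⟨a1, a2, a3, a4, a5, a6⟩
  · cases he : F.e j
    · rw [he] at h
      simp only [Bool.false_eq_true, if_false] at h
      rcases h with h | h | h
      · refine ⟨⟨?_, ?_⟩, ⟨?_, ?_⟩, ⟨?_, ?_⟩⟩ <;> omega
      · refine ⟨⟨?_, ?_⟩, ⟨?_, ?_⟩, ⟨?_, ?_⟩⟩ <;> omega
      · refine ⟨⟨?_, ?_⟩, ⟨?_, ?_⟩, ⟨?_, ?_⟩⟩ <;> omega
    · rw [he] at h
      simp only [if_true] at h
      rcases h with h | h | h
      · refine ⟨⟨?_, ?_⟩, ⟨?_, ?_⟩, ⟨?_, ?_⟩⟩ <;> omega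
      · refine ⟨⟨?_, ?_⟩, ⟨?_, ?_⟩, ⟨?_, ?_⟩⟩ <;> omega
      · refine ⟨⟨?_, ?_⟩, ⟨?_, ?_⟩, ⟨?_, ?_⟩⟩ <;> omega
  · refine ⟨⟨?_, ?_⟩, ⟨?_, ?_⟩, ⟨?_, ?_⟩⟩ <;> omega

theorem tau_inbox {v : P3} (hv : v ∈ boxF X B) {N j : ℕ} (hj : j < N) :
    F.tau j + v ∈ boxF (X + lam B n + N) (n * (B + 3)) := by
  have h := F.tau_box hv j
  have h1 := F.cyw_le j
  have h2 := F.czw_le j
  have h3 := F.cyw_nonneg j
  have h4 := F.czw_nonneg j
  have h5 := F.D_pos j
  have h6 := F.D_le j
  rw [mem_boxF]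
  unfold BoxPt x at h
  push_cast
  obtain ⟨a1, a2, a3, a4, a5, a6⟩ := h
  refine ⟨⟨?_, ?_⟩, ⟨?_, ?_⟩, ⟨?_, ?_⟩⟩ <;> omega

theorem tau_sep {i j : ℕ} {v v' : P3} (hv : v ∈ boxF X B) (hv' : v' ∈ boxF X B)
    (h : F.tau i + v = F.tau j + v') : i = j := by
  by_contra hij
  have h1 := F.tau_box hv i
  have h2 := F.tau_box hv' j
  have h5 := F.D_pos i
  have h6 := F.D_pos j
  have h3 : BoxPt (F.x i - F.D i - X + 1) (F.x i) (F.cyw i) (F.czw i) B (F.tau i + v) := by
    unfold BoxPt at *
    exact ⟨h1.1, by omega, h1.2.2⟩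
  have h4 : BoxPt (F.x j - F.D j - X + 1) (F.x j) (F.cyw j) (F.czw j) B (F.tau j + v') := by
    unfold BoxPt at *
    exact ⟨h2.1, by omega, h2.2.2⟩
  have h7 := F.far hij (Or.inr h3) (Or.inr h4)
  rw [h, dst_self] at h7
  omega

end Frame

/-- JOB DC-16 BUILD. Get the cells from `exists_cells` (`2 ≤ n` follows from `hfit`) and make a
`Frame` `F`. Apply `IsPiece.trunk` with `x = F.trunkPt`, `r j = F.g j (lam B n)`, the side trees of
`exists_side` (choose them), `u = stemProf …`, `b = trunkB (trunkC M N) u (H + lam B n) N`; its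
hypotheses follow from `F.far` (with `F.side_mem`), `F.trunk_side`, `posS_adj` and the lemmas of
Alpha.lean with `stemProf_facts`. `J` is the image of `range N` under `F.tau` (injective: same cell,
then `F.x` is the same). For `v ∈ boxF X B` not in `S` both sides of `W' (τ + v) = W v` vanish, by
`F.box_trunkS`. `W' root 0 = b N = M + 2 + tailS u _ 0`. The total is
`∑ j < N, (m + ∑ a + c (j + 1) + tailS u _ (N - (j + 1)))`, see `sum_tailS_le`. -/
theorem build {X B H n N : ℕ} {W : P3 → ℕ → ℝ} {S : Finset P3} (h : IsLev X B H W S)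
    (hfit : X + lam B n + 1 ≤ n * (n - 1)) (hN : H + lam B n ≤ N) :
    ∃ (W' : P3 → ℕ → ℝ) (S' : Finset P3) (J : Finset P3),
      IsLev (X + lam B n + N) (n * (B + 3)) (N + (H + lam B n)) W' S' ∧ J.card = N ∧
      (∀ τ ∈ J, ∀ v ∈ boxF X B, τ + v ∈ boxF (X + lam B n + N) (n * (B + 3)) ∧
        W' (τ + v) = W v) ∧
      (∀ τ ∈ J, ∀ τ' ∈ J, ∀ v ∈ boxF X B, ∀ v' ∈ boxF X B, τ + v = τ' + v' → τ = τ') ∧
      W' (rootP (X + lam B n + N)) 0 ≤ W (rootP X) 0 + 2 +
        (∑ k ∈ Finset.range H, W (rootP X) k + lam B n * (W (rootP X) 0 + 1)) ∧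
      N * ∑ v ∈ S, W v 0 ≤ ∑ v ∈ S', W' v 0 ∧
      ∑ v ∈ S', W' v 0 ≤
        N * (∑ v ∈ S, W v 0 + lam B n * (W (rootP X) 0 + 1) + (W (rootP X) 0 + 2)) +
        (H + lam B n) *
          (∑ k ∈ Finset.range H, W (rootP X) k + lam B n * (W (rootP X) 0 + 1)) := by
  have hn2 : 2 ≤ n := by
    rcases Nat.lt_or_ge n 2 with hn | hn
    · exfalso
      have : n * (n - 1) = 0 := by
        interval_cases n <;> rfl
      omega
    · exact hn
  have hH := h.hH
  have hL : 1 ≤ lam B n := by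
    unfold lam
    have : 0 < 2 * n * (B + 3) := by positivity
    omega
  have hN1 : 1 ≤ N := by omega
  obtain ⟨cy, cz, hlt, heven, hodd, hper⟩ := exists_cells n hn2
  let F : Frame X B n := ⟨cy, cz, h.hB, hfit, hlt, heven, hodd, hper⟩
  have hM1 : 1 ≤ W (rootP X) 0 := one_le_root h
  choose Ws hpiece hcopy hroot hmass using fun j => exists_side h F j
  obtain ⟨hupos, huzero, hudec, hu0, hsuma, htail⟩ := stemProf_facts h hL
  set M := W (rootP X) 0 with hM
  set u := stemProf (stemA M (lam B n)) (lam B n) (W (rootP X)) with hu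
  have hNpos : (0 : ℝ) < N := by exact_mod_cast hN1
  have hc1 : ∀ j, 1 ≤ j → M + 1 < trunkC M N j := by
    intro j hj
    unfold trunkC
    have : (0 : ℝ) < (j : ℝ) / N := div_pos (by exact_mod_cast hj) hNpos
    linarith
  have hc0 : ∀ j, 1 ≤ j → 0 < trunkC M N j := fun j hj => by linarith [hc1 j hj]
  have hc : ∀ j, 1 ≤ j → j < N → trunkC M N j < trunkC M N (j + 1) := by
    intro j _ _
    unfold trunkC
    have : (j : ℝ) / N < ((j + 1 : ℕ) : ℝ) / N := by
      apply div_lt_div_of_pos_right _ hNpos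
      push_cast; linarith
    linarith
  have hunn : ∀ k, 0 ≤ u k := by
    intro k
    rcases Nat.lt_or_ge k (H + lam B n) with hk | hk
    · exact (hupos k hk).le
    · exact (huzero k hk).ge
  have htail_nn : ∀ i, 0 ≤ tailS u (H + lam B n) i := by
    intro i
    unfold tailS
    exact Finset.sum_nonneg fun k _ => hunn k
  have hb1 : ∀ j, 1 ≤ j → 1 ≤ trunkB (trunkC M N) u (H + lam B n) N j := by
    intro j hj
    unfold trunkB
    have := hc1 j hj
    have := htail_nn (N - j)
    linarith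
  have hfar : ∀ i j, i ≠ j → ∀ p ∈ F.sideS S i, ∀ q ∈ F.sideS S j, 1 < dst p q :=
    fun i j hij p hp q hq => F.far hij (F.side_mem h.inbox hp) (F.side_mem h.inbox hq)
  obtain ⟨W', hW', hcopy', hroot', hmass'⟩ := IsPiece.trunk (adj := adj3) (fun _ _ => adj3_symm)
    adj3_irrefl hN1 F.trunkPt (fun j => F.g j (lam B n)) Ws (fun j => F.sideS S j) u
    (trunkB (trunkC M N) u (H + lam B n) N) (H + lam B n)
    (fun j _ => hpiece j) (fun j _ => hroot j)
    (by
      intro i j _ _ hij
      refine ⟨?_, ?_⟩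
      · rw [Finset.disjoint_left]
        intro p hp hq
        have := hfar i j hij p hp p hq
        rw [dst_self] at this
        omega
      · intro p hp q hq hadj
        have := hfar i j hij p hp q hq
        unfold adj3 at hadj
        omega)
    (fun i j _ _ => F.trunk_side h.inbox i j)
    (fun j _ => F.g_adj_trunk j)
    (by
      intro i j hij _
      unfold Frame.trunkPt Frame.x adj3 dst
      constructor
      · intro heq
        simp only [Prod.mk.injEq] at heq
        omega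
      · simp only
        omega)
    hb1
    (fun j hj hjN k hk => alpha_lt_succ hupos huzero hc0 hc (by omega) hN j hj hjN k hk)
    (fun j k hk => side_lt_alpha hupos huzero hudec
      (fun i hi => by rw [hu0]; exact hc1 i hi) j k hk)
  have hrt : rootP (X + lam B n + N) = F.trunkPt (N - 1) := by
    unfold rootP Frame.trunkPt Frame.x
    ext
    · push_cast [Nat.cast_sub hN1]
      ring
    · rfl
    · rfl
  refine ⟨W', trunkS F.trunkPt (fun j => F.sideS S j) N, (Finset.range N).image F.tau,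
    ?_, ?_, ?_, ?_, ?_, ?_, ?_⟩
  · refine ⟨by omega, ?_, by omega, ?_, ?_, ?_, ?_⟩
    · have : 0 < n * (B + 3) := by positivity
      omega
    · rw [hrt]; exact hW'
    · intro v hv
      unfold trunkS at hv
      rw [Finset.mem_biUnion] at hv
      obtain ⟨j, hj, hv⟩ := hv
      rw [Finset.mem_range] at hj
      rw [Finset.mem_insert] at hv
      rcases hv with rfl | hv
      · rw [mem_boxF]
        unfold Frame.trunkPt Frame.x
        have : 0 < n * (B + 3) := by positivity
        have h' : (0 : ℤ) < n * (B + 3) := by exact_mod_cast this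
        push_cast
        refine ⟨⟨?_, ?_⟩, ⟨?_, ?_⟩, ⟨?_, ?_⟩⟩ <;> first | trivial | omega | exact h'
      · exact F.side_inbox h.inbox hj hv
    · intro k hk
      rw [hrt, hroot']
      exact alpha_top_pos hupos huzero hc0 (by omega) hN k hk
    · intro k hk
      rw [hrt, hroot']
      exact alpha_top_dec hupos huzero hc0 hc (by omega) hN k hk
  · rw [Finset.card_image_of_injective _ ?_, Finset.card_range]
    intro i j hij
    have hr : rootP X ∈ boxF X B := h.inbox _ h.piece.mem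
    exact F.tau_sep hr hr (by rw [hij])
  · intro τ hτ v hv
    rw [Finset.mem_image] at hτ
    obtain ⟨j, hj, rfl⟩ := hτ
    rw [Finset.mem_range] at hj
    refine ⟨F.tau_inbox hv hj, ?_⟩
    by_cases hvS : v ∈ S
    · have hmem : F.tau j + v ∈ F.sideS S j := by
        unfold Frame.sideS
        rw [Finset.mem_union]
        left
        rw [F.mem_bodyS]
        simpa using hvS
      rw [hcopy' j hj _ hmem]
      exact hcopy j v hvS
    · have h1 : F.tau j + v ∉ trunkS F.trunkPt (fun j => F.sideS S j) N :=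
        fun h1 => hvS (F.box_trunkS h.inbox hv h1)
      funext k
      rw [hW'.supp _ h1 k, h.piece.supp _ hvS k]
  · intro τ hτ τ' hτ' v hv v' hv' heq
    rw [Finset.mem_image] at hτ hτ'
    obtain ⟨j, hj, rfl⟩ := hτ
    obtain ⟨j', hj', rfl⟩ := hτ'
    rw [F.tau_sep hv hv' heq]
  · rw [hrt, hroot']
    obtain ⟨N', rfl⟩ : ∃ N', N = N' + 1 := ⟨N - 1, by omega⟩
    have : alpha (trunkB (trunkC M (N' + 1)) u (H + lam B n) (N' + 1)) u (N' + 1) 0 =
        trunkB (trunkC M (N' + 1)) u (H + lam B n) (N' + 1) (N' + 1) := rfl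
    rw [this]
    unfold trunkB trunkC
    rw [Nat.sub_self, div_self hNpos.ne']
    linarith
  · rw [hmass']
    have : (N : ℝ) * ∑ v ∈ S, W v 0 = ∑ _j ∈ Finset.range N, ∑ v ∈ S, W v 0 := by
      rw [Finset.sum_const, Finset.card_range, nsmul_eq_mul]
    rw [this]
    refine Finset.sum_le_sum fun j _ => ?_
    rw [hmass j]
    have h1 : 0 ≤ ∑ t ∈ Finset.Icc 1 (lam B n), stemA M (lam B n) t := by
      refine Finset.sum_nonneg fun t _ => ?_
      unfold stemA
      positivity
    have h2 := hb1 (j + 1) (by omega)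
    linarith
  · rw [hmass']
    have h1 : ∀ j ∈ Finset.range N, (∑ v ∈ F.sideS S j, Ws j v 0 +
        trunkB (trunkC M N) u (H + lam B n) N (j + 1)) ≤
        (∑ v ∈ S, W v 0 + lam B n * (M + 1) + (M + 2)) +
          tailS u (H + lam B n) (N - (j + 1)) := by
      intro j hj
      rw [Finset.mem_range] at hj
      rw [hmass j]
      unfold trunkB trunkC
      have h2 : ((j + 1 : ℕ) : ℝ) / N ≤ 1 := by
        rw [div_le_one hNpos]
        exact_mod_cast hj
      linarith
    refine (Finset.sum_le_sum h1).trans ?_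
    rw [Finset.sum_add_distrib, Finset.sum_const, Finset.card_range, nsmul_eq_mul]
    have h3 := sum_tailS_le (u := u) (Hu := H + lam B n) (N := N) hunn hN
    have h4 : ((H + lam B n : ℕ) : ℝ) * tailS u (H + lam B n) 0 ≤ (H + lam B n) *
        (∑ k ∈ Finset.range H, W (rootP X) k + lam B n * (M + 1)) := by
      push_cast
      exact mul_le_mul_of_nonneg_left htail (by positivity)
    linarith

end Pool.Agent.H73.DC
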