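import Mathlib

/-! Assignment of cells to the vertices of the trunk. -/

namespace Pool.Agent.H73.DC

/-- The pairs `q < p < n`, first coordinate `p`. -/
private def cellsSet (n : ℕ) : Finset (Σ _ : ℕ, ℕ) :=
  (Finset.range n).sigma fun p => Finset.range p

private theorem cellsSet_card (n : ℕ) : (cellsSet n).card * 2 = n * (n - 1) := by
  rw [cellsSet, Finset.card_sigma]
  simp only [Finset.card_range]
  exact Finset.sum_range_id_mul_two n

private theorem cells_mem {n : ℕ} {x : Σ _ : ℕ, ℕ} (hx : x ∈ cellsSet n) :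
    x.1 < n ∧ x.2 < x.1 := by
  simpa [cellsSet, Finset.mem_sigma, Finset.mem_range] using hx

private theorem cells_enum (n : ℕ) (hn : 2 ≤ n) : ∃ f : ℕ → (Σ _ : ℕ, ℕ),
    (∀ m, (f m).1 < n ∧ (f m).2 < (f m).1) ∧
    ∀ a b, a < b → (f a).1 = (f b).1 → (f a).2 = (f b).2 → 2 * a + n * (n - 1) ≤ 2 * b := by
  have hc := cellsSet_card n
  have hT : 0 < (cellsSet n).card := by
    rcases Nat.eq_zero_or_pos (cellsSet n).card with h | h
    · rw [h] at hc
      have h1 : 0 < n * (n - 1) := Nat.mul_pos (by omega) (by omega)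
      omega
    · exact h
  refine ⟨fun m => (((cellsSet n).equivFin.symm ⟨m % (cellsSet n).card, Nat.mod_lt _ hT⟩ :
    cellsSet n) : Σ _ : ℕ, ℕ), fun m => cells_mem (Subtype.coe_prop _), ?_⟩
  intro a b hab h1 h2
  have h3 : (((cellsSet n).equivFin.symm ⟨a % (cellsSet n).card, Nat.mod_lt _ hT⟩ :
      cellsSet n) : Σ _ : ℕ, ℕ) =
      (((cellsSet n).equivFin.symm ⟨b % (cellsSet n).card, Nat.mod_lt _ hT⟩ :
      cellsSet n) : Σ _ : ℕ, ℕ) := Sigma.ext h1 (heq_of_eq h2)
  have h4 := (cellsSet n).equivFin.symm.injective (Subtype.ext h3)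
  have h5 : a % (cellsSet n).card = b % (cellsSet n).card := by
    simpa using h4
  have h6 : (cellsSet n).card ∣ b - a := (Nat.modEq_iff_dvd' hab.le).mp h5
  have h7 : (cellsSet n).card ≤ b - a := Nat.le_of_dvd (by omega) h6
  omega

/-- JOB DC-9 CELLS. Let `T = n (n-1) / 2` be the number of the pairs `q < p < n`, enumerate them
(e.g. through `Finset.equivFin` or `Finset.exists_...`), give `j = 2 m` the pair number `m % T` and
`j = 2 m + 1` the exchanged pair number `m % T`. The vertices with even index get the cells strictly below the diagonal of an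
`n × n` board, those with odd index the cells strictly above it, periodically with period
`n (n - 1)`. -/
theorem exists_cells (n : ℕ) (hn : 2 ≤ n) : ∃ cy cz : ℕ → ℕ, (∀ j, cy j < n ∧ cz j < n) ∧
    (∀ j, Even j → cz j < cy j) ∧ (∀ j, ¬ Even j → cy j < cz j) ∧
    ∀ i j, i < j → cy i = cy j → cz i = cz j → i + n * (n - 1) ≤ j := by
  obtain ⟨f, hf1, hf2⟩ := cells_enum n hn
  refine ⟨fun j => if Even j then (f (j / 2)).1 else (f (j / 2)).2,
    fun j => if Even j then (f (j / 2)).2 else (f (j / 2)).1, ?_, ?_, ?_, ?_⟩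
  · intro j
    have h := hf1 (j / 2)
    dsimp only
    split_ifs <;> omega
  · intro j hj
    have h := hf1 (j / 2)
    dsimp only
    rw [if_pos hj, if_pos hj]
    exact h.2
  · intro j hj
    have h := hf1 (j / 2)
    dsimp only
    rw [if_neg hj, if_neg hj]
    exact h.2
  · intro i j hij h1 h2
    dsimp only at h1 h2
    have hi := hf1 (i / 2)
    have hj := hf1 (j / 2)
    by_cases ei : Even i <;> by_cases ej : Even j
    · simp only [if_pos ei, if_pos ej] at h1 h2
      have e1 := Nat.div_two_mul_two_of_even ei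
      have e2 := Nat.div_two_mul_two_of_even ej
      have := hf2 (i / 2) (j / 2) (by omega) h1 h2
      omega
    · simp only [if_pos ei, if_neg ej] at h1 h2
      omega
    · simp only [if_neg ei, if_pos ej] at h1 h2
      omega
    · simp only [if_neg ei, if_neg ej] at h1 h2
      have e1 : i % 2 = 1 := Nat.odd_iff.mp (Nat.not_even_iff_odd.mp ei)
      have e2 : j % 2 = 1 := Nat.odd_iff.mp (Nat.not_even_iff_odd.mp ej)
      have := hf2 (i / 2) (j / 2) (by omega) h2 h1
      omega

end Pool.Agent.H73.DC
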