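import Pool.Agent.H73.DC.Lvl

/-! Densities and boundaries of the levels. -/

namespace Pool.Agent.H73.DC

theorem card_boxF (X B : ℕ) : (boxF X B).card = X * (B * B) := by
  unfold boxF
  simp [Finset.card_product]

theorem count_one (X : ℕ) (w : ℤ) :
    ((Finset.Ico (0 : ℤ) X).filter fun x => x + w ∉ Finset.Ico (0 : ℤ) X).card ≤ w.natAbs := by
  rcases le_or_gt 0 w with hw | hw
  · have h1 : ((Finset.Ico (0 : ℤ) X).filter fun x => x + w ∉ Finset.Ico (0 : ℤ) X) ⊆
        Finset.Ico ((X : ℤ) - w) X := by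
      intro x hx
      simp only [Finset.mem_filter, Finset.mem_Ico] at hx ⊢
      omega
    refine (Finset.card_le_card h1).trans ?_
    rw [Int.card_Ico]
    omega
  · have h1 : ((Finset.Ico (0 : ℤ) X).filter fun x => x + w ∉ Finset.Ico (0 : ℤ) X) ⊆
        Finset.Ico (0 : ℤ) (-w) := by
      intro x hx
      simp only [Finset.mem_filter, Finset.mem_Ico] at hx ⊢
      omega
    refine (Finset.card_le_card h1).trans ?_
    rw [Int.card_Ico]
    omega

/-- JOB DC-21 COUNT (whole file). A point `u` of the box with `u + v` outside has its first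
coordinate in a set of at most `|v.1|` values, or the second in a set of `|v.2.1|` values, or the
third in a set of `|v.2.2|` values. -/
theorem card_boundary (X B : ℕ) (v : P3) (K : ℕ) (hX : K ≤ X) (hB : K ≤ B) :
    ((boxF X B).filter fun u => u + v ∉ boxF X B).card * K ≤ dst v 0 * (boxF X B).card := by
  set F1 := (Finset.Ico (0 : ℤ) X).filter fun x => x + v.1 ∉ Finset.Ico (0 : ℤ) X with hF1
  set F2 := (Finset.Ico (0 : ℤ) B).filter fun x => x + v.2.1 ∉ Finset.Ico (0 : ℤ) B with hF2
  set F3 := (Finset.Ico (0 : ℤ) B).filter fun x => x + v.2.2 ∉ Finset.Ico (0 : ℤ) B with hF3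
  have h1 : F1.card ≤ v.1.natAbs := count_one X v.1
  have h2 : F2.card ≤ v.2.1.natAbs := count_one B v.2.1
  have h3 : F3.card ≤ v.2.2.natAbs := count_one B v.2.2
  have hsub : ((boxF X B).filter fun u => u + v ∉ boxF X B) ⊆
      (F1 ×ˢ Finset.Ico (0 : ℤ) B ×ˢ Finset.Ico (0 : ℤ) B) ∪
      (Finset.Ico (0 : ℤ) X ×ˢ F2 ×ˢ Finset.Ico (0 : ℤ) B) ∪
      (Finset.Ico (0 : ℤ) X ×ˢ Finset.Ico (0 : ℤ) B ×ˢ F3) := by
    intro u hu
    simp only [Finset.mem_filter, mem_boxF, Finset.mem_union, Finset.mem_product, Finset.mem_Ico,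
      Prod.fst_add, Prod.snd_add, hF1, hF2, hF3] at hu ⊢
    omega
  have hcard := (Finset.card_le_card hsub).trans ((Finset.card_union_le _ _).trans
    (Nat.add_le_add_right (Finset.card_union_le _ _) _))
  simp only [Finset.card_product, Int.card_Ico, sub_zero, Int.toNat_natCast] at hcard
  rw [card_boxF]
  have hd : dst v 0 = v.1.natAbs + v.2.1.natAbs + v.2.2.natAbs := by
    unfold dst
    simp
  rw [hd]
  have e1 : F1.card * (B * B) * K ≤ v.1.natAbs * (X * (B * B)) := by
    calc F1.card * (B * B) * K ≤ v.1.natAbs * (B * B) * X :=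
          Nat.mul_le_mul (Nat.mul_le_mul_right _ h1) hX
      _ = v.1.natAbs * (X * (B * B)) := by ring
  have e2 : X * (F2.card * B) * K ≤ v.2.1.natAbs * (X * (B * B)) := by
    calc X * (F2.card * B) * K ≤ X * (v.2.1.natAbs * B) * B :=
          Nat.mul_le_mul (Nat.mul_le_mul_left _ (Nat.mul_le_mul_right _ h2)) hB
      _ = v.2.1.natAbs * (X * (B * B)) := by ring
  have e3 : X * (B * F3.card) * K ≤ v.2.2.natAbs * (X * (B * B)) := by
    calc X * (B * F3.card) * K ≤ X * (B * v.2.2.natAbs) * B :=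
          Nat.mul_le_mul (Nat.mul_le_mul_left _ (Nat.mul_le_mul_left _ h3)) hB
      _ = v.2.2.natAbs * (X * (B * B)) := by ring
  calc _ ≤ (F1.card * (B * B) + X * (F2.card * B) + X * (B * F3.card)) * K :=
        Nat.mul_le_mul_right _ hcard
    _ = F1.card * (B * B) * K + X * (F2.card * B) * K + X * (B * F3.card) * K := by ring
    _ ≤ v.1.natAbs * (X * (B * B)) + v.2.1.natAbs * (X * (B * B)) +
        v.2.2.natAbs * (X * (B * B)) := by omega
    _ = _ := by ring

/-- The map `(τ, v) ↦ τ + v` is injective on `J × box` and on `J × S`; it maps `J × S` into `S'`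
because `1 ≤ W v 0 = W' (τ + v) 0`. -/
theorem Link.card_mul_le {L L' : Lvl} {J : Finset P3} (h : Link L L' J) :
    J.card * (boxF L.X L.B).card ≤ (boxF L'.X L'.B).card ∧ J.card * L.S.card ≤ L'.S.card := by
  have hinj : ∀ τ ∈ J, ∀ τ' ∈ J, ∀ v ∈ boxF L.X L.B, ∀ v' ∈ boxF L.X L.B,
      τ + v = τ' + v' → τ = τ' ∧ v = v' := by
    intro τ hτ τ' hτ' v hv v' hv' e
    have h1 := h.disj τ hτ τ' hτ' v hv v' hv' e
    rw [h1] at e
    exact ⟨h1, add_left_cancel e⟩
  constructor
  · rw [← Finset.card_product]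
    refine Finset.card_le_card_of_injOn (fun p : P3 × P3 => p.1 + p.2) ?_ ?_
    · intro p hp
      have hp' := Finset.mem_product.1 hp
      exact (h.copy p.1 hp'.1 p.2 hp'.2).1
    · intro p hp q hq e
      have hp' := Finset.mem_product.1 hp
      have hq' := Finset.mem_product.1 hq
      obtain ⟨h1, h2⟩ := hinj p.1 hp'.1 q.1 hq'.1 p.2 hp'.2 q.2 hq'.2 e
      exact Prod.ext h1 h2
  · rw [← Finset.card_product]
    refine Finset.card_le_card_of_injOn (fun p : P3 × P3 => p.1 + p.2) ?_ ?_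
    · intro p hp
      have hp' := Finset.mem_product.1 hp
      have h1 := (h.copy p.1 hp'.1 p.2 (L.lev.inbox _ hp'.2)).2
      have h2 := L.lev.piece.one_le p.2 hp'.2
      by_contra hc
      have h3 := L'.lev.piece.supp (p.1 + p.2) hc 0
      rw [h1] at h3
      linarith
    · intro p hp q hq e
      have hp' := Finset.mem_product.1 hp
      have hq' := Finset.mem_product.1 hq
      obtain ⟨h1, h2⟩ := hinj p.1 hp'.1 q.1 hq'.1 p.2 (L.lev.inbox _ hp'.2) q.2
        (L.lev.inbox _ hq'.2) e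
      exact Prod.ext h1 h2

end Pool.Agent.H73.DC
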