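import Pool.Agent.H73.DC.P3

/-! The random positions in the boxes. -/

open MeasureTheory Filter ProbabilityTheory
open scoped ENNReal Topology

namespace Pool.Agent.H73.DC

open Classical in
/-- One step of the coupling: the point `x` of the large box is replaced by the copy of `w`. -/
noncomputable def cStep (bx J : Finset P3) (w x : P3) : P3 :=
  if h : ∃ τ ∈ J, ∃ v ∈ bx, x = τ + v then Classical.choose h + w else x

theorem cStep_in {bx J : Finset P3}
    (hd : ∀ τ ∈ J, ∀ τ' ∈ J, ∀ v ∈ bx, ∀ v' ∈ bx, τ + v = τ' + v' → τ = τ') {τ v : P3}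
    (hτ : τ ∈ J) (hv : v ∈ bx) (w : P3) : cStep bx J w (τ + v) = τ + w := by
  have h : ∃ τ' ∈ J, ∃ v' ∈ bx, τ + v = τ' + v' := ⟨τ, hτ, v, hv, rfl⟩
  unfold cStep
  rw [dif_pos h]
  obtain ⟨h1, v', hv', h2⟩ := Classical.choose_spec h
  rw [← hd τ hτ _ h1 v hv v' hv' h2]

theorem cStep_out {bx J : Finset P3} {x : P3} (h : ¬ ∃ τ ∈ J, ∃ v ∈ bx, x = τ + v) (w : P3) :
    cStep bx J w x = x := by
  unfold cStep
  rw [dif_neg h]

theorem cStep_count {bx bx' J : Finset P3} (hin : ∀ τ ∈ J, ∀ v ∈ bx, τ + v ∈ bx')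
    (hd : ∀ τ ∈ J, ∀ τ' ∈ J, ∀ v ∈ bx, ∀ v' ∈ bx, τ + v = τ' + v' → τ = τ') {u : P3}
    (hu : u ∈ bx') :
    ((bx ×ˢ bx').filter (fun q => cStep bx J q.1 q.2 = u)).card = bx.card := by
  classical
  by_cases hc : ∃ τ ∈ J, ∃ v ∈ bx, u = τ + v
  · obtain ⟨τ, hτ, v0, hv0, rfl⟩ := hc
    have h1 : (bx ×ˢ bx').filter (fun q => cStep bx J q.1 q.2 = τ + v0) =
        bx.image (fun v' => (v0, τ + v')) := by
      ext q
      rw [Finset.mem_filter, Finset.mem_product, Finset.mem_image]
      constructor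
      · rintro ⟨⟨hw, hx⟩, h2⟩
        by_cases hx2 : ∃ τ' ∈ J, ∃ v' ∈ bx, q.2 = τ' + v'
        · obtain ⟨τ', hτ', v', hv', h3⟩ := hx2
          rw [h3, cStep_in hd hτ' hv'] at h2
          have h4 := hd τ' hτ' τ hτ q.1 hw v0 hv0 h2
          rw [h4] at h2 h3
          have h5 : q.1 = v0 := add_left_cancel h2
          refine ⟨v', hv', ?_⟩
          rw [← h5, ← h3]
        · rw [cStep_out hx2] at h2
          exact absurd ⟨τ, hτ, v0, hv0, h2⟩ hx2
      · rintro ⟨v', hv', rfl⟩
        exact ⟨⟨hv0, hin τ hτ v' hv'⟩, cStep_in hd hτ hv' v0⟩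
    rw [h1, Finset.card_image_of_injective]
    intro a b hab
    exact add_left_cancel (Prod.ext_iff.1 hab).2
  · have h1 : (bx ×ˢ bx').filter (fun q => cStep bx J q.1 q.2 = u) =
        bx.image (fun w => (w, u)) := by
      ext q
      rw [Finset.mem_filter, Finset.mem_product, Finset.mem_image]
      constructor
      · rintro ⟨⟨hw, hx⟩, h2⟩
        by_cases hx2 : ∃ τ' ∈ J, ∃ v' ∈ bx, q.2 = τ' + v'
        · obtain ⟨τ', hτ', v', hv', h3⟩ := hx2
          rw [h3, cStep_in hd hτ' hv'] at h2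
          exact absurd ⟨τ', hτ', q.1, hw, h2.symm⟩ hc
        · rw [cStep_out hx2] at h2
          exact ⟨q.1, hw, by rw [← h2]⟩
      · rintro ⟨w, hw, rfl⟩
        exact ⟨⟨hw, hu⟩, cStep_out hc w⟩
    rw [h1, Finset.card_image_of_injective]
    intro a b hab
    exact (Prod.ext_iff.1 hab).1

/-- The positions as functions of the sequence of the uniform points. -/
noncomputable def cPos (box J : ℕ → Finset P3) : ℕ → (ℕ → P3) → P3
  | 0, y => y 0
  | k + 1, y => cStep (box k) (J k) (cPos box J k y) (y (k + 1))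

theorem cPos_congr (box J : ℕ → Finset P3) (k : ℕ) (y y' : ℕ → P3) (h : ∀ i ≤ k, y i = y' i) :
    cPos box J k y = cPos box J k y' := by
  induction k with
  | zero => exact h 0 le_rfl
  | succ k ih =>
    show cStep (box k) (J k) (cPos box J k y) (y (k + 1)) =
      cStep (box k) (J k) (cPos box J k y') (y' (k + 1))
    rw [ih (fun i hi => h i (by omega)), h (k + 1) le_rfl]

/-- The position at step `k` as a function of finitely many of the uniform points. -/
noncomputable def cFin (box J : ℕ → Finset P3) (k : ℕ) (t : Finset.range (k + 1) → P3) : P3 :=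
  cPos box J k (fun i => if h : i ∈ Finset.range (k + 1) then t ⟨i, h⟩ else 0)

theorem cFin_eq (box J : ℕ → Finset P3) (k : ℕ) (y : ℕ → P3) :
    cFin box J k (fun i => y i) = cPos box J k y := by
  unfold cFin
  refine cPos_congr box J k _ _ fun i hi => ?_
  have h : i ∈ Finset.range (k + 1) := Finset.mem_range.2 (by omega)
  rw [dif_pos h]

/-- JOB DC-23 COUPLE. `Ω = ℕ → P3` with `P = Measure.infinitePi` of the uniform laws on the boxes
(`PMF.uniformOfFinset`; to have `U k ω ∈ box k` for all `ω` either take the subtypes `box k` as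
factors or correct the points outside). `U k` is a function of the coordinates `0, …, k`, hence
independent of the coordinate `k + 1` (`iIndepFun_infinitePi`, `iIndepFun.indepFun_finset`).
`P (U (k+1) = u) = 1 / |box (k+1)|` by induction: for `u = τ + v` it is
`P (ξ (k+1) ∈ τ + box k) * P (U k = v)`, for `u` outside it is `P (ξ (k+1) = u)`. Take independent uniform points `ξ k` of the boxes; `U 0 = ξ 0`; `U (k + 1)` is
`τ + U k` if `ξ (k + 1)` lies in `τ + box k` for some `τ ∈ J k`, and `ξ (k + 1)` otherwise. -/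
theorem exists_coupling (box J : ℕ → Finset P3) (hne : ∀ k, (box k).Nonempty)
    (hin : ∀ k, ∀ τ ∈ J k, ∀ v ∈ box k, τ + v ∈ box (k + 1))
    (hdisj : ∀ k, ∀ τ ∈ J k, ∀ τ' ∈ J k, ∀ v ∈ box k, ∀ v' ∈ box k, τ + v = τ' + v' → τ = τ') :
    ∃ (Ω : Type) (_ : MeasurableSpace Ω) (P : Measure Ω) (U : ℕ → Ω → P3),
      IsProbabilityMeasure P ∧ (∀ k, Measurable (U k)) ∧ (∀ k ω, U k ω ∈ box k) ∧
      (∀ k, ∀ u ∈ box k, P {ω | U k ω = u} = ((box k).card : ℝ≥0∞)⁻¹) ∧
      ∀ k, P {ω | ¬ ∃ τ ∈ J k, U (k + 1) ω = τ + U k ω} =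
        (((box (k + 1)).card - (J k).card * (box k).card : ℕ) : ℝ≥0∞) / (box (k + 1)).card := by
  classical
  have hN : ∀ k, Nonempty {u : P3 // u ∈ box k} := fun k => (hne k).to_subtype
  obtain ⟨Ω, mΩ, P, X, hXm, hXlaw, hXind, hP⟩ :=
    exists_hasLaw_indepFun (fun k => {u : P3 // u ∈ box k})
      (fun k => (PMF.uniformOfFintype {u : P3 // u ∈ box k}).toMeasure)
  set ξ : ℕ → Ω → P3 := fun k ω => (X k ω).1 with hξ
  have hξm : ∀ k, Measurable (ξ k) := fun k => measurable_subtype_coe.comp (hXm k)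
  have hξb : ∀ k ω, ξ k ω ∈ box k := fun k ω => (X k ω).2
  have hξind : iIndepFun ξ P := hXind.comp (fun k => (Subtype.val : {u : P3 // u ∈ box k} → P3))
    (fun k => measurable_subtype_coe)
  have hξP : ∀ k, ∀ u ∈ box k, P {ω | ξ k ω = u} = ((box k).card : ℝ≥0∞)⁻¹ := by
    intro k u hu
    have h1 : {ω | ξ k ω = u} = (X k) ⁻¹' {(⟨u, hu⟩ : {u : P3 // u ∈ box k})} := by
      ext ω
      simp only [hξ, Set.mem_setOf_eq, Set.mem_preimage, Set.mem_singleton_iff, Subtype.ext_iff]
    rw [h1, ← Measure.map_apply (hXm k) (measurableSet_singleton _), (hXlaw k).map_eq,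
      PMF.toMeasure_apply_singleton _ _ (measurableSet_singleton _), PMF.uniformOfFintype_apply]
    simp
  have hcard : ∀ k, ((box k).card : ℝ≥0∞) ≠ 0 := by
    intro k
    have := (hne k).card_pos
    exact_mod_cast this.ne'
  have hcardt : ∀ k, ((box k).card : ℝ≥0∞) ≠ ⊤ := fun k => ENNReal.natCast_ne_top _
  set U : ℕ → Ω → P3 := fun k ω => cPos box J k (fun i => ξ i ω) with hU
  have hUs : ∀ k ω, U (k + 1) ω = cStep (box k) (J k) (U k ω) (ξ (k + 1) ω) := fun k ω => rfl
  have hUf : ∀ k, U k = (cFin box J k) ∘ (fun ω (i : Finset.range (k + 1)) => ξ i ω) := by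
    intro k
    funext ω
    exact (cFin_eq box J k (fun i => ξ i ω)).symm
  have hUm : ∀ k, Measurable (U k) := by
    intro k
    rw [hUf k]
    exact (Measurable.of_discrete).comp (measurable_pi_lambda _ fun i => hξm i)
  have hUb : ∀ k ω, U k ω ∈ box k := by
    intro k ω
    induction k with
    | zero => exact hξb 0 ω
    | succ k ih =>
      rw [hUs]
      by_cases hx : ∃ τ ∈ J k, ∃ v ∈ box k, ξ (k + 1) ω = τ + v
      · obtain ⟨τ, hτ, v, hv, h1⟩ := hx
        rw [h1, cStep_in (hdisj k) hτ hv]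
        exact hin k τ hτ _ ih
      · rw [cStep_out hx]
        exact hξb (k + 1) ω
  -- independence
  have hind : ∀ k, IndepFun (U k) (ξ (k + 1)) P := by
    intro k
    have h1 := hξind.indepFun_finset (Finset.range (k + 1)) {k + 1} (by
      rw [Finset.disjoint_singleton_right, Finset.mem_range]; omega) hξm
    have h2 := h1.comp (φ := cFin box J k)
      (ψ := fun t : (({k + 1} : Finset ℕ) → P3) => t ⟨k + 1, Finset.mem_singleton_self _⟩)
      Measurable.of_discrete Measurable.of_discrete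
    rw [hUf k]
    exact h2
  have hUunif : ∀ k, ∀ u ∈ box k, P {ω | U k ω = u} = ((box k).card : ℝ≥0∞)⁻¹ := by
    intro k
    induction k with
    | zero => exact hξP 0
    | succ k ih =>
      intro u hu
      set F := (box k ×ˢ box (k + 1)).filter (fun q => cStep (box k) (J k) q.1 q.2 = u) with hF
      have hset : {ω | U (k + 1) ω = u} =
          ⋃ q ∈ F, ((U k) ⁻¹' {q.1} ∩ (ξ (k + 1)) ⁻¹' {q.2}) := by
        ext ω
        simp only [Set.mem_setOf_eq, Set.mem_iUnion, Set.mem_inter_iff, Set.mem_preimage,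
          Set.mem_singleton_iff, exists_prop]
        constructor
        · intro h
          refine ⟨(U k ω, ξ (k + 1) ω), ?_, rfl, rfl⟩
          rw [hF, Finset.mem_filter, Finset.mem_product]
          exact ⟨⟨hUb k ω, hξb (k + 1) ω⟩, by rw [← hUs]; exact h⟩
        · rintro ⟨q, hq, h1, h2⟩
          rw [hF, Finset.mem_filter] at hq
          rw [hUs, h1, h2]
          exact hq.2
      rw [hset, measure_biUnion_finset]
      · have h3 : ∀ q ∈ F, P ((U k) ⁻¹' {q.1} ∩ (ξ (k + 1)) ⁻¹' {q.2}) =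
            ((box k).card : ℝ≥0∞)⁻¹ * ((box (k + 1)).card : ℝ≥0∞)⁻¹ := by
          intro q hq
          rw [hF, Finset.mem_filter, Finset.mem_product] at hq
          rw [(hind k).measure_inter_preimage_eq_mul _ _ (measurableSet_singleton _)
            (measurableSet_singleton _)]
          congr 1
          · exact ih q.1 hq.1.1
          · exact hξP (k + 1) q.2 hq.1.2
        rw [Finset.sum_congr rfl h3, Finset.sum_const, hF, cStep_count (hin k) (hdisj k) hu,
          nsmul_eq_mul, ← mul_assoc, ENNReal.mul_inv_cancel (hcard k) (hcardt k), one_mul]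
      · intro a _ b _ hab
        rw [Function.onFun, Set.disjoint_left]
        rintro ω ⟨h1, h2⟩ ⟨h3, h4⟩
        apply hab
        rw [Set.mem_preimage, Set.mem_singleton_iff] at h1 h2 h3 h4
        exact Prod.ext (h1.symm.trans h3) (h2.symm.trans h4)
      · intro q _
        exact (hUm k (measurableSet_singleton _)).inter (hξm (k + 1) (measurableSet_singleton _))
  refine ⟨Ω, mΩ, P, U, hP, hUm, hUb, hUunif, fun k => ?_⟩
  -- the last statement
  set Tr : Finset P3 := (J k ×ˢ box k).image (fun q => q.1 + q.2) with hTr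
  have hTrsub : Tr ⊆ box (k + 1) := by
    intro x hx
    obtain ⟨q, hq, rfl⟩ := Finset.mem_image.1 hx
    rw [Finset.mem_product] at hq
    exact hin k q.1 hq.1 q.2 hq.2
  have hTrcard : Tr.card = (J k).card * (box k).card := by
    rw [hTr, Finset.card_image_of_injOn, Finset.card_product]
    intro a ha b hb hab
    rw [Finset.mem_coe, Finset.mem_product] at ha hb
    have h1 := hdisj k a.1 ha.1 b.1 hb.1 a.2 ha.2 b.2 hb.2 hab
    have h2 : a.2 = b.2 := by
      have h3 : a.1 + a.2 = b.1 + b.2 := hab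
      rw [h1] at h3
      exact add_left_cancel h3
    exact Prod.ext h1 h2
  have hset : {ω | ¬ ∃ τ ∈ J k, U (k + 1) ω = τ + U k ω} =
      ⋃ x ∈ box (k + 1) \ Tr, {ω | ξ (k + 1) ω = x} := by
    ext ω
    simp only [Set.mem_setOf_eq, Set.mem_iUnion, exists_prop, Finset.mem_sdiff]
    constructor
    · intro h
      refine ⟨ξ (k + 1) ω, ⟨hξb (k + 1) ω, fun hx => h ?_⟩, rfl⟩
      obtain ⟨q, hq, h1⟩ := Finset.mem_image.1 hx
      rw [Finset.mem_product] at hq
      refine ⟨q.1, hq.1, ?_⟩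
      rw [hUs, ← h1, cStep_in (hdisj k) hq.1 hq.2]
    · rintro ⟨x, ⟨hx1, hx2⟩, h1⟩ ⟨τ, hτ, h2⟩
      have h3 : ¬ ∃ τ ∈ J k, ∃ v ∈ box k, ξ (k + 1) ω = τ + v := by
        rintro ⟨τ', hτ', v', hv', h4⟩
        apply hx2
        rw [← h1, h4]
        exact Finset.mem_image.2 ⟨(τ', v'), Finset.mem_product.2 ⟨hτ', hv'⟩, rfl⟩
      apply h3
      refine ⟨τ, hτ, U k ω, hUb k ω, ?_⟩
      rw [← h2, hUs, cStep_out h3]
  rw [hset, measure_biUnion_finset]
  · have h3 : ∀ x ∈ box (k + 1) \ Tr, P {ω | ξ (k + 1) ω = x} = ((box (k + 1)).card : ℝ≥0∞)⁻¹ :=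
      fun x hx => hξP (k + 1) x (Finset.mem_sdiff.1 hx).1
    rw [Finset.sum_congr rfl h3, Finset.sum_const, nsmul_eq_mul, ENNReal.div_eq_inv_mul, mul_comm,
      Finset.card_sdiff_of_subset hTrsub, hTrcard]
  · intro a _ b _ hab
    rw [Function.onFun, Set.disjoint_left]
    intro ω h1 h2
    exact hab (h1.symm.trans h2)
  · intro x _
    exact hξm (k + 1) (measurableSet_singleton x)

end Pool.Agent.H73.DC
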