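import Mathlib

/-! MP_37d2f2_pr: definitions of the distributed clustering process on the lattice. -/

open MeasureTheory Filter
open scoped ENNReal Topology

namespace Pool.Agent.H73.DC

/-- Sites of the lattice of dimension `d`. -/
abbrev Site (d : ℕ) := Fin d → ℤ

/-- Configurations of resources with values in `[0,∞]`. -/
abbrev Config (d : ℕ) := Site d → ℝ≥0∞

/-- The closed unit ball of the l1 norm around `x`. -/
noncomputable def nbhd {d : ℕ} (x : Site d) : Finset (Site d) :=
  (Fintype.piFinset fun i => Finset.Icc (x i - 1) (x i + 1)).filter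
    fun y => ∑ i, |x i - y i| ≤ 1

theorem mem_nbhd {d : ℕ} {x y : Site d} : y ∈ nbhd x ↔ ∑ i, |x i - y i| ≤ 1 := by
  unfold nbhd
  rw [Finset.mem_filter]
  constructor
  · exact fun h => h.2
  · intro h
    refine ⟨?_, h⟩
    rw [Fintype.mem_piFinset]
    intro i
    have h1 : |x i - y i| ≤ ∑ i, |x i - y i| :=
      Finset.single_le_sum (f := fun i => |x i - y i|) (fun _ _ => abs_nonneg _)
        (Finset.mem_univ i)
    have h2 := abs_le.1 (h1.trans h)
    rw [Finset.mem_Icc]
    constructor <;> omega

theorem self_mem_nbhd {d : ℕ} (x : Site d) : x ∈ nbhd x := by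
  rw [mem_nbhd]; simp

theorem nbhd_symm {d : ℕ} {x y : Site d} (h : y ∈ nbhd x) : x ∈ nbhd y := by
  rw [mem_nbhd] at *
  simpa [abs_sub_comm] using h

/-- The elements of the closed unit ball of `x` holding the most resource. -/
noncomputable def maxers {d : ℕ} (C : Config d) (x : Site d) : Finset (Site d) := by
  classical exact (nbhd x).filter fun y => ∀ z ∈ nbhd x, C z ≤ C y

theorem mem_maxers {d : ℕ} {C : Config d} {x y : Site d} :
    y ∈ maxers C x ↔ y ∈ nbhd x ∧ ∀ z ∈ nbhd x, C z ≤ C y := by
  classical
  unfold maxers
  rw [Finset.mem_filter]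

theorem maxers_nonempty {d : ℕ} (C : Config d) (x : Site d) : (maxers C x).Nonempty := by
  obtain ⟨y, hy, h⟩ := Finset.exists_max_image (nbhd x) C ⟨x, self_mem_nbhd x⟩
  exact ⟨y, mem_maxers.2 ⟨hy, h⟩⟩

/-- Index of a tie-breaking variable: the time, the site and the set of candidates. -/
abbrev TieIndex (d : ℕ) := ℕ × Site d × {A : Finset (Site d) // A.Nonempty}

/-- For every time, site and nonempty finite set of candidates, a chosen site. -/
abbrev Ties (d : ℕ) := TieIndex d → Site d

/-- The law of the tie-breaking variables: they are independent, and the variable of index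
`(n, x, A)` is uniformly distributed on `A`. -/
noncomputable def tieLaw (d : ℕ) : Measure (Ties d) :=
  Measure.infinitePi fun i : TieIndex d => (PMF.uniformOfFinset i.2.2.1 i.2.2.2).toMeasure

/-- Where the site `x` sends its resource at time `n`, in the configuration `C`. -/
noncomputable def send {d : ℕ} (C : Config d) (g : Ties d) (n : ℕ) (x : Site d) : Site d := by
  classical exact if C x = 0 then x else g (n, x, ⟨maxers C x, maxers_nonempty C x⟩)

/-- The configuration after `n` steps, from the initial configuration `c` and the tie-breaking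
variables `g`. -/
noncomputable def run {d : ℕ} (c : Config d) (g : Ties d) : ℕ → Config d
  | 0 => c
  | n + 1 => fun x => ∑' y, if send (run c g n) g n y = x then run c g n y else 0

/-- The tie-breaking variables respect the candidates (true almost surely under `tieLaw`). -/
def ValidTies {d : ℕ} (g : Ties d) : Prop := ∀ i : TieIndex d, g i ∈ i.2.2.1

end Pool.Agent.H73.DC
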