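import Pool.Agent.H73.DC.Count

/-! Densities of the levels. -/

namespace Pool.Agent.H73.DC

theorem Density_vol_pos (L : Lvl) : 0 < L.vol := by
  unfold Lvl.vol
  have h1 : (0 : ℝ) < L.X := by exact_mod_cast L.lev.hX
  have h2 : (0 : ℝ) < L.B := by exact_mod_cast L.lev.hB
  positivity

theorem Density_vol_eq (L : Lvl) : L.vol = ((boxF L.X L.B).card : ℝ) := by
  rw [card_boxF]
  unfold Lvl.vol
  push_cast
  ring

theorem Density_del (k : ℕ) : del k = (1 / 2 : ℝ) ^ k / 16 := by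
  unfold del
  rw [pow_add]
  norm_num
  ring

/-- JOB DC-22 DENSITY (whole file). By `Link.card_mul_le` (with `card_boxF`) `J * vol ≤ vol'`, so
`m'/vol' ≤ (1 + 4 δ) m/vol`. Show `m k ≤ C₀ (2 - 2^(-k)) vol k` by induction: `4 del k = 2^(-k-2)`. -/
theorem exists_density_bound {L : ℕ → Lvl} {J : ℕ → Finset P3}
    (h : ∀ k, Link (L k) (L (k + 1)) (J k) ∧ (2 ^ k ≤ (L k).X ∧ 2 ^ k ≤ (L k).B) ∧
      (L (k + 1)).vol ≤ (1 + del k) ^ 2 * ((J k).card * (L k).vol) ∧
      (L (k + 1)).m ≤ (1 + 4 * del k) * ((J k).card * (L k).m)) :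
    ∃ C : ℝ, 0 < C ∧ ∀ k, (L k).m ≤ C * (L k).vol := by
  have hv0 := Density_vol_pos (L 0)
  set C0 : ℝ := max 1 ((L 0).m / (L 0).vol) with hC0
  have hC1 : 1 ≤ C0 := le_max_left _ _
  have hC2 : (L 0).m ≤ C0 * (L 0).vol := by
    rw [← div_le_iff₀ hv0]
    exact le_max_right _ _
  have key : ∀ k, (L k).m ≤ C0 * (2 - (1 / 2) ^ k) * (L k).vol := by
    intro k
    induction k with
    | zero => norm_num; exact hC2
    | succ k ih =>
      obtain ⟨hl, _, _, hm⟩ := h k
      have h1 : ((J k).card : ℝ) * (L k).vol ≤ (L (k + 1)).vol := by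
        rw [Density_vol_eq, Density_vol_eq]
        exact_mod_cast hl.card_mul_le.1
      have hJ : (0 : ℝ) ≤ (J k).card := Nat.cast_nonneg _
      set ε : ℝ := (1 / 2) ^ k with hε
      have hε0 : 0 < ε := by positivity
      have hε1 : ε ≤ 1 := pow_le_one₀ (by norm_num) (by norm_num)
      have hd : del k = ε / 16 := Density_del k
      have hε2 : (1 / 2 : ℝ) ^ (k + 1) = ε / 2 := by rw [pow_succ]; ring
      rw [hd] at hm
      rw [hε2]
      have hvp := Density_vol_pos (L (k + 1))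
      calc (L (k + 1)).m ≤ (1 + 4 * (ε / 16)) * ((J k).card * (L k).m) := hm
        _ ≤ (1 + 4 * (ε / 16)) * ((J k).card * (C0 * (2 - ε) * (L k).vol)) := by gcongr
        _ = (1 + 4 * (ε / 16)) * (C0 * (2 - ε)) * ((J k).card * (L k).vol) := by ring
        _ ≤ (1 + 4 * (ε / 16)) * (C0 * (2 - ε)) * (L (k + 1)).vol := by
            have : 0 ≤ (1 + 4 * (ε / 16)) * (C0 * (2 - ε)) := by
              apply mul_nonneg (by positivity)
              apply mul_nonneg (by linarith) (by linarith)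
            exact mul_le_mul_of_nonneg_left h1 this
        _ ≤ C0 * (2 - ε / 2) * (L (k + 1)).vol := by
            have : (1 + 4 * (ε / 16)) * (C0 * (2 - ε)) ≤ C0 * (2 - ε / 2) := by
              have h3 : (1 + 4 * (ε / 16)) * (2 - ε) ≤ 2 - ε / 2 := by nlinarith
              have h4 := mul_le_mul_of_nonneg_left h3 (show 0 ≤ C0 by linarith)
              linarith
            exact mul_le_mul_of_nonneg_right this hvp.le
  refine ⟨2 * C0, by linarith, fun k => (key k).trans ?_⟩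
  have hvp := Density_vol_pos (L k)
  have hε0 : (0 : ℝ) < (1 / 2) ^ k := by positivity
  have : C0 * (2 - (1 / 2) ^ k) ≤ 2 * C0 := by nlinarith
  exact mul_le_mul_of_nonneg_right this hvp.le

/-- Here `S' ≥ J * S ≥ J * s * vol ≥ s * vol' / (1 + δ)^2 ≥ s * (1 - 2 δ) * vol'`; show
`S k ≥ s₀ (1 + 2^(-k)) / 2 * vol k` by induction: `2 del k = 2^(-k-3)`. -/
theorem exists_support_bound {L : ℕ → Lvl} {J : ℕ → Finset P3}
    (h : ∀ k, Link (L k) (L (k + 1)) (J k) ∧ (2 ^ k ≤ (L k).X ∧ 2 ^ k ≤ (L k).B) ∧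
      (L (k + 1)).vol ≤ (1 + del k) ^ 2 * ((J k).card * (L k).vol) ∧
      (L (k + 1)).m ≤ (1 + 4 * del k) * ((J k).card * (L k).m)) :
    ∃ s : ℝ, 0 < s ∧ ∀ k, s * (L k).vol ≤ (L k).S.card := by
  have hv0 := Density_vol_pos (L 0)
  have hS0 : (0 : ℝ) < (L 0).S.card := by
    have : 0 < (L 0).S.card := Finset.card_pos.2 ⟨_, (L 0).lev.piece.mem⟩
    exact_mod_cast this
  set s0 : ℝ := (L 0).S.card / (L 0).vol with hs0
  have hs1 : 0 < s0 := by positivity
  have key : ∀ k, s0 * ((1 + (1 / 2) ^ k) / 2) * (L k).vol ≤ (L k).S.card := by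
    intro k
    induction k with
    | zero =>
      norm_num
      rw [hs0, div_mul_cancel₀ _ hv0.ne']
    | succ k ih =>
      obtain ⟨hl, _, hv, _⟩ := h k
      have h1 : ((J k).card : ℝ) * (L k).S.card ≤ (L (k + 1)).S.card := by
        exact_mod_cast hl.card_mul_le.2
      have hJ : (0 : ℝ) ≤ (J k).card := Nat.cast_nonneg _
      set ε : ℝ := (1 / 2) ^ k with hε
      have hε0 : 0 < ε := by positivity
      have hε1 : ε ≤ 1 := pow_le_one₀ (by norm_num) (by norm_num)
      have hd : del k = ε / 16 := Density_del k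
      have hε2 : (1 / 2 : ℝ) ^ (k + 1) = ε / 2 := by rw [pow_succ]; ring
      rw [hd] at hv
      rw [hε2]
      have h2 : (1 + ε / 16) ^ 2 * (1 + ε / 2) ≤ 1 + ε := by
        have h5 : ε ^ 2 ≤ ε := by nlinarith
        have h6 : ε ^ 3 ≤ ε := by nlinarith
        nlinarith
      have hvk := Density_vol_pos (L k)
      have hJv : 0 ≤ (J k).card * (L k).vol := by positivity
      calc s0 * ((1 + ε / 2) / 2) * (L (k + 1)).vol
          ≤ s0 * ((1 + ε / 2) / 2) * ((1 + ε / 16) ^ 2 * ((J k).card * (L k).vol)) := by gcongr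
        _ = s0 / 2 * ((1 + ε / 16) ^ 2 * (1 + ε / 2)) * ((J k).card * (L k).vol) := by ring
        _ ≤ s0 / 2 * (1 + ε) * ((J k).card * (L k).vol) := by gcongr
        _ = (J k).card * (s0 * ((1 + ε) / 2) * (L k).vol) := by ring
        _ ≤ (J k).card * (L k).S.card := by gcongr
        _ ≤ (L (k + 1)).S.card := h1
  refine ⟨s0 / 2, by positivity, fun k => le_trans ?_ (key k)⟩
  have hvp := Density_vol_pos (L k)
  have hε0 : (0 : ℝ) < (1 / 2) ^ k := by positivity
  have : s0 / 2 ≤ s0 * ((1 + (1 / 2) ^ k) / 2) := by nlinarith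
  exact mul_le_mul_of_nonneg_right this hvp.le

end Pool.Agent.H73.DC
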