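import Pool.Agent.H73.DC.Flow

/-! Runs without ties are deterministic; the set of the configurations with such a run is
measurable. -/

open MeasureTheory Filter
open scoped ENNReal Topology

namespace Pool.Agent.H73.DC

open Classical in
/-- One step of the process when there are no ties. -/
noncomputable def det {d : ℕ} (C : Config d) : Config d :=
  fun x => ∑ y ∈ nbhd x, if loc C y x then C y else 0

theorem det_measurableSet_loc {d : ℕ} (u t : Site d) :
    MeasurableSet {C : Config d | loc C u t} := by
  have h : {C : Config d | loc C u t} =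
      ⋂ y ∈ (nbhd u : Set (Site d)), ⋂ (_ : y ≠ t), {C : Config d | C y < C t} := by
    ext C
    simp only [loc, Set.mem_setOf_eq, Set.mem_iInter, Finset.mem_coe]
  rw [h]
  refine MeasurableSet.biInter (Finset.countable_toSet _) fun y _ => ?_
  refine MeasurableSet.iInter fun _ => ?_
  exact measurableSet_lt (measurable_pi_apply y) (measurable_pi_apply t)

/-- JOB DC-2 DET (whole file). `loc C y x` is a finite intersection of sets `{C z < C x}`. -/
theorem measurable_det (d : ℕ) : Measurable (det (d := d)) := by
  classical
  refine measurable_pi_lambda _ fun x => ?_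
  have h : (fun C : Config d => det C x) =
      fun C => ∑ y ∈ nbhd x, if loc C y x then C y else 0 := by
    funext C
    unfold det
    refine Finset.sum_congr rfl fun y _ => ?_
    congr
  rw [h]
  refine Finset.measurable_sum _ fun y _ => ?_
  exact Measurable.ite (det_measurableSet_loc y x) (measurable_pi_apply y) measurable_const

/-- The configurations from which the process runs without ties and every site is eventually
empty. -/
def GoodSet (d : ℕ) : Set (Config d) :=
  {c | (∀ n u, det^[n] c u ≠ 0 → ∃ t ∈ nbhd u, loc (det^[n] c) u t) ∧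
    ∀ x, ∀ᶠ n in atTop, det^[n] c x = 0}

theorem det_measurable_iterate (d : ℕ) (n : ℕ) :
    Measurable (fun c : Config d => det^[n] c) :=
  (measurable_det d).iterate n

theorem det_measurableSet_zero (d : ℕ) (n : ℕ) (u : Site d) :
    MeasurableSet {c : Config d | det^[n] c u = 0} := by
  have h : Measurable (fun c : Config d => det^[n] c u) :=
    (measurable_pi_apply u).comp (det_measurable_iterate d n)
  exact h (measurableSet_singleton 0)

theorem measurableSet_goodSet (d : ℕ) : MeasurableSet (GoodSet d) := by
  have h : GoodSet d =
      (⋂ n : ℕ, ⋂ u : Site d, ({c : Config d | det^[n] c u = 0} ∪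
        ⋃ t ∈ (nbhd u : Set (Site d)), {c : Config d | loc (det^[n] c) u t})) ∩
      ⋂ x : Site d, ⋃ N : ℕ, ⋂ n : ℕ, ⋂ (_ : N ≤ n), {c : Config d | det^[n] c x = 0} := by
    ext c
    simp only [GoodSet, Set.mem_setOf_eq, Set.mem_inter_iff, Set.mem_iInter, Set.mem_union,
      Set.mem_iUnion, Finset.mem_coe, eventually_atTop, exists_prop, ge_iff_le, ne_eq]
    constructor
    · rintro ⟨h1, h2⟩
      exact ⟨fun n u => Classical.or_iff_not_imp_left.2 (h1 n u), h2⟩
    · rintro ⟨h1, h2⟩
      exact ⟨fun n u => Classical.or_iff_not_imp_left.1 (h1 n u), h2⟩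
  rw [h]
  refine MeasurableSet.inter ?_ ?_
  · refine MeasurableSet.iInter fun n => MeasurableSet.iInter fun u => ?_
    refine (det_measurableSet_zero d n u).union ?_
    refine MeasurableSet.biUnion (Finset.countable_toSet _) fun t _ => ?_
    exact (det_measurable_iterate d n) (det_measurableSet_loc u t)
  · refine MeasurableSet.iInter fun x => MeasurableSet.iUnion fun N => ?_
    refine MeasurableSet.iInter fun n => MeasurableSet.iInter fun _ => ?_
    exact det_measurableSet_zero d n x

theorem run_of_mem_goodSet {d : ℕ} {c : Config d} (hc : c ∈ GoodSet d) {g : Ties d}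
    (hg : ValidTies g) (x : Site d) : ∀ᶠ n in atTop, run c g n x = 0 := by
  have hW : IsFlow (fun n => det^[n] c) := by
    refine ⟨hc.1, ?_⟩
    intro n x
    show det^[n + 1] c x = _
    rw [Function.iterate_succ_apply']
    rfl
  filter_upwards [hc.2 x] with n hn
  have h := run_eq_of_isFlow hW hg n
  have h' : run c g n = det^[n] c := h
  rw [h', hn]

theorem mem_goodSet_of_isFlow {d : ℕ} {W : ℕ → Config d} (hW : IsFlow W)
    (h : ∀ x, ∀ᶠ n in atTop, W n x = 0) : W 0 ∈ GoodSet d := by
  have key : ∀ n, det^[n] (W 0) = W n := by
    intro n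
    induction n with
    | zero => rfl
    | succ n ih =>
      rw [Function.iterate_succ_apply', ih]
      funext x
      rw [hW.step n x]
      rfl
  refine ⟨?_, ?_⟩
  · intro n u hu
    rw [key n] at hu ⊢
    exact hW.target n u hu
  · intro x
    filter_upwards [h x] with n hn
    rw [key n, hn]

end Pool.Agent.H73.DC
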