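import Pool.Agent.H73.DC.Defs

/-! A flow without ties is the only run of the process. -/

open MeasureTheory Filter
open scoped ENNReal Topology

namespace Pool.Agent.H73.DC

open Classical in
/-- `t` is the strict maximizer of `C` on the neighbourhood of `u`. -/
def loc {d : ℕ} (C : Config d) (u t : Site d) : Prop := ∀ y ∈ nbhd u, y ≠ t → C y < C t

open Classical in
/-- A sequence of configurations which is a run of the process in which no tie occurs. -/
structure IsFlow {d : ℕ} (W : ℕ → Config d) : Prop where
  target : ∀ n u, W n u ≠ 0 → ∃ t ∈ nbhd u, loc (W n) u t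
  step : ∀ n x, W (n + 1) x = ∑ y ∈ nbhd x, if loc (W n) y x then W n y else 0

theorem flow_loc_unique {d : ℕ} {C : Config d} {y s t : Site d} (hs : s ∈ nbhd y)
    (ht : t ∈ nbhd y) (h1 : loc C y s) (h2 : loc C y t) : s = t := by
  by_contra h
  exact lt_asymm (h1 t ht (Ne.symm h)) (h2 s hs h)

theorem flow_send {d : ℕ} {C : Config d} {g : Ties d} (hg : ValidTies g) (n : ℕ) {y t : Site d}
    (h0 : C y ≠ 0) (ht : t ∈ nbhd y) (h : loc C y t) : send C g n y = t := by
  unfold send
  rw [if_neg h0]
  have h1 := hg (n, y, ⟨maxers C y, maxers_nonempty C y⟩)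
  have h2 := mem_maxers.1 h1
  by_contra h3
  exact absurd (h2.2 t ht) (not_le.2 (h _ h2.1 h3))

/-- JOB DC-1 FLOW. Induction on `n`. If `W n y ≠ 0` and `t` is its target then
`maxers (W n) y = {t}` (`d` may be `0`; `t` itself is in the neighbourhood), hence
`send (W n) g n y = t`; and `loc (W n) y x ↔ x = t` for `x ∈ nbhd y`, when `W n y ≠ 0`. In the `tsum`
only the `y ∈ nbhd x` contribute (`nbhd_symm`). -/
theorem run_eq_of_isFlow {d : ℕ} {W : ℕ → Config d} (hW : IsFlow W) {g : Ties d}
    (hg : ValidTies g) (n : ℕ) : run (W 0) g n = W n := by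
  induction n with
  | zero => rfl
  | succ n ih =>
    funext x
    show (∑' y, if send (run (W 0) g n) g n y = x then run (W 0) g n y else 0) = W (n + 1) x
    rw [ih, hW.step, tsum_eq_sum (s := nbhd x)]
    · refine Finset.sum_congr rfl fun y hy => ?_
      by_cases h0 : W n y = 0
      · simp [h0]
      · obtain ⟨t, ht, hl⟩ := hW.target n y h0
        rw [flow_send hg n h0 ht hl]
        by_cases h1 : t = x
        · subst h1
          rw [if_pos rfl, if_pos hl]
        · rw [if_neg h1, if_neg]
          intro h2
          exact h1 (flow_loc_unique ht (nbhd_symm hy) hl h2)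
    · intro y hy
      by_cases h0 : W n y = 0
      · simp [h0]
      · obtain ⟨t, ht, hl⟩ := hW.target n y h0
        rw [flow_send hg n h0 ht hl, if_neg]
        rintro rfl
        exact hy (nbhd_symm ht)

end Pool.Agent.H73.DC
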