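import Pool.Agent.H73.DC.Piece

/-! A new root above the roots of two pieces; images of pieces. -/

namespace Pool.Agent.H73.DC

variable {V : Type} [DecidableEq V] {adj : V → V → Prop}

theorem merge_sum {W : V → ℕ → ℝ} {S : Finset V} {r y : V} {par par' : V → V}
    (hr : r ∈ S) (hsupp : ∀ v, v ∉ S → ∀ n, W v n = 0)
    (hpar : ∀ v ∈ S, v ≠ r → par v ∈ S)
    (hflow : ∀ v ∈ S, ∀ n, W v (n + 1) = ∑ u ∈ S.erase r, if par u = v then W u n else 0)
    (hy : y ∉ S) (hr' : par' r = y) (hp' : ∀ u ∈ S, u ≠ r → par' u = par u)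
    {WW : V → ℕ → ℝ} (hWW : ∀ u ∈ S, ∀ n, WW u n = W u n) (v : V) (n : ℕ) :
    (∑ u ∈ S, if par' u = v then WW u n else 0) = if v = y then W r n else W v (n + 1) := by
  rw [← Finset.add_sum_erase S _ hr, hr', hWW r hr n]
  have h1 : (∑ u ∈ S.erase r, if par' u = v then WW u n else 0) =
      ∑ u ∈ S.erase r, if par u = v then W u n else 0 := by
    refine Finset.sum_congr rfl fun u hu => ?_
    rw [Finset.mem_erase] at hu
    rw [hp' u hu.2 hu.1, hWW u hu.2 n]
  rw [h1]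
  by_cases hv : v ∈ S
  · have h2 : v ≠ y := fun h => hy (h ▸ hv)
    rw [if_neg (Ne.symm h2), if_neg h2, zero_add, hflow v hv n]
  · have h2 : (∑ u ∈ S.erase r, if par u = v then W u n else 0) = 0 := by
      refine Finset.sum_eq_zero fun u hu => ?_
      rw [Finset.mem_erase] at hu
      rw [if_neg]
      intro h3
      exact hv (h3 ▸ hpar u hu.2 hu.1)
    rw [h2, add_zero, hsupp v hv]
    by_cases h3 : v = y
    · rw [if_pos h3.symm, if_pos h3]
    · rw [if_neg (Ne.symm h3), if_neg h3]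

/-- JOB DC-4 MERGE. New parent map: `y` for `r₁` and `r₂`, `par₁` on `S₁`, `par₂` on `S₂`.
On `S₁` the new `W` is `W₁` (since `W₂` vanishes there), and the same for `S₂`. -/
theorem IsPiece.merge (hsymm : ∀ u v, adj u v → adj v u) {W₁ W₂ : V → ℕ → ℝ} {S₁ S₂ : Finset V}
    {r₁ r₂ : V} {H₁ H₂ H : ℕ} (h₁ : IsPiece adj W₁ S₁ r₁ H₁) (h₂ : IsPiece adj W₂ S₂ r₂ H₂)
    (hH₁ : H₁ + 1 ≤ H) (hH₂ : H₂ + 1 ≤ H) (hdisj : Disjoint S₁ S₂)
    (hfar : ∀ u ∈ S₁, ∀ v ∈ S₂, ¬ adj u v) {y : V} (hy₁ : y ∉ S₁) (hy₂ : y ∉ S₂)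
    (hyr₁ : adj r₁ y) (hyr₂ : adj r₂ y) (hirr : ¬ adj y y)
    (honly₁ : ∀ v ∈ S₁, adj y v → v = r₁) (honly₂ : ∀ v ∈ S₂, adj y v → v = r₂)
    (β : ℕ → ℝ) (h0 : 1 ≤ β 0) (hβ : ∀ n, β (n + 1) = W₁ r₁ n + W₂ r₂ n)
    (hgood₁ : ∀ n, 0 < W₁ r₁ n → W₁ r₁ n < β n) (hgood₂ : ∀ n, 0 < W₂ r₂ n → W₂ r₂ n < β n) :
    IsPiece adj (Function.update (fun v n => W₁ v n + W₂ v n) y β) (insert y (S₁ ∪ S₂)) y H := by
  obtain ⟨par₁, ha₁, hb₁, hc₁, hd₁⟩ := h₁.tree
  obtain ⟨par₂, ha₂, hb₂, hc₂, hd₂⟩ := h₂.tree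
  have hn12 : ∀ v ∈ S₁, v ∉ S₂ := fun v h h' => Finset.disjoint_left.1 hdisj h h'
  have hn21 : ∀ v ∈ S₂, v ∉ S₁ := fun v h h' => Finset.disjoint_left.1 hdisj h' h
  have hne₁ : ∀ v ∈ S₁, v ≠ y := fun v h h' => hy₁ (h' ▸ h)
  have hne₂ : ∀ v ∈ S₂, v ≠ y := fun v h h' => hy₂ (h' ▸ h)
  set WW := Function.update (fun v n => W₁ v n + W₂ v n) y β with hWW
  have hWy : ∀ n, WW y n = β n := fun n => by rw [hWW, Function.update_self]
  have hWo : ∀ v, v ≠ y → ∀ n, WW v n = W₁ v n + W₂ v n := fun v h n => by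
    rw [hWW, Function.update_of_ne h]
  have hW1 : ∀ v ∈ S₁, ∀ n, WW v n = W₁ v n := fun v h n => by
    rw [hWo v (hne₁ v h), h₂.supp v (hn12 v h), add_zero]
  have hW2 : ∀ v ∈ S₂, ∀ n, WW v n = W₂ v n := fun v h n => by
    rw [hWo v (hne₂ v h), h₁.supp v (hn21 v h), zero_add]
  set par : V → V := fun v => if v = r₁ ∨ v = r₂ then y else if v ∈ S₁ then par₁ v else par₂ v
    with hpar
  have hp1r : par r₁ = y := by simp [hpar]
  have hp2r : par r₂ = y := by simp [hpar]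
  have hp1 : ∀ v ∈ S₁, v ≠ r₁ → par v = par₁ v := by
    intro v hv hne
    have h3 : v ≠ r₂ := fun h => hn12 v hv (h ▸ h₂.mem)
    simp [hpar, hne, h3, hv]
  have hp2 : ∀ v ∈ S₂, v ≠ r₂ → par v = par₂ v := by
    intro v hv hne
    have h3 : v ≠ r₁ := fun h => hn21 v hv (h ▸ h₁.mem)
    simp [hpar, hne, h3, hn21 v hv]
  have hmem : ∀ v, v ∈ insert y (S₁ ∪ S₂) ↔ v = y ∨ v ∈ S₁ ∨ v ∈ S₂ := by
    intro v
    rw [Finset.mem_insert, Finset.mem_union]
  refine ⟨?_, ?_, ?_, ?_, ?_, par, ?_, ?_, ?_, ?_⟩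
  · intro v n
    by_cases hv : v = y
    · subst hv
      rw [hWy]
      cases n with
      | zero => linarith
      | succ n => rw [hβ]; exact add_nonneg (h₁.nonneg _ _) (h₂.nonneg _ _)
    · rw [hWo v hv]
      exact add_nonneg (h₁.nonneg _ _) (h₂.nonneg _ _)
  · intro v hv n
    rw [hmem] at hv
    push Not at hv
    rw [hWo v hv.1, h₁.supp v hv.2.1, h₂.supp v hv.2.2, add_zero]
  · intro v hv
    rw [hmem] at hv
    rcases hv with rfl | hv | hv
    · rw [hWy]; exact h0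
    · rw [hW1 v hv]; exact h₁.one_le v hv
    · rw [hW2 v hv]; exact h₂.one_le v hv
  · intro v n hn
    by_cases hv : v = y
    · subst hv
      obtain ⟨m, rfl⟩ : ∃ m, n = m + 1 := ⟨n - 1, by omega⟩
      rw [hWy, hβ, h₁.vanish _ m (by omega), h₂.vanish _ m (by omega), add_zero]
    · rw [hWo v hv, h₁.vanish _ n (by omega), h₂.vanish _ n (by omega), add_zero]
  · exact Finset.mem_insert_self _ _
  · intro v hv hvy
    rw [hmem] at hv
    rcases hv with h | hv | hv
    · exact absurd h hvy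
    · by_cases hr : v = r₁
      · subst hr
        rw [hp1r]
        exact ⟨Finset.mem_insert_self _ _, hyr₁⟩
      · rw [hp1 v hv hr]
        have := ha₁ v hv hr
        exact ⟨(hmem _).2 (Or.inr (Or.inl this.1)), this.2⟩
    · by_cases hr : v = r₂
      · subst hr
        rw [hp2r]
        exact ⟨Finset.mem_insert_self _ _, hyr₂⟩
      · rw [hp2 v hv hr]
        have := ha₂ v hv hr
        exact ⟨(hmem _).2 (Or.inr (Or.inr this.1)), this.2⟩
  · intro u hu v hv huv
    rw [hmem] at hu hv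
    rcases hu with rfl | hu | hu
    · rcases hv with rfl | hv | hv
      · exact absurd huv hirr
      · have := honly₁ v hv huv
        subst this
        exact Or.inr ⟨hne₁ v hv, hp1r⟩
      · have := honly₂ v hv huv
        subst this
        exact Or.inr ⟨hne₂ v hv, hp2r⟩
    · rcases hv with rfl | hv | hv
      · have := honly₁ u hu (hsymm _ _ huv)
        subst this
        exact Or.inl ⟨hne₁ u hu, hp1r⟩
      · rcases hb₁ u hu v hv huv with ⟨h3, h4⟩ | ⟨h3, h4⟩
        · exact Or.inl ⟨hne₁ u hu, (hp1 u hu h3).trans h4⟩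
        · exact Or.inr ⟨hne₁ v hv, (hp1 v hv h3).trans h4⟩
      · exact absurd huv (hfar u hu v hv)
    · rcases hv with rfl | hv | hv
      · have := honly₂ u hu (hsymm _ _ huv)
        subst this
        exact Or.inl ⟨hne₂ u hu, hp2r⟩
      · exact absurd (hsymm _ _ huv) (hfar v hv u hu)
      · rcases hb₂ u hu v hv huv with ⟨h3, h4⟩ | ⟨h3, h4⟩
        · exact Or.inl ⟨hne₂ u hu, (hp2 u hu h3).trans h4⟩
        · exact Or.inr ⟨hne₂ v hv, (hp2 v hv h3).trans h4⟩
  · intro v hv hvy n hpos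
    rw [hmem] at hv
    rcases hv with h | hv | hv
    · exact absurd h hvy
    · rw [hW1 v hv] at hpos ⊢
      by_cases hr : v = r₁
      · subst hr
        rw [hp1r, hWy]
        exact hgood₁ n hpos
      · rw [hp1 v hv hr, hW1 _ (ha₁ v hv hr).1]
        exact hc₁ v hv hr n hpos
    · rw [hW2 v hv] at hpos ⊢
      by_cases hr : v = r₂
      · subst hr
        rw [hp2r, hWy]
        exact hgood₂ n hpos
      · rw [hp2 v hv hr, hW2 _ (ha₂ v hv hr).1]
        exact hc₂ v hv hr n hpos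
  · intro v hv n
    have hyu : y ∉ S₁ ∪ S₂ := by
      rw [Finset.mem_union]
      rintro (h | h)
      · exact hy₁ h
      · exact hy₂ h
    rw [Finset.erase_insert hyu, Finset.sum_union hdisj,
      merge_sum h₁.mem h₁.supp (fun v hv hr => (ha₁ v hv hr).1) hd₁ hy₁ hp1r hp1 hW1,
      merge_sum h₂.mem h₂.supp (fun v hv hr => (ha₂ v hv hr).1) hd₂ hy₂ hp2r hp2 hW2]
    by_cases hvy : v = y
    · subst hvy
      rw [if_pos rfl, if_pos rfl, hWy, hβ]
    · rw [if_neg hvy, if_neg hvy, hWo v hvy]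

/-- The image of a piece under an automorphism of the graph. -/
theorem IsPiece.map {W : V → ℕ → ℝ} {S : Finset V} {r : V} {H : ℕ}
    (hp : IsPiece adj W S r H) (e : V ≃ V) (he : ∀ u v, adj (e u) (e v) ↔ adj u v) :
    IsPiece adj (fun v => W (e.symm v)) (S.map e.toEmbedding) (e r) H := by
  obtain ⟨par, ha, hb, hc, hd⟩ := hp.tree
  have hmem : ∀ v, v ∈ S.map e.toEmbedding ↔ e.symm v ∈ S := by
    intro v
    rw [Finset.mem_map_equiv]
  refine ⟨fun v n => hp.nonneg _ n, ?_, ?_, fun v n hn => hp.vanish _ n hn, ?_,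
    fun v => e (par (e.symm v)), ?_, ?_, ?_, ?_⟩
  · intro v hv n
    rw [hmem] at hv
    exact hp.supp _ hv n
  · intro v hv
    rw [hmem] at hv
    exact hp.one_le _ hv
  · rw [hmem, e.symm_apply_apply]
    exact hp.mem
  · intro v hv hr
    rw [hmem] at hv
    have hr' : e.symm v ≠ r := fun h => hr (by rw [← h, e.apply_symm_apply])
    have h1 := ha _ hv hr'
    refine ⟨?_, ?_⟩
    · rw [hmem, e.symm_apply_apply]
      exact h1.1
    · have h2 := (he (e.symm v) (par (e.symm v))).2 h1.2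
      rwa [e.apply_symm_apply] at h2
  · intro u hu v hv huv
    rw [hmem] at hu hv
    have h1 : adj (e.symm u) (e.symm v) := by
      rw [← he, e.apply_symm_apply, e.apply_symm_apply]
      exact huv
    rcases hb _ hu _ hv h1 with ⟨h3, h4⟩ | ⟨h3, h4⟩
    · left
      refine ⟨fun h => h3 (by rw [h, e.symm_apply_apply]), ?_⟩
      show e (par (e.symm u)) = v
      rw [h4, e.apply_symm_apply]
    · right
      refine ⟨fun h => h3 (by rw [h, e.symm_apply_apply]), ?_⟩
      show e (par (e.symm v)) = u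
      rw [h4, e.apply_symm_apply]
  · intro v hv hr n hpos
    rw [hmem] at hv
    have hr' : e.symm v ≠ r := fun h => hr (by rw [← h, e.apply_symm_apply])
    show W (e.symm v) n < W (e.symm (e (par (e.symm v)))) n
    rw [e.symm_apply_apply]
    exact hc _ hv hr' n hpos
  · intro v hv n
    rw [hmem] at hv
    show W (e.symm v) (n + 1) = _
    have h1 : (S.map e.toEmbedding).erase (e r) = (S.erase r).map e.toEmbedding := by
      rw [Finset.map_erase]
      rfl
    rw [h1, Finset.sum_map, hd _ hv n]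
    refine Finset.sum_congr rfl fun u _ => ?_
    show _ = if e (par (e.symm (e u))) = v then W (e.symm (e u)) n else 0
    rw [e.symm_apply_apply]
    by_cases h2 : par u = e.symm v
    · rw [if_pos h2, if_pos]
      rw [h2, e.apply_symm_apply]
    · rw [if_neg h2, if_neg]
      intro h3
      exact h2 (by rw [← h3, e.symm_apply_apply])

end Pool.Agent.H73.DC
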