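import Pool.Agent.H73.DC.AddRoot
import Pool.Agent.H73.DC.Merge
import Pool.Agent.H73.DC.Alpha

/-! A trunk with identical side trees. -/

namespace Pool.Agent.H73.DC

variable {V : Type} [DecidableEq V] {adj : V → V → Prop}

/-- The vertex set of a trunk `x 0, …, x (N - 1)` with side trees `S 0, …, S (N - 1)`. -/
def trunkS (x : ℕ → V) (S : ℕ → Finset V) (N : ℕ) : Finset V :=
  (Finset.range N).biUnion fun j => insert (x j) (S j)

theorem trunk_mem {x : ℕ → V} {S : ℕ → Finset V} {N : ℕ} {v : V} :
    v ∈ trunkS x S N ↔ ∃ j, j < N ∧ (v = x j ∨ v ∈ S j) := by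
  unfold trunkS
  simp only [Finset.mem_biUnion, Finset.mem_range, Finset.mem_insert]

theorem trunk_one (x : ℕ → V) (S : ℕ → Finset V) : trunkS x S 1 = insert (x 0) (S 0) := by
  unfold trunkS
  rw [Finset.range_one, Finset.singleton_biUnion]

theorem trunk_succ (x : ℕ → V) (S : ℕ → Finset V) (N : ℕ) :
    trunkS x S (N + 1) = insert (x N) (trunkS x S N ∪ S N) := by
  unfold trunkS
  rw [Finset.range_add_one, Finset.biUnion_insert]
  ext v
  simp only [Finset.mem_union, Finset.mem_insert]
  tauto

theorem trunk_mono {W : V → ℕ → ℝ} {S : Finset V} {r : V} {H H' : ℕ} (h : IsPiece adj W S r H)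
    (hH : H ≤ H') : IsPiece adj W S r H' :=
  { nonneg := h.nonneg
    supp := h.supp
    one_le := h.one_le
    vanish := fun v n hn => h.vanish v n (hH.trans hn)
    mem := h.mem
    tree := h.tree }

/-- JOB DC-8 TRUNK. Induction on `N ≥ 1`: for `N = 1` use `IsPiece.addRoot` with the side tree `0`
and the new vertex `x 0` (then `IsPiece` with a larger `H` if needed); in the step use
`IsPiece.merge` with the piece built so far (root `x (N - 1)`, profile `alpha b u N`) and the side
tree `N` (root `r N`, profile `u`), the new vertex being `x N`, `β = alpha b u (N + 1)`. -/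
theorem IsPiece.trunk (hsymm : ∀ u v, adj u v → adj v u) (hirr : ∀ u, ¬ adj u u)
    {N : ℕ} (hN : 1 ≤ N) (x r : ℕ → V) (W : ℕ → V → ℕ → ℝ) (S : ℕ → Finset V) (u b : ℕ → ℝ)
    (Hu : ℕ) (hp : ∀ j, j < N → IsPiece adj (W j) (S j) (r j) Hu)
    (hu : ∀ j, j < N → W j (r j) = u)
    (hdisj : ∀ i j, i < N → j < N → i ≠ j → Disjoint (S i) (S j) ∧ ∀ p ∈ S i, ∀ q ∈ S j, ¬ adj p q)
    (hxS : ∀ i j, i < N → j < N → x i ∉ S j ∧ ∀ v ∈ S j, adj (x i) v → i = j ∧ v = r j)
    (hxr : ∀ j, j < N → adj (r j) (x j))
    (hxx : ∀ i j, i < j → j < N → x i ≠ x j ∧ (adj (x i) (x j) ↔ j = i + 1))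
    (hb : ∀ j, 1 ≤ j → 1 ≤ b j)
    (hα : ∀ j, 1 ≤ j → j < N → ∀ n, 0 < alpha b u j n → alpha b u j n < alpha b u (j + 1) n)
    (hside : ∀ j n, 0 < u n → u n < alpha b u (j + 1) n) :
    ∃ W' : V → ℕ → ℝ, IsPiece adj W' (trunkS x S N) (x (N - 1)) (N + Hu) ∧
      (∀ j, j < N → ∀ v ∈ S j, W' v = W j v) ∧ W' (x (N - 1)) = alpha b u N ∧
      ∑ v ∈ trunkS x S N, W' v 0 =
        ∑ j ∈ Finset.range N, (∑ v ∈ S j, W j v 0 + b (j + 1)) := by
  induction N, hN using Nat.le_induction with
  | base =>
    have h1 := (hp 0 (by omega)).addRoot hsymm (y := x 0) (hxS 0 0 (by omega) (by omega)).1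
      (hxr 0 (by omega)) (hirr _) (fun v hv hav => ((hxS 0 0 (by omega) (by omega)).2 v hv hav).2)
      (alpha b u 1) (hb 1 le_rfl)
      (fun n => by
        rw [hu 0 (by omega)]
        change (0 : ℝ) + u n = u n
        rw [zero_add])
      (fun n hn => by
        rw [hu 0 (by omega)] at hn ⊢
        exact hside 0 n hn)
    refine ⟨Function.update (W 0) (x 0) (alpha b u 1), ?_, ?_, ?_, ?_⟩
    · rw [trunk_one]
      exact trunk_mono h1 (by omega)
    · intro j hj v hv
      have hj0 : j = 0 := by omega
      subst hj0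
      have hne : v ≠ x 0 := by
        rintro rfl
        exact (hxS 0 0 (by omega) (by omega)).1 hv
      rw [Function.update_of_ne hne]
    · change Function.update (W 0) (x 0) (alpha b u 1) (x 0) = alpha b u 1
      rw [Function.update_self]
    · rw [trunk_one, Finset.sum_insert (hxS 0 0 (by omega) (by omega)).1, Function.update_self,
        Finset.sum_range_one]
      have h2 : ∑ v ∈ S 0, Function.update (W 0) (x 0) (alpha b u 1) v 0 = ∑ v ∈ S 0, W 0 v 0 := by
        refine Finset.sum_congr rfl fun v hv => ?_
        have hne : v ≠ x 0 := by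
          rintro rfl
          exact (hxS 0 0 (by omega) (by omega)).1 hv
        rw [Function.update_of_ne hne]
      rw [h2]
      change b 1 + _ = _ + b (0 + 1)
      ring
  | succ N hN ih =>
    obtain ⟨W', hW', hWS, hWr, hWsum⟩ := ih (fun j hj => hp j (by omega))
      (fun j hj => hu j (by omega)) (fun i j hi hj => hdisj i j (by omega) (by omega))
      (fun i j hi hj => hxS i j (by omega) (by omega)) (fun j hj => hxr j (by omega))
      (fun i j hij hj => hxx i j hij (by omega)) (fun j hj hj' => hα j hj (by omega))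
    have hNN : N < N + 1 := Nat.lt_succ_self N
    have hdis : Disjoint (trunkS x S N) (S N) := by
      rw [Finset.disjoint_left]
      intro v hv hvN
      obtain ⟨j, hj, rfl | hvj⟩ := trunk_mem.1 hv
      · exact (hxS j N (by omega) hNN).1 hvN
      · exact Finset.disjoint_left.1 (hdisj j N (by omega) hNN (by omega)).1 hvj hvN
    have hyt : x N ∉ trunkS x S N := by
      intro hv
      obtain ⟨j, hj, he | hvj⟩ := trunk_mem.1 hv
      · exact (hxx j N hj hNN).1 he.symm
      · exact (hxS N j hNN (by omega)).1 hvj
    have hyS : x N ∉ S N := (hxS N N hNN hNN).1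
    have hm := hW'.merge hsymm (hp N hNN) (H := N + 1 + Hu) (by omega) (by omega) hdis
      (by
        intro v hv w hw ha
        obtain ⟨j, hj, rfl | hvj⟩ := trunk_mem.1 hv
        · have := ((hxS j N (by omega) hNN).2 w hw ha).1
          omega
        · exact (hdisj j N (by omega) hNN (by omega)).2 v hvj w hw ha)
      (y := x N) hyt hyS
      ((hxx (N - 1) N (by omega) hNN).2.2 (by omega)) (hxr N hNN) (hirr _)
      (by
        intro v hv ha
        obtain ⟨j, hj, rfl | hvj⟩ := trunk_mem.1 hv
        · have h3 := (hxx j N hj hNN).2.1 (hsymm _ _ ha)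
          rw [show j = N - 1 by omega]
        · have := ((hxS N j hNN (by omega)).2 v hvj ha).1
          omega)
      (fun v hv ha => ((hxS N N hNN hNN).2 v hv ha).2)
      (alpha b u (N + 1)) (hb (N + 1) (by omega))
      (fun n => by
        rw [hWr, hu N hNN]
        rfl)
      (fun n hn => by
        rw [hWr] at hn ⊢
        exact hα N hN hNN n hn)
      (fun n hn => by
        rw [hu N hNN] at hn ⊢
        exact hside N n hn)
    have hval : ∀ j, j < N + 1 → ∀ v ∈ S j,
        Function.update (fun v n => W' v n + W N v n) (x N) (alpha b u (N + 1)) v = W j v := by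
      intro j hj v hv
      have hne : v ≠ x N := by
        rintro rfl
        exact (hxS N j hNN hj).1 hv
      rw [Function.update_of_ne hne]
      rcases Nat.lt_succ_iff_lt_or_eq.1 hj with hj' | rfl
      · have h1 : v ∉ S N := fun h => Finset.disjoint_left.1
          (hdisj j N hj hNN (by omega)).1 hv h
        funext n
        rw [(hp N hNN).supp v h1 n, add_zero, hWS j hj' v hv]
      · have h1 : v ∉ trunkS x S j := fun h => Finset.disjoint_left.1 hdis h hv
        funext n
        rw [hW'.supp v h1 n, zero_add]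
    refine ⟨Function.update (fun v n => W' v n + W N v n) (x N) (alpha b u (N + 1)), ?_, hval, ?_, ?_⟩
    · rw [trunk_succ]
      exact hm
    · change Function.update (fun v n => W' v n + W N v n) (x N) (alpha b u (N + 1)) (x N) = _
      rw [Function.update_self]
    · have hnot : x N ∉ trunkS x S N ∪ S N := by
        rw [Finset.mem_union]
        rintro (h | h)
        · exact hyt h
        · exact hyS h
      rw [trunk_succ, Finset.sum_insert hnot, Function.update_self, Finset.sum_union hdis,
        Finset.sum_range_succ, ← hWsum]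
      have h2 : ∑ v ∈ S N,
          Function.update (fun v n => W' v n + W N v n) (x N) (alpha b u (N + 1)) v 0 =
          ∑ v ∈ S N, W N v 0 := by
        refine Finset.sum_congr rfl fun v hv => ?_
        rw [hval N hNN v hv]
      have h3 : ∑ v ∈ trunkS x S N,
          Function.update (fun v n => W' v n + W N v n) (x N) (alpha b u (N + 1)) v 0 =
          ∑ v ∈ trunkS x S N, W' v 0 := by
        refine Finset.sum_congr rfl fun v hv => ?_
        have hne : v ≠ x N := by
          rintro rfl
          exact hyt hv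
        have h1 : v ∉ S N := fun h => Finset.disjoint_left.1 hdis hv h
        rw [Function.update_of_ne hne]
        change W' v 0 + W N v 0 = _
        rw [(hp N hNN).supp v h1 0, add_zero]
      rw [h2, h3]
      change b (N + 1) + _ = _
      ring

end Pool.Agent.H73.DC
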