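import Pool.Agent.H73.DC.GeoFar
import Pool.Agent.H73.DC.Stem
import Pool.Agent.H73.DC.Trunk
import Pool.Agent.H73.DC.Cells

/-! One step of the hierarchical construction: positions. -/

namespace Pool.Agent.H73.DC

/-- The box of a level. -/
noncomputable def boxF (X B : ℕ) : Finset P3 :=
  Finset.Ico (0 : ℤ) X ×ˢ Finset.Ico (0 : ℤ) B ×ˢ Finset.Ico (0 : ℤ) B

theorem mem_boxF {X B : ℕ} {v : P3} : v ∈ boxF X B ↔
    (0 ≤ v.1 ∧ v.1 < X) ∧ (0 ≤ v.2.1 ∧ v.2.1 < B) ∧ (0 ≤ v.2.2 ∧ v.2.2 < B) := by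
  unfold boxF
  simp only [Finset.mem_product, Finset.mem_Ico]

/-- The root of a level. -/
def rootP (X : ℕ) : P3 := ((X : ℤ) - 1, 0, 0)

/-- A tree of a level of the construction. -/
structure IsLev (X B H : ℕ) (W : P3 → ℕ → ℝ) (S : Finset P3) : Prop where
  hX : 1 ≤ X
  hB : 1 ≤ B
  hH : 1 ≤ H
  piece : IsPiece adj3 W S (rootP X) H
  inbox : ∀ v ∈ S, v ∈ boxF X B
  pos : ∀ n, n < H → 0 < W (rootP X) n
  dec : ∀ n, n < H → W (rootP X) (n + 1) < W (rootP X) n

/-- Length of the stems. -/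
def lam (B n : ℕ) : ℕ := 2 * n * (B + 3)

/-- The data of one step of the construction: trees of length `X` and width `B` are put in the
cells of an `n × n` board. -/
structure Frame (X B n : ℕ) where
  cy : ℕ → ℕ
  cz : ℕ → ℕ
  hB : 1 ≤ B
  fit : X + lam B n + 1 ≤ n * (n - 1)
  hlt : ∀ j, cy j < n ∧ cz j < n
  heven : ∀ j, Even j → cz j < cy j
  hodd : ∀ j, ¬ Even j → cy j < cz j
  hper : ∀ i j, i < j → cy i = cy j → cz i = cz j → i + n * (n - 1) ≤ j

namespace Frame

variable {X B n : ℕ} (F : Frame X B n)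

/-- First coordinate of the `j`-th vertex of the trunk. -/
def x (_ : Frame X B n) (j : ℕ) : ℤ := X + lam B n + j
/-- Lower corner of the cell. -/
def cyw (j : ℕ) : ℤ := (F.cy j : ℤ) * (B + 3)
/-- Lower corner of the cell. -/
def czw (j : ℕ) : ℤ := (F.cz j : ℤ) * (B + 3)
/-- Length of the last part of the stem. -/
def D (j : ℕ) : ℤ := lam B n - 3 - F.cyw j - F.czw j
/-- Translation of the body. -/
def tau (j : ℕ) : P3 := (F.x j - F.D j - ((X : ℤ) - 1), F.cyw j + 2, F.czw j + 2)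
/-- Parity. -/
def e (_ : Frame X B n) (j : ℕ) : Bool := decide (Even j)
/-- The stem, from the root of the body (`t = 0`) to the neighbour of the trunk (`t = lam`). -/
def g (j t : ℕ) : P3 := posS (F.e j) (F.x j) (F.cyw j) (F.czw j) ((lam B n : ℤ) + 1 - t)
/-- The vertex of the trunk. -/
def trunkPt (j : ℕ) : P3 := (F.x j, 0, 0)
/-- The vertex set of the body. -/
noncomputable def bodyS (S : Finset P3) (j : ℕ) : Finset P3 :=
  S.map (Equiv.addLeft (F.tau j)).toEmbedding
/-- The vertex set of the side tree. -/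
noncomputable def sideS (S : Finset P3) (j : ℕ) : Finset P3 :=
  F.bodyS S j ∪ (Finset.Icc 1 (lam B n)).image (F.g j)

theorem mem_bodyS {S : Finset P3} {j : ℕ} {v : P3} : v ∈ F.bodyS S j ↔ v - F.tau j ∈ S := by
  unfold bodyS
  rw [Finset.mem_map_equiv]
  simp [sub_eq_neg_add]

theorem _root_.Pool.Agent.H73.DC.frame_mul_le {B a b : ℕ} (h : a < b) :
    (a : ℤ) * (B + 3) + (B + 3) ≤ (b : ℤ) * (B + 3) := by
  have h1 : (a : ℤ) + 1 ≤ b := by exact_mod_cast h
  have h2 : (0 : ℤ) ≤ (B : ℤ) + 3 := by positivity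
  nlinarith [mul_le_mul_of_nonneg_right h1 h2]

theorem frame_sum (j : ℕ) : F.cyw j + F.czw j + 3 * ((B : ℤ) + 3) ≤ lam B n := by
  have h1 : F.cy j + F.cz j + 3 ≤ 2 * n := by
    have h2 := F.hlt j
    by_cases hj : Even j
    · have := F.heven j hj
      omega
    · have := F.hodd j hj
      omega
  have h3 : ((F.cy j : ℤ) + F.cz j + 3) ≤ 2 * n := by exact_mod_cast h1
  have h4 : (0 : ℤ) ≤ (B : ℤ) + 3 := by positivity
  have h5 := mul_le_mul_of_nonneg_right h3 h4
  unfold cyw czw lam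
  push_cast
  linarith

/-- JOB DC-12 FRAME (this file: all the sorries below). -/
theorem cyw_nonneg (j : ℕ) : 0 ≤ F.cyw j := by
  unfold cyw
  positivity

theorem czw_nonneg (j : ℕ) : 0 ≤ F.czw j := by
  unfold czw
  positivity

theorem D_pos (j : ℕ) : 1 ≤ F.D j := by
  have h := F.frame_sum j
  have hB : (1 : ℤ) ≤ B := by exact_mod_cast F.hB
  unfold D
  linarith

theorem D_le (j : ℕ) : F.D j ≤ lam B n := by
  have h1 := F.cyw_nonneg j
  have h2 := F.czw_nonneg j
  unfold D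
  linarith

theorem ord (j : ℕ) : if F.e j then F.czw j + (B + 3) ≤ F.cyw j
    else F.cyw j + (B + 3) ≤ F.czw j := by
  by_cases hj : Even j
  · have h1 : F.e j = true := by
      unfold e
      exact decide_eq_true hj
    rw [if_pos h1]
    have h2 := F.heven j hj
    unfold cyw czw
    exact frame_mul_le h2
  · have h1 : ¬ (F.e j = true) := by
      unfold e
      rw [decide_eq_true_iff]
      exact hj
    rw [if_neg h1]
    have h2 := F.hodd j hj
    unfold cyw czw
    exact frame_mul_le h2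

theorem cyw_cases (i j : ℕ) : F.cyw i = F.cyw j ∨ F.cyw i + (B + 3) ≤ F.cyw j ∨
    F.cyw j + (B + 3) ≤ F.cyw i := by
  unfold cyw
  rcases lt_trichotomy (F.cy i) (F.cy j) with h | h | h
  · exact Or.inr (Or.inl (frame_mul_le h))
  · exact Or.inl (by rw [h])
  · exact Or.inr (Or.inr (frame_mul_le h))

theorem czw_cases (i j : ℕ) : F.czw i = F.czw j ∨ F.czw i + (B + 3) ≤ F.czw j ∨
    F.czw j + (B + 3) ≤ F.czw i := by
  unfold czw
  rcases lt_trichotomy (F.cz i) (F.cz j) with h | h | h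
  · exact Or.inr (Or.inl (frame_mul_le h))
  · exact Or.inl (by rw [h])
  · exact Or.inr (Or.inr (frame_mul_le h))

theorem same_cell {i j : ℕ} (hij : i < j) (hy : F.cyw i = F.cyw j) (hz : F.czw i = F.czw j) :
    F.x i + (X + lam B n + 1) ≤ F.x j := by
  have h0 : ((B : ℤ) + 3) ≠ 0 := by positivity
  have h1 : F.cy i = F.cy j := by
    unfold cyw at hy
    exact_mod_cast mul_right_cancel₀ h0 hy
  have h2 : F.cz i = F.cz j := by
    unfold czw at hz
    exact_mod_cast mul_right_cancel₀ h0 hz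
  have h3 := F.hper i j hij h1 h2
  have h4 := F.fit
  have h5 : i + (X + lam B n + 1) ≤ j := by omega
  have h6 : ((i : ℤ) + (X + lam B n + 1)) ≤ j := by exact_mod_cast h5
  unfold x
  linarith

theorem body_box {S : Finset P3} (hS : ∀ v ∈ S, v ∈ boxF X B) {j : ℕ} {v : P3}
    (hv : v ∈ F.bodyS S j) :
    BoxPt (F.x j - F.D j - X + 1) (F.x j - F.D j) (F.cyw j) (F.czw j) B v := by
  rw [mem_bodyS] at hv
  have h := mem_boxF.1 (hS _ hv)
  unfold tau at h
  simp only [Prod.fst_sub, Prod.snd_sub] at h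
  unfold BoxPt
  omega

/-- All points of the box of the body. -/
theorem tau_box {v : P3} (hv : v ∈ boxF X B) (j : ℕ) :
    BoxPt (F.x j - F.D j - X + 1) (F.x j - F.D j) (F.cyw j) (F.czw j) B (F.tau j + v) := by
  have h := mem_boxF.1 hv
  unfold BoxPt tau
  simp only [Prod.fst_add, Prod.snd_add]
  omega

theorem g_mem {j t : ℕ} (ht : 1 ≤ t) (htL : t ≤ lam B n) :
    PathPt (F.e j) (F.x j) (F.cyw j) (F.czw j) (F.g j t) ∨
      BoxPt (F.x j - F.D j - X + 1) (F.x j) (F.cyw j) (F.czw j) B (F.g j t) := by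
  have hB : (1 : ℤ) ≤ B := by exact_mod_cast F.hB
  have h1 := F.cyw_nonneg j
  have h2 := F.czw_nonneg j
  have h3 := F.ord j
  have hord : if F.e j then F.czw j < F.cyw j else F.cyw j < F.czw j := by
    split_ifs with h4
    · rw [if_pos h4] at h3
      linarith
    · rw [if_neg h4] at h3
      linarith
  have ht' : (1 : ℤ) ≤ t := by exact_mod_cast ht
  have htL' : (t : ℤ) ≤ lam B n := by exact_mod_cast htL
  have hsD : (lam B n : ℤ) + 1 - t ≤ F.cyw j + F.czw j + 3 + F.D j := by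
    unfold D
    linarith
  rcases posS_mem (e := F.e j) (x := F.x j) (s := (lam B n : ℤ) + 1 - t) (D := F.D j)
    (by linarith) hsD h1 h2 hord hB with h4 | ⟨h4, -⟩
  · exact Or.inl h4
  · right
    unfold g
    unfold BoxPt at h4 ⊢
    refine ⟨?_, h4.2⟩
    have h5 := h4.1
    have h6 : (0 : ℤ) ≤ X := by positivity
    linarith

theorem side_mem {S : Finset P3} (hS : ∀ v ∈ S, v ∈ boxF X B) {j : ℕ} {v : P3}
    (hv : v ∈ F.sideS S j) : PathPt (F.e j) (F.x j) (F.cyw j) (F.czw j) v ∨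
      BoxPt (F.x j - F.D j - X + 1) (F.x j) (F.cyw j) (F.czw j) B v := by
  unfold sideS at hv
  rw [Finset.mem_union] at hv
  rcases hv with hv | hv
  · right
    have h1 := F.body_box hS hv
    have h2 := F.D_pos j
    unfold BoxPt at h1 ⊢
    refine ⟨h1.1, ?_, h1.2.2⟩
    linarith [h1.2.1]
  · rw [Finset.mem_image] at hv
    obtain ⟨t, ht, rfl⟩ := hv
    rw [Finset.mem_Icc] at ht
    exact F.g_mem ht.1 ht.2

end Frame

end Pool.Agent.H73.DC
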