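import Pool.Agent.H73.DC.Frame

/-! One step of the hierarchical construction: distances. -/

namespace Pool.Agent.H73.DC

namespace Frame

variable {X B n : ℕ} (F : Frame X B n)

theorem framefar_cell {i j : ℕ} (hij : i ≠ j) (hy : F.cyw i = F.cyw j) (hz : F.czw i = F.czw j) :
    F.x i + 2 ≤ F.x j - F.D j - X + 1 ∨ F.x j + 2 ≤ F.x i - F.D i - X + 1 := by
  have h1 := F.D_le i
  have h2 := F.D_le j
  rcases lt_or_gt_of_ne hij with h | h
  · have := F.same_cell h hy hz
    left
    omega
  · have := F.same_cell h hy.symm hz.symm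
    right
    omega

theorem framefar_x {i j : ℕ} : F.x i = F.x j ↔ i = j := by
  unfold x
  omega

/-- JOB DC-13 FRAMEFAR (whole file). Use `path_path`, `box_path`, `box_box` with `w = B + 3`, and
`ord`, `cyw_cases`, `czw_cases`, `same_cell`, `D_le`, `D_pos`. If `x i = x j + 1` or `x j = x i + 1`
then `i` and `j` have different parities. -/
theorem far {i j : ℕ} (hij : i ≠ j) {u v : P3}
    (hu : PathPt (F.e i) (F.x i) (F.cyw i) (F.czw i) u ∨
      BoxPt (F.x i - F.D i - X + 1) (F.x i) (F.cyw i) (F.czw i) B u)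
    (hv : PathPt (F.e j) (F.x j) (F.cyw j) (F.czw j) v ∨
      BoxPt (F.x j - F.D j - X + 1) (F.x j) (F.cyw j) (F.czw j) B v) : 1 < dst u v := by
  have hB := F.hB
  have hDi := F.D_pos i
  have hDj := F.D_pos j
  have hxne : F.x i ≠ F.x j := fun h => hij (F.framefar_x.1 h)
  rcases hu with hu | hu <;> rcases hv with hv | hv
  · refine path_path (w := (B : ℤ) + 3) (by omega) (F.cyw_nonneg i) (F.czw_nonneg i)
      (F.cyw_nonneg j) (F.czw_nonneg j) (F.ord i) (F.ord j) hxne ?_ hu hv
    intro h
    unfold e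
    have h1 : i = j + 1 ∨ j = i + 1 := by
      unfold x at h
      omega
    rcases h1 with h1 | h1
    · subst h1
      intro h2
      rw [decide_eq_decide, Nat.even_add_one] at h2
      tauto
    · subst h1
      intro h2
      rw [decide_eq_decide, Nat.even_add_one] at h2
      tauto
  · rw [dst_comm]
    refine box_path (w := (B : ℤ) + 3) rfl (by omega) (F.cyw_nonneg j) (F.czw_nonneg j)
      (F.cyw_nonneg i) (F.czw_nonneg i) (F.cyw_cases j i) (F.czw_cases j i) ?_ hv hu
    intro h1 h2
    have := F.framefar_cell (Ne.symm hij) h1 h2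
    omega
  · refine box_path (w := (B : ℤ) + 3) rfl (by omega) (F.cyw_nonneg i) (F.czw_nonneg i)
      (F.cyw_nonneg j) (F.czw_nonneg j) (F.cyw_cases i j) (F.czw_cases i j) ?_ hu hv
    intro h1 h2
    have := F.framefar_cell hij h1 h2
    omega
  · refine box_box (w := (B : ℤ) + 3) rfl (F.cyw_cases i j) (F.czw_cases i j) ?_ hu hv
    intro h1 h2
    exact F.framefar_cell hij h1 h2

theorem trunk_side {S : Finset P3} (hS : ∀ v ∈ S, v ∈ boxF X B) (i j : ℕ) :
    F.trunkPt i ∉ F.sideS S j ∧
      ∀ v ∈ F.sideS S j, adj3 (F.trunkPt i) v → i = j ∧ v = F.g j (lam B n) := by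
  have key : ∀ v ∈ F.sideS S j, F.trunkPt i ≠ v ∧
      (adj3 (F.trunkPt i) v → i = j ∧ v = F.g j (lam B n)) := by
    intro v hv
    rcases F.side_mem hS hv with h | h
    · have hord : if F.e j then F.czw j < F.cyw j else F.cyw j < F.czw j := by
        have := F.ord j
        split_ifs at this ⊢ <;> omega
      have h1 := trunk_path (x' := F.x i) (F.cyw_nonneg j) (F.czw_nonneg j) hord h
      refine ⟨h1.1, fun h2 => ?_⟩
      obtain ⟨h3, h4⟩ := h1.2 h2
      refine ⟨F.framefar_x.1 h3, ?_⟩
      unfold g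
      rw [h4]
      congr 1
      ring
    · have h1 := trunk_box (x' := F.x i) (F.cyw_nonneg j) (F.czw_nonneg j) h
      exact ⟨h1.1, fun h2 => absurd h2 h1.2⟩
  exact ⟨fun h => (key _ h).1 rfl, fun v hv => (key v hv).2⟩

/-- A point of the box of a body lies in the next tree only if it lies in this body. -/
theorem box_trunkS {S : Finset P3} (hS : ∀ v ∈ S, v ∈ boxF X B) {N j : ℕ} {v : P3}
    (hv : v ∈ boxF X B) (h : F.tau j + v ∈ trunkS F.trunkPt (F.sideS S) N) : v ∈ S := by
  have hbox := F.tau_box hv j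
  unfold trunkS at h
  obtain ⟨i, -, hi⟩ := Finset.mem_biUnion.1 h
  rcases Finset.mem_insert.1 hi with h1 | h1
  · exact absurd h1.symm (trunk_box (x' := F.x i) (F.cyw_nonneg j) (F.czw_nonneg j) hbox).1
  · by_cases hij : i = j
    · subst hij
      unfold sideS at h1
      rcases Finset.mem_union.1 h1 with h2 | h2
      · rw [F.mem_bodyS, add_sub_cancel_left] at h2
        exact h2
      · exfalso
        obtain ⟨t, ht, hte⟩ := Finset.mem_image.1 h2
        rw [Finset.mem_Icc] at ht
        have hD : F.cyw i + F.czw i + 3 + F.D i = lam B n := by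
          unfold D
          ring
        exact (posS_body (e := F.e i) (x := F.x i) (s := (lam B n : ℤ) + 1 - t) (by omega)
          (by omega) (F.cyw_nonneg i) (F.czw_nonneg i) (F.D_pos i) hbox).1 hte
    · exfalso
      have hDj := F.D_pos j
      have h2 : BoxPt (F.x j - F.D j - X + 1) (F.x j) (F.cyw j) (F.czw j) B (F.tau j + v) := by
        unfold BoxPt at hbox ⊢
        omega
      have h3 := F.far hij (F.side_mem hS h1) (Or.inr h2)
      rw [dst_self] at h3
      omega

end Frame

end Pool.Agent.H73.DC
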