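import Pool.Agent.H73.DC.P3

/-! Explicit positions of the stems, and the facts about adjacency. -/

namespace Pool.Agent.H73.DC

/-- Position of the `s`-th vertex of an unmirrored stem: from `(x,0,0)` along the second
coordinate up to `(x,L,0)`, along the third one up to `(x,L,K)`, one step to `(x,L+1,K)`, then
`(x,L+2,K)`, and from there in the direction of decreasing first coordinate. -/
def posE (x L K : ℤ) (s : ℤ) : P3 :=
  if s ≤ L then (x, s, 0)
  else if s ≤ L + K then (x, L, s - L)
  else if s ≤ L + K + 1 then (x, L + 1, K)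
  else (x - (s - (L + K + 2)), L + 2, K)

/-- Exchange of the last two coordinates. -/
def swapP (p : P3) : P3 := (p.1, p.2.2, p.2.1)

/-- Position of the `s`-th vertex of the stem leading to the cell whose lower corner is
`(cy, cz)`, mirrored unless `e`. -/
def posS (e : Bool) (x cy cz : ℤ) (s : ℤ) : P3 :=
  if e then posE x cy (cz + 2) s else swapP (posE x cz (cy + 2) s)

theorem adj3_swap {u v : P3} : adj3 (swapP u) (swapP v) ↔ adj3 u v := by
  unfold adj3 swapP dst; constructor <;> intro h <;> simp only at * <;> omega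

/-- JOB DC-10 GEO (whole file; unfold everything, split the ifs, omega). -/
theorem posE_adj {x L K s : ℤ} (hL : 0 ≤ L) (hK : 2 ≤ K) (hs : 0 ≤ s) :
    adj3 (posE x L K s) (posE x L K (s + 1)) := by
  unfold adj3 dst posE
  split_ifs <;> dsimp only <;> omega


theorem posE_ind {x L K s t : ℤ} (hL : 0 ≤ L) (hK : 2 ≤ K) (hs : 0 ≤ s) (hst : s < t) :
    posE x L K s ≠ posE x L K t ∧ (adj3 (posE x L K s) (posE x L K t) → t = s + 1) := by
  unfold adj3 dst posE
  constructor
  · intro h
    split_ifs at h <;> simp only [Prod.mk.injEq] at h <;> omega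
  · intro h
    split_ifs at h <;> dsimp only at h <;> omega

theorem posS_adj {e : Bool} {x cy cz s : ℤ} (hy : 0 ≤ cy) (hz : 0 ≤ cz) (hs : 0 ≤ s) :
    adj3 (posS e x cy cz s) (posS e x cy cz (s + 1)) := by
  cases e
  · unfold posS
    simp only [Bool.false_eq_true, if_false]
    rw [adj3_swap]
    exact posE_adj hz (by omega) hs
  · unfold posS
    simp only [if_true]
    exact posE_adj hy (by omega) hs

theorem swapP_inj {u v : P3} (h : swapP u = swapP v) : u = v := by
  unfold swapP at h
  simp only [Prod.mk.injEq] at h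
  ext
  · exact h.1
  · exact h.2.2
  · exact h.2.1

theorem posS_ind {e : Bool} {x cy cz s t : ℤ} (hy : 0 ≤ cy) (hz : 0 ≤ cz) (hs : 0 ≤ s)
    (hst : s < t) : posS e x cy cz s ≠ posS e x cy cz t ∧
      (adj3 (posS e x cy cz s) (posS e x cy cz t) → t = s + 1) := by
  cases e
  · unfold posS
    simp only [Bool.false_eq_true, if_false]
    rw [adj3_swap]
    have h := posE_ind (x := x) (L := cz) (K := cy + 2) hz (by omega) hs hst
    exact ⟨fun h' => h.1 (swapP_inj h'), h.2⟩
  · unfold posS
    simp only [if_true]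
    exact posE_ind hy (by omega) hs hst

/-- The points of the part of the stem inside the plane `x`, without the vertex on the trunk. -/
def PathPt (e : Bool) (x cy cz : ℤ) (v : P3) : Prop :=
  v.1 = x ∧ if e then
    (v.2.2 = 0 ∧ 1 ≤ v.2.1 ∧ v.2.1 ≤ cy) ∨ (v.2.1 = cy ∧ 0 ≤ v.2.2 ∧ v.2.2 ≤ cz + 2) ∨
      (v.2.1 = cy + 1 ∧ v.2.2 = cz + 2)
  else
    (v.2.1 = 0 ∧ 1 ≤ v.2.2 ∧ v.2.2 ≤ cz) ∨ (v.2.2 = cz ∧ 0 ≤ v.2.1 ∧ v.2.1 ≤ cy + 2) ∨
      (v.2.2 = cz + 1 ∧ v.2.1 = cy + 2)

/-- The points of a box of width `B` over the cell with lower corner `(cy, cz)`. -/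
def BoxPt (x₀ x₁ cy cz B : ℤ) (v : P3) : Prop :=
  x₀ ≤ v.1 ∧ v.1 ≤ x₁ ∧ cy + 2 ≤ v.2.1 ∧ v.2.1 < cy + 2 + B ∧ cz + 2 ≤ v.2.2 ∧ v.2.2 < cz + 2 + B

/-- The stem consists of its part in the plane and a part in the box. -/
theorem posS_mem {e : Bool} {x cy cz s D : ℤ} (hs : 1 ≤ s) (hsD : s ≤ cy + cz + 3 + D)
    (hy : 0 ≤ cy) (hz : 0 ≤ cz) (hord : if e then cz < cy else cy < cz) {B : ℤ} (hB : 1 ≤ B) :
    PathPt e x cy cz (posS e x cy cz s) ∨
      (BoxPt (x - (D - 1)) x cy cz B (posS e x cy cz s) ∧ cy + cz + 4 ≤ s) := by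
  cases e
  · simp only [Bool.false_eq_true, if_false] at hord
    unfold PathPt BoxPt posS swapP posE
    simp only [Bool.false_eq_true, if_false]
    split_ifs <;> dsimp only <;> omega
  · simp only [if_true] at hord
    unfold PathPt BoxPt posS posE
    simp only [if_true]
    split_ifs <;> dsimp only <;> omega

/-- The end of the stem: the root of the body. -/
theorem posS_end {e : Bool} {x cy cz D : ℤ} (hy : 0 ≤ cy) (hz : 0 ≤ cz) (hD : 0 ≤ D) :
    posS e x cy cz (cy + cz + 4 + D) = (x - D, cy + 2, cz + 2) := by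
  cases e
  · unfold posS swapP posE
    simp only [Bool.false_eq_true, if_false]
    split_ifs <;> simp only [Prod.mk.injEq, and_true] <;> omega
  · unfold posS posE
    simp only [if_true]
    split_ifs <;> simp only [Prod.mk.injEq, and_true] <;> omega

/-- The stem is far from the body, except at its end. -/
theorem posS_body {e : Bool} {x cy cz s D : ℤ} (hs : 1 ≤ s) (hsD : s ≤ cy + cz + 3 + D)
    (hy : 0 ≤ cy) (hz : 0 ≤ cz) (hD : 1 ≤ D) {X B : ℤ} {v : P3}
    (hv : BoxPt (x - D - X + 1) (x - D) cy cz B v) :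
    posS e x cy cz s ≠ v ∧ (adj3 (posS e x cy cz s) v →
      s = cy + cz + 3 + D ∧ v = (x - D, cy + 2, cz + 2)) := by
  obtain ⟨a, b, c⟩ := v
  unfold BoxPt at hv
  dsimp only at hv
  cases e
  · unfold posS swapP posE adj3 dst
    simp only [Bool.false_eq_true, if_false, Prod.mk.injEq]
    constructor
    · intro h
      split_ifs at h <;> simp only [Prod.mk.injEq] at h <;> omega
    · intro h
      split_ifs at h <;> dsimp only at h <;> omega
  · unfold posS posE adj3 dst
    simp only [if_true, Prod.mk.injEq]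
    constructor
    · intro h
      split_ifs at h <;> simp only [Prod.mk.injEq] at h <;> omega
    · intro h
      split_ifs at h <;> dsimp only at h <;> omega

/-- The trunk is far from the sides, except at the beginning of the stem. -/
theorem trunk_path {e : Bool} {x x' cy cz : ℤ} {v : P3} (hy : 0 ≤ cy) (hz : 0 ≤ cz)
    (hord : if e then cz < cy else cy < cz) (hv : PathPt e x cy cz v) :
    (x', (0 : ℤ), (0 : ℤ)) ≠ v ∧ (adj3 (x', 0, 0) v → x' = x ∧ v = posS e x cy cz 1) := by
  obtain ⟨a, b, c⟩ := v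
  unfold PathPt at hv
  dsimp only at hv
  cases e
  · simp only [Bool.false_eq_true, if_false] at hord hv
    unfold posS swapP posE adj3 dst
    simp only [Bool.false_eq_true, if_false, Prod.mk.injEq, ne_eq]
    constructor
    · omega
    · intro h
      split_ifs <;> simp only [Prod.mk.injEq] <;> omega
  · simp only [if_true] at hord hv
    unfold posS posE adj3 dst
    simp only [if_true, Prod.mk.injEq, ne_eq]
    constructor
    · omega
    · intro h
      split_ifs <;> simp only [Prod.mk.injEq] <;> omega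

theorem trunk_box {x' x₀ x₁ cy cz B : ℤ} {v : P3} (hy : 0 ≤ cy) (hz : 0 ≤ cz)
    (hv : BoxPt x₀ x₁ cy cz B v) : (x', (0 : ℤ), (0 : ℤ)) ≠ v ∧ ¬ adj3 (x', 0, 0) v := by
  obtain ⟨a, b, c⟩ := v
  unfold BoxPt at hv
  dsimp only at hv
  unfold adj3 dst
  simp only [Prod.mk.injEq, ne_eq]
  omega

end Pool.Agent.H73.DC
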