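import Pool.Agent.H73.DC.Geo

/-! Different side trees are far apart. -/

namespace Pool.Agent.H73.DC

/-- JOB DC-11 GEOFAR (whole file; all three are linear arithmetic: unfold, case split, omega). Different stems are far apart (parts in the planes). Here `e = decide (Even i)`
and the planes are at `x = X + i`. -/
theorem path_path {e e' : Bool} {x x' cy cz cy' cz' w : ℤ} {v v' : P3} (hw : 4 ≤ w)
    (hy : 0 ≤ cy) (hz : 0 ≤ cz) (hy' : 0 ≤ cy') (hz' : 0 ≤ cz')
    (hord : if e then cz + w ≤ cy else cy + w ≤ cz)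
    (hord' : if e' then cz' + w ≤ cy' else cy' + w ≤ cz')
    (hx : x ≠ x') (hpar : (x = x' + 1 ∨ x' = x + 1) → e ≠ e')
    (hv : PathPt e x cy cz v) (hv' : PathPt e' x' cy' cz' v') : 1 < dst v v' := by
  obtain ⟨a, b, c⟩ := v
  obtain ⟨a', b', c'⟩ := v'
  unfold PathPt at hv hv'
  unfold dst
  simp only at hv hv' ⊢
  obtain ⟨h1, h2⟩ := hv
  obtain ⟨h1', h2'⟩ := hv'
  cases e <;> cases e'
  · have : ¬ (x = x' + 1 ∨ x' = x + 1) := fun h => hpar h rfl
    omega
  · simp only [Bool.false_eq_true, if_false, if_true] at hord hord' h2 h2'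
    rcases h2 with h2 | h2 | h2 <;> rcases h2' with h2' | h2' | h2' <;> omega
  · simp only [Bool.false_eq_true, if_false, if_true] at hord hord' h2 h2'
    rcases h2 with h2 | h2 | h2 <;> rcases h2' with h2' | h2' | h2' <;> omega
  · have : ¬ (x = x' + 1 ∨ x' = x + 1) := fun h => hpar h rfl
    omega

/-- A box over a cell is far from the stems leading to the other cells. -/
theorem box_path {e : Bool} {x₀ x₁ x cy cz cy' cz' w B : ℤ} {v v' : P3} (hw : w = B + 3)
    (hB : 1 ≤ B) (hy : 0 ≤ cy) (hz : 0 ≤ cz) (hy' : 0 ≤ cy') (hz' : 0 ≤ cz')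
    (hcy : cy = cy' ∨ cy + w ≤ cy' ∨ cy' + w ≤ cy) (hcz : cz = cz' ∨ cz + w ≤ cz' ∨ cz' + w ≤ cz)
    (hcell : cy = cy' → cz = cz' → x < x₀ ∨ x₁ < x)
    (hv : BoxPt x₀ x₁ cy cz B v) (hv' : PathPt e x cy' cz' v') : 1 < dst v v' := by
  obtain ⟨a, b, c⟩ := v
  obtain ⟨a', b', c'⟩ := v'
  unfold PathPt at hv'
  unfold BoxPt at hv
  unfold dst
  simp only at hv hv' ⊢
  obtain ⟨h1', h2'⟩ := hv'
  cases e
  · simp only [Bool.false_eq_true, if_false] at h2'
    by_cases hc : cy = cy' ∧ cz = cz'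
    · have := hcell hc.1 hc.2
      rcases h2' with h2' | h2' | h2' <;> omega
    · rcases h2' with h2' | h2' | h2' <;> omega
  · simp only [if_true] at h2'
    by_cases hc : cy = cy' ∧ cz = cz'
    · have := hcell hc.1 hc.2
      rcases h2' with h2' | h2' | h2' <;> omega
    · rcases h2' with h2' | h2' | h2' <;> omega

/-- Boxes over different cells, or over the same cell with a gap, are far apart. -/
theorem box_box {x₀ x₁ x₀' x₁' cy cz cy' cz' w B : ℤ} {v v' : P3} (hw : w = B + 3)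
    (hcy : cy = cy' ∨ cy + w ≤ cy' ∨ cy' + w ≤ cy) (hcz : cz = cz' ∨ cz + w ≤ cz' ∨ cz' + w ≤ cz)
    (hcell : cy = cy' → cz = cz' → x₁ + 2 ≤ x₀' ∨ x₁' + 2 ≤ x₀)
    (hv : BoxPt x₀ x₁ cy cz B v) (hv' : BoxPt x₀' x₁' cy' cz' B v') : 1 < dst v v' := by
  obtain ⟨a, b, c⟩ := v
  obtain ⟨a', b', c'⟩ := v'
  unfold BoxPt at hv hv'
  unfold dst
  simp only at hv hv' ⊢
  by_cases hc : cy = cy' ∧ cz = cz'
  · have := hcell hc.1 hc.2
    omega
  · omega

end Pool.Agent.H73.DC
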