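import Pool.Agent.H73.DC.Setup
import Pool.Agent.H73.DC.Count

/-! The good event. -/

open MeasureTheory Filter ProbabilityTheory
open scoped ENNReal Topology

namespace Pool.Agent.H73.DC

namespace Setup

variable (T : Setup)

theorem good_step : ∀ᵐ ω ∂T.P, ∀ᶠ k in atTop, ∃ τ ∈ T.J k, T.U (k + 1) ω = τ + T.U k ω := by
  have hsum : Summable fun k : ℕ => 3 * del k := by
    unfold del
    have h1 : Summable fun k : ℕ => (3 * (1 / 2) ^ 4) * (1 / 2 : ℝ) ^ k :=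
      (summable_geometric_of_lt_one (by norm_num) (by norm_num)).mul_left _
    refine h1.congr fun k => ?_
    rw [pow_add]
    ring
  have h1 : ∑' k, T.P {ω | ¬ ∃ τ ∈ T.J k, T.U (k + 1) ω = τ + T.U k ω} ≠ ∞ := by
    refine ne_top_of_le_ne_top hsum.tsum_ofReal_ne_top ?_
    exact ENNReal.tsum_le_tsum fun k => T.step k
  filter_upwards [ae_eventually_notMem h1] with ω hω
  filter_upwards [hω] with k hk
  simpa using hk

theorem good_prob (k : ℕ) (v : P3) :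
    T.P {ω | T.U k ω + v ∉ T.box k} ≤ (dst v 0 : ℝ≥0∞) * (2⁻¹ : ℝ≥0∞) ^ k := by
  classical
  set F := (boxF (T.L k).X (T.L k).B).filter fun u => u + v ∉ boxF (T.L k).X (T.L k).B with hF
  have hsub : {ω | T.U k ω + v ∉ T.box k} ⊆ ⋃ u ∈ F, {ω | T.U k ω = u} := by
    intro ω hω
    simp only [Set.mem_iUnion]
    exact ⟨T.U k ω, Finset.mem_filter.2 ⟨T.mem k ω, hω⟩, rfl⟩
  have h1 : T.P {ω | T.U k ω + v ∉ T.box k} ≤
      (F.card : ℝ≥0∞) * ((boxF (T.L k).X (T.L k).B).card : ℝ≥0∞)⁻¹ := by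
    refine (measure_mono hsub).trans ((measure_biUnion_finset_le _ _).trans ?_)
    rw [Finset.sum_congr rfl (fun u hu => T.unif k u (Finset.mem_filter.1 hu).1),
      Finset.sum_const, nsmul_eq_mul]
  refine h1.trans ?_
  set N := (boxF (T.L k).X (T.L k).B).card with hN
  have hX := T.hX k
  have hB := T.hB k
  have h2 : F.card * 2 ^ k ≤ dst v 0 * N := card_boundary _ _ v (2 ^ k) hX hB
  have hNpos : 0 < N := by
    rw [hN, card_boxF]
    have : 0 < 2 ^ k := by positivity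
    have h3 : 0 < (T.L k).X := by omega
    have h4 : 0 < (T.L k).B := by omega
    positivity
  have hN0 : (N : ℝ≥0∞) ≠ 0 := by exact_mod_cast hNpos.ne'
  have hNt : (N : ℝ≥0∞) ≠ ∞ := ENNReal.natCast_ne_top N
  have h20 : (2 ^ k : ℝ≥0∞) ≠ 0 := by positivity
  have h2t : (2 ^ k : ℝ≥0∞) ≠ ∞ := ENNReal.pow_ne_top (by norm_num)
  have h3 : (F.card : ℝ≥0∞) * 2 ^ k ≤ (dst v 0 : ℝ≥0∞) * N := by exact_mod_cast h2
  calc (F.card : ℝ≥0∞) * (N : ℝ≥0∞)⁻¹ =
        ((F.card : ℝ≥0∞) * 2 ^ k) * ((2 ^ k)⁻¹ * (N : ℝ≥0∞)⁻¹) := by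
        rw [← mul_assoc, mul_assoc (F.card : ℝ≥0∞), ENNReal.mul_inv_cancel h20 h2t, mul_one]
    _ ≤ ((dst v 0 : ℝ≥0∞) * N) * ((2 ^ k)⁻¹ * (N : ℝ≥0∞)⁻¹) := by gcongr
    _ = (dst v 0 : ℝ≥0∞) * (2 ^ k)⁻¹ * ((N : ℝ≥0∞) * (N : ℝ≥0∞)⁻¹) := by ring
    _ = (dst v 0 : ℝ≥0∞) * (2⁻¹ : ℝ≥0∞) ^ k := by
        rw [ENNReal.mul_inv_cancel hN0 hNt, mul_one, ENNReal.inv_pow]

theorem good_box (v : P3) : ∀ᵐ ω ∂T.P, ∀ᶠ k in atTop, T.U k ω + v ∈ T.box k := by
  have h1 : ∑' k, T.P {ω | T.U k ω + v ∉ T.box k} ≠ ∞ := by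
    refine ne_top_of_le_ne_top ?_ (ENNReal.tsum_le_tsum fun k => T.good_prob k v)
    rw [ENNReal.tsum_mul_left, ENNReal.tsum_geometric, ENNReal.one_sub_inv_two, inv_inv]
    exact ENNReal.mul_ne_top (ENNReal.natCast_ne_top _) (by norm_num)
  filter_upwards [ae_eventually_notMem h1] with ω hω
  filter_upwards [hω] with k hk
  simpa using hk

/-- JOB DC-25 GOOD. Borel-Cantelli (`measure_limsup_eq_zero` / `ae_eventually_notMem`) for
`step`, and for the events `U k ω + v ∉ box k`, whose probability is at most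
`dst v 0 * 2^(-k)` by `unif` and `card_boundary`; countably many `v`. -/
theorem ae_good : ∀ᵐ ω ∂T.P, T.Good ω := by
  filter_upwards [T.good_step, ae_all_iff.2 T.good_box] with ω h1 h2 v
  filter_upwards [h1, h2 v] with k h3 h4
  exact ⟨h3, h4⟩

end Setup

end Pool.Agent.H73.DC
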