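import Pool.Agent.H73.DC.Piece

/-! Away from the root a piece follows the rule of the process. -/

namespace Pool.Agent.H73.DC

/-- JOB DC-5 PIECEOK. For `p ∉ S`: `W p n = 0` for all `n`, so `loc3 W n y p` is never true for a
neighbour `y` with `W y n ≠ 0` (it would give `W y n < W p n = 0` for the point `y` itself, or
`y = p`). For `p ∈ S`, `p ≠ r`: the target is `par p`. If `y` is a child of `p` with `0 < W y n`
then `loc3 W n y p`: the neighbours of `y` in `S` are `p` and children of `y`, which hold less than
`y`, which holds less than `p`; neighbours outside `S` hold `0`. Conversely if `loc3 W n y p` and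
`W y n ≠ 0` then `y ∈ S`, and `y = p` is impossible (`par p` holds more than `p`), so `y` is adjacent
to `p`: either `y ≠ r` and `par y = p`, or `par p = y`; in the last case `loc3` at the point `y`
itself gives `W y n < W p n` (`y ≠ p`), while `0 < W p n` gives `W p n < W (par p) n = W y n`. -/
theorem IsPiece.okat {W : P3 → ℕ → ℝ} {S : Finset P3} {r : P3} {H : ℕ}
    (hp : IsPiece adj3 W S r H) (p : P3) (hpr : p ≠ r) : OKat W p := by
  classical
  obtain ⟨par, h1, h2, h3, h4⟩ := hp.tree
  have hpar : ∀ v ∈ S, v ≠ r → par v ∈ nbhd3 v := by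
    intro v hv hvr
    have h := (h1 v hv hvr).2
    rw [mem_nbhd3]
    exact le_of_eq h
  have hpos : ∀ v n, W v n ≠ 0 → 0 < W v n := fun v n h => lt_of_le_of_ne (hp.nonneg v n) h.symm
  have hA : ∀ v ∈ S, v ≠ r → ∀ n, 0 < W v n → loc3 W n v (par v) := by
    intro v hv hvr n hn y hy hyp
    have h5 := h3 v hv hvr n hn
    by_cases hyv : y = v
    · rw [hyv]; exact h5
    by_cases hyS : y ∈ S
    · have hadj : adj3 v y := by
        rw [mem_nbhd3] at hy
        have h6 : dst v y ≠ 0 := fun h => hyv (dst_eq_zero.1 h).symm
        unfold adj3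
        omega
      rcases h2 v hv y hyS hadj with ⟨_, h7⟩ | ⟨h7, h8⟩
      · exact absurd h7.symm hyp
      · rcases (hp.nonneg y n).lt_or_eq with h9 | h9
        · have h10 := h3 y hyS h7 n h9
          rw [h8] at h10
          exact h10.trans h5
        · rw [← h9]
          exact hn.trans h5
    · rw [hp.supp y hyS n]
      exact hn.trans h5
  have hB : ∀ y n, y ∈ nbhd3 p → loc3 W n y p → W y n ≠ 0 → y ∈ S.erase r ∧ par y = p ∧ p ∈ S := by
    intro y n hy hl hn
    have hyS : y ∈ S := by
      by_contra h
      exact hn (hp.supp y h n)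
    have hyy : y ∈ nbhd3 y := by
      rw [mem_nbhd3, dst_self]
      omega
    have hpS : p ∈ S := by
      by_contra h
      have h5 : y ≠ p := by
        rintro rfl
        exact h hyS
      have h6 := hl y hyy h5
      rw [hp.supp p h n] at h6
      exact absurd (hp.nonneg y n) (not_le.2 h6)
    have hyp : y ≠ p := by
      rintro rfl
      have h5 := h3 y hyS hpr n (hpos y n hn)
      have h6 : par y ≠ y := by
        intro h
        rw [h] at h5
        exact lt_irrefl _ h5
      exact absurd (hl (par y) (hpar y hyS hpr) h6) (not_lt.2 h5.le)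
    have hadj : adj3 y p := by
      rw [mem_nbhd3] at hy
      have h6 : dst p y ≠ 0 := fun h => hyp (dst_eq_zero.1 h).symm
      apply adj3_symm
      unfold adj3
      omega
    rcases h2 y hyS p hpS hadj with ⟨h7, h8⟩ | ⟨_, h8⟩
    · exact ⟨Finset.mem_erase.2 ⟨h7, hyS⟩, h8, hpS⟩
    · have h9 := hl y hyy hyp
      have h10 := h3 p hpS hpr n ((hpos y n hn).trans h9)
      rw [h8] at h10
      exact absurd h10 (not_lt.2 h9.le)
  refine ⟨?_, ?_⟩
  · intro n hn
    have hpS : p ∈ S := by
      by_contra h
      exact hn (hp.supp p h n)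
    exact ⟨par p, hpar p hpS hpr, hA p hpS hpr n (hpos p n hn)⟩
  · intro n
    by_cases hpS : p ∈ S
    · rw [h4 p hpS n]
      refine Finset.sum_congr_of_eq_on_inter ?_ ?_ ?_
      · intro u hu hu2
        split_ifs with h5
        · exfalso
          apply hu2
          rw [Finset.mem_erase] at hu
          have h6 := (h1 u hu.2 hu.1).2
          rw [h5] at h6
          rw [mem_nbhd3]
          exact le_of_eq (adj3_symm h6)
        · rfl
      · intro y hy hy2
        split_ifs with h5
        · by_contra h6
          exact hy2 (hB y n hy h5 h6).1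
        · rfl
      · intro u hu hu2
        by_cases h5 : W u n = 0
        · rw [h5]
          simp
        · by_cases h6 : par u = p
          · have h7 : loc3 W n u p := by
              rw [Finset.mem_erase] at hu
              have := hA u hu.2 hu.1 n (hpos u n h5)
              rwa [h6] at this
            rw [if_pos h6, if_pos h7]
          · have h7 : ¬ loc3 W n u p := fun h => h6 (hB u n hu2 h h5).2.1
            rw [if_neg h6, if_neg h7]
    · rw [hp.supp p hpS]
      symm
      refine Finset.sum_eq_zero fun y hy => ?_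
      split_ifs with h5
      · by_contra h6
        exact hpS (hB y n hy h5 h6).2.2
      · rfl

/-- (second part of the job) The rule at a point only depends on the ball of radius two, and is translation
invariant. -/
theorem OKat.congr {W W' : P3 → ℕ → ℝ} {p e : P3} (h : OKat W (p + e))
    (hW : ∀ y, dst p y ≤ 2 → W' y = W (y + e)) : OKat W' p := by
  classical
  have hmem : ∀ u v : P3, v + e ∈ nbhd3 (u + e) ↔ v ∈ nbhd3 u := by
    intro u v
    rw [mem_nbhd3, mem_nbhd3, dst_add]
  have hp0 : W' p = W (p + e) := hW p (by rw [dst_self]; omega)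
  have hloc : ∀ n u t, dst p u ≤ 1 → dst p t ≤ 2 → (loc3 W' n u t ↔ loc3 W n (u + e) (t + e)) := by
    intro n u t hu ht
    have hz : ∀ z ∈ nbhd3 u, dst p z ≤ 2 := by
      intro z hz
      rw [mem_nbhd3] at hz
      unfold dst at *
      omega
    constructor
    · intro h y hy hyt
      have h5 : y = (y - e) + e := (sub_add_cancel y e).symm
      have h6 : y - e ∈ nbhd3 u := by
        rw [← hmem, ← h5]
        exact hy
      have h7 := h (y - e) h6 (by
        intro h8
        apply hyt
        rw [h5, h8])
      rw [hW _ (hz _ h6), hW _ ht, ← h5] at h7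
      exact h7
    · intro h y hy hyt
      have h7 := h (y + e) ((hmem u y).2 hy) (fun h8 => hyt (add_right_cancel h8))
      rw [hW _ (hz _ hy), hW _ ht]
      exact h7
  refine ⟨?_, ?_⟩
  · intro n hn
    rw [hp0] at hn
    obtain ⟨t, ht, hl⟩ := h.1 n hn
    have h5 : t = (t - e) + e := (sub_add_cancel t e).symm
    have h6 : t - e ∈ nbhd3 p := by
      rw [← hmem, ← h5]
      exact ht
    have h7 : dst p (t - e) ≤ 2 := by
      rw [mem_nbhd3] at h6
      omega
    refine ⟨t - e, h6, ?_⟩
    rw [hloc n p (t - e) (by rw [dst_self]; omega) h7, ← h5]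
    exact hl
  · intro n
    rw [hp0, h.2 n]
    symm
    refine Finset.sum_bij (fun y _ => y + e) ?_ ?_ ?_ ?_
    · intro y hy
      exact (hmem p y).2 hy
    · intro y _ z _ hyz
      exact add_right_cancel hyz
    · intro y hy
      refine ⟨y - e, ?_, sub_add_cancel y e⟩
      rw [← hmem, sub_add_cancel]
      exact hy
    · intro y hy
      have h5 : dst p y ≤ 1 := mem_nbhd3.1 hy
      have h6 := hloc n y p h5 (by rw [dst_self]; omega)
      rw [hW y (by omega)]
      by_cases h7 : loc3 W' n y p
      · rw [if_pos h7, if_pos (h6.1 h7)]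
      · rw [if_neg h7, if_neg (fun h8 => h7 (h6.2 h8))]

end Pool.Agent.H73.DC
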