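import Pool.Agent.H73.DC.Setup
import Pool.Agent.H73.DC.PieceOK

/-! The limit configuration. -/

open MeasureTheory Filter ProbabilityTheory
open scoped ENNReal Topology

namespace Pool.Agent.H73.DC

namespace Setup

variable (T : Setup)

theorem LimitOK_step {ω : T.Ω} (h : T.Good ω) (v : P3) :
    ∀ᶠ k in atTop, T.see (k + 1) ω v = T.see k ω v := by
  filter_upwards [h v] with k hk
  obtain ⟨⟨τ, hτ, hU⟩, hmem⟩ := hk
  have h1 := ((T.link k).copy τ hτ (T.U k ω + v) hmem).2
  funext n
  unfold see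
  rw [hU, add_assoc, h1]

theorem LimitOK_const {ω : T.Ω} (h : T.Good ω) (v : P3) :
    ∃ K : ℕ, ∀ k, K ≤ k → T.see k ω v = T.see K ω v := by
  obtain ⟨K, hK⟩ := eventually_atTop.1 (T.LimitOK_step h v)
  refine ⟨K, fun k hk => ?_⟩
  induction k, hk using Nat.le_induction with
  | base => rfl
  | succ k hk ih => rw [hK k hk, ih]

theorem LimitOK_ball (p : P3) {Q : P3 → ℕ → Prop} (hQ : ∀ y, ∀ᶠ k in atTop, Q y k) :
    ∀ᶠ k in atTop, ∀ y, dst p y ≤ 2 → Q y k := by
  have h1 : ∀ᶠ k in atTop, ∀ y ∈ (Finset.Icc (p.1 - 2) (p.1 + 2) ×ˢ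
      Finset.Icc (p.2.1 - 2) (p.2.1 + 2) ×ˢ Finset.Icc (p.2.2 - 2) (p.2.2 + 2) : Finset P3),
      Q y k := (Filter.eventually_all_finset _).2 fun y _ => hQ y
  filter_upwards [h1] with k hk y hy
  apply hk y
  unfold dst at hy
  simp only [Finset.mem_product, Finset.mem_Icc]
  omega

/-- JOB DC-26 LIMITOK. Eventually `see (k+1) ω v = see k ω v`, by `Link.copy`, since
`U (k+1) + v = τ + (U k + v)`. So `see k ω v` is eventually constant; let `W v` be the limit. For
large `k`, `see k ω y = W y` for the finitely many `y` with `dst p y ≤ 2`; `U k + p` is not the root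
because `U k + p + (1,0,0)` is in the box; use `IsPiece.okat` and `OKat.congr`. Everything vanishes
after the time `(L k).H`. On the good event the limit configuration starts a run without ties in which
everything escapes. -/
theorem exists_limit {ω : T.Ω} (h : T.Good ω) : ∃ W : P3 → ℕ → ℝ, (∀ p n, 0 ≤ W p n) ∧
    (∀ v, ∀ᶠ k in atTop, T.see k ω v = W v) ∧ (∀ p, T.cfg ω p = ENNReal.ofReal (W p 0)) ∧
    (∀ p, OKat W p) ∧ ∀ v, ∀ᶠ n in atTop, W v n = 0 := by
  choose K hK using T.LimitOK_const h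
  have hev : ∀ v, ∀ᶠ k in atTop, T.see k ω v = T.see (K v) ω v := fun v =>
    eventually_atTop.2 ⟨K v, fun k hk => hK v k hk⟩
  refine ⟨fun v => T.see (K v) ω v, ?_, hev, ?_, ?_, ?_⟩
  · intro p n
    exact (T.L (K p)).lev.piece.nonneg _ n
  · intro p
    unfold cfg
    apply Tendsto.liminf_eq
    apply tendsto_const_nhds.congr'
    filter_upwards [hev p] with k hk
    rw [hk]
  · intro p
    have h1 := LimitOK_ball p hev
    obtain ⟨k, hk, hk'⟩ := (h1.and (h (p + (1, 0, 0)))).exists
    have hmem : T.U k ω + (p + (1, 0, 0)) ∈ boxF (T.L k).X (T.L k).B := hk'.2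
    have hne : p + T.U k ω ≠ rootP (T.L k).X := by
      intro he
      rw [mem_boxF] at hmem
      have h2 : (p + T.U k ω).1 = ((T.L k).X : ℤ) - 1 := by
        rw [he]; rfl
      have h3 := hmem.1.2
      simp only [Prod.fst_add] at h2 h3
      omega
    have hok : OKat (T.L k).W (p + T.U k ω) := (T.L k).lev.piece.okat (p + T.U k ω) hne
    apply hok.congr
    intro y hy
    funext n
    have h4 := congrFun (hk y hy) n
    rw [← h4]
    unfold see
    rw [add_comm y]
  · intro v
    filter_upwards [eventually_ge_atTop (T.L (K v)).H] with n hn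
    exact (T.L (K v)).lev.piece.vanish _ n hn

end Setup

end Pool.Agent.H73.DC
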