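import Pool.Agent.H73.DC.Good
import Pool.Agent.H73.DC.LimitOK

/-! The mean of the limit configuration. -/

open MeasureTheory Filter ProbabilityTheory
open scoped ENNReal Topology

namespace Pool.Agent.H73.DC

namespace Setup

variable (T : Setup)

/-- the event that the position is `u` -/
theorem meas_eqU (k : ℕ) (u : P3) : MeasurableSet {ω | T.U k ω = u} :=
  T.meas k (measurableSet_singleton u)

/-- integral of a function of the position -/
theorem lintegral_pos_fun (k : ℕ) (g : P3 → ℝ≥0∞) :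
    ∫⁻ ω, g (T.U k ω) ∂T.P = ∑ u ∈ T.box k, g u * ((T.box k).card : ℝ≥0∞)⁻¹ := by
  classical
  have h1 : ∀ ω, g (T.U k ω) = ∑ u ∈ T.box k, ({ω' | T.U k ω' = u}.indicator (fun _ => g u) ω) := by
    intro ω
    have hm : T.U k ω ∈ T.box k := T.mem k ω
    rw [Finset.sum_eq_single (T.U k ω)]
    · rw [Set.indicator_of_mem]
      rfl
    · intro u _ hu
      rw [Set.indicator_of_notMem]
      exact fun h => hu h.symm
    · exact fun h => absurd hm h
  rw [lintegral_congr h1, lintegral_finsetSum _ (fun u _ => (measurable_const.indicator (T.meas_eqU k u)))]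
  refine Finset.sum_congr rfl fun u hu => ?_
  rw [lintegral_indicator_const (T.meas_eqU k u)]
  congr 1
  exact T.unif k u hu

theorem box_pos (k : ℕ) : 0 < ((T.L k).vol) := by
  unfold Lvl.vol
  have h1 := (T.L k).lev.hX
  have h2 := (T.L k).lev.hB
  have h3 : (0 : ℝ) < (T.L k).X := by exact_mod_cast h1
  have h4 : (0 : ℝ) < (T.L k).B := by exact_mod_cast h2
  positivity

theorem box_card (k : ℕ) : (((T.box k).card : ℕ) : ℝ) = (T.L k).vol := by
  unfold box Lvl.vol
  rw [card_boxF]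
  push_cast
  ring

theorem box_card_inv (k : ℕ) : ((T.box k).card : ℝ≥0∞)⁻¹ = ENNReal.ofReal ((T.L k).vol)⁻¹ := by
  rw [ENNReal.ofReal_inv_of_pos (T.box_pos k), ← T.box_card k, ENNReal.ofReal_natCast]

/-- JOB DC-28 INTEGRAL (whole file). Fatou (`lintegral_liminf_le`) and
`∫⁻ ω, ENNReal.ofReal (see k ω v 0) = (∑ u ∈ box, W (u + v) 0) / |box| ≤ m / vol ≤ C`. -/
theorem lintegral_cfg_le (v : P3) : ∫⁻ ω, T.cfg ω v ∂T.P ≤ ENNReal.ofReal T.C := by
  classical
  have h0 : ∀ k, ∫⁻ ω, ENNReal.ofReal (T.see k ω v 0) ∂T.P ≤ ENNReal.ofReal T.C := by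
    intro k
    have h1 := T.lintegral_pos_fun k (fun u => ENNReal.ofReal ((T.L k).W (u + v) 0))
    have h2 : ∫⁻ ω, ENNReal.ofReal (T.see k ω v 0) ∂T.P =
        ∫⁻ ω, ENNReal.ofReal ((T.L k).W (T.U k ω + v) 0) ∂T.P := rfl
    rw [h2, h1, ← Finset.sum_mul]
    have hnn := (T.L k).lev.piece.nonneg
    have h3 : ∑ u ∈ T.box k, ENNReal.ofReal ((T.L k).W (u + v) 0) ≤
        ∑ w ∈ (T.L k).S, ENNReal.ofReal ((T.L k).W w 0) := by
      have h4 : ∑ u ∈ T.box k, ENNReal.ofReal ((T.L k).W (u + v) 0) =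
          ∑ w ∈ (T.box k).map (addRightEmbedding v), ENNReal.ofReal ((T.L k).W w 0) := by
        rw [Finset.sum_map]
        rfl
      rw [h4]
      refine Finset.sum_le_sum_of_ne_zero fun w _ hw => ?_
      by_contra hcon
      apply hw
      rw [(T.L k).lev.piece.supp w hcon 0, ENNReal.ofReal_zero]
    have h5 : ∑ w ∈ (T.L k).S, ENNReal.ofReal ((T.L k).W w 0) = ENNReal.ofReal (T.L k).m := by
      unfold Lvl.m
      rw [ENNReal.ofReal_sum_of_nonneg (fun w _ => hnn w 0)]
    rw [h5] at h3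
    rw [T.box_card_inv k]
    refine (mul_le_mul_left h3 _).trans ?_
    have hm : 0 ≤ (T.L k).m := Finset.sum_nonneg fun w _ => hnn w 0
    rw [← ENNReal.ofReal_mul hm]
    apply ENNReal.ofReal_le_ofReal
    rw [← div_eq_mul_inv, div_le_iff₀ (T.box_pos k)]
    exact T.dens k
  have h1 : ∫⁻ ω, T.cfg ω v ∂T.P ≤ liminf (fun k => ∫⁻ ω, ENNReal.ofReal (T.see k ω v 0) ∂T.P) atTop :=
    lintegral_liminf_le (fun k => ENNReal.measurable_ofReal.comp (T.measurable_see k v 0))
  refine h1.trans ?_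
  refine (liminf_le_liminf (Eventually.of_forall h0)).trans ?_
  rw [liminf_const]

/-- `P (1 ≤ see k ω 0 0) ≥ |S k| / |box k| ≥ s` for all `k`, because `1 ≤ W v 0` for `v ∈ S k`; and on
`Good` the sequence `see k ω 0 0` is eventually constant with limit `cfg ω 0`, so
`P (1 ≤ cfg ω 0) ≥ s` (Fatou for the complements, or dominated convergence). -/
theorem lintegral_cfg_pos : 0 < ∫⁻ ω, T.cfg ω 0 ∂T.P := by
  classical
  -- the events
  set E : ℕ → Set T.Ω := fun k => {ω | T.U k ω ∈ (T.L k).S} with hE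
  have hEm : ∀ k, MeasurableSet (E k) := fun k => T.meas k (Set.Finite.measurableSet
    (Finset.finite_toSet (T.L k).S))
  have hEP : ∀ k, ENNReal.ofReal T.s ≤ T.P (E k) := by
    intro k
    have h1 := T.lintegral_pos_fun k (fun u => if u ∈ (T.L k).S then 1 else 0)
    have h2 : ∫⁻ ω, (if T.U k ω ∈ (T.L k).S then (1 : ℝ≥0∞) else 0) ∂T.P = T.P (E k) := by
      have h3 : (fun ω => if T.U k ω ∈ (T.L k).S then (1 : ℝ≥0∞) else 0) =
          (E k).indicator (fun _ => 1) := by
        funext ω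
        by_cases h : T.U k ω ∈ (T.L k).S
        · rw [if_pos h, Set.indicator_of_mem (show ω ∈ E k from h)]
        · rw [if_neg h, Set.indicator_of_notMem (show ω ∉ E k from h)]
      rw [h3, lintegral_indicator_const (hEm k), one_mul]
    rw [h2, ← Finset.sum_mul] at h1
    rw [h1]
    have h4 : ∑ u ∈ T.box k, (if u ∈ (T.L k).S then (1 : ℝ≥0∞) else 0) = ((T.L k).S.card : ℝ≥0∞) := by
      rw [Finset.sum_ite_mem, Finset.sum_const, nsmul_eq_mul, mul_one]
      congr 2
      exact Finset.inter_eq_right.2 fun w hw => (T.L k).lev.inbox w hw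
    rw [h4, T.box_card_inv k, ← ENNReal.ofReal_natCast, ← ENNReal.ofReal_mul (Nat.cast_nonneg _)]
    apply ENNReal.ofReal_le_ofReal
    rw [← div_eq_mul_inv, le_div_iff₀ (T.box_pos k)]
    exact T.supp k
  -- infinitely often
  set Bn : ℕ → Set T.Ω := fun n => ⋃ k ∈ Set.Ici n, E k with hBn
  have hBm : ∀ n, MeasurableSet (Bn n) := fun n => MeasurableSet.biUnion (Set.to_countable _)
    (fun k _ => hEm k)
  have hBanti : Antitone Bn := by
    intro a b hab
    exact Set.biUnion_subset_biUnion_left (Set.Ici_subset_Ici.2 hab)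
  have hBP : ∀ n, ENNReal.ofReal T.s ≤ T.P (Bn n) := fun n =>
    (hEP n).trans (measure_mono (Set.subset_biUnion_of_mem (Set.mem_Ici.2 (le_refl n))))
  have hI : ENNReal.ofReal T.s ≤ T.P (⋂ n, Bn n) := by
    rw [hBanti.measure_iInter (fun n => (hBm n).nullMeasurableSet) ⟨0, measure_ne_top _ _⟩]
    exact le_iInf hBP
  -- the set where the limit is at least one
  have hA : T.P (⋂ n, Bn n) ≤ T.P {ω | 1 ≤ T.cfg ω 0} := by
    refine measure_mono_ae ?_
    filter_upwards [T.ae_good] with ω hω hin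
    obtain ⟨W, -, h2, h3, -, -⟩ := T.exists_limit hω
    obtain ⟨n, hn⟩ := eventually_atTop.1 (h2 0)
    have h4 : ω ∈ Bn n := Set.mem_iInter.1 hin n
    obtain ⟨k, hk, hkE⟩ := Set.mem_iUnion₂.1 h4
    have h5 := hn k hk
    have h6 : (1 : ℝ) ≤ T.see k ω 0 0 := by
      unfold see
      rw [add_zero]
      exact (T.L k).lev.piece.one_le _ hkE
    have h7 : T.see k ω 0 0 = W 0 0 := congrFun h5 0
    show 1 ≤ T.cfg ω 0
    rw [h3 0, ← h7, ← ENNReal.ofReal_one]
    exact ENNReal.ofReal_le_ofReal h6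
  have hm : AEMeasurable (fun ω => T.cfg ω 0) T.P :=
    ((measurable_pi_apply (0 : P3)).comp T.measurable_cfg).aemeasurable
  have h8 := mul_meas_ge_le_lintegral₀ hm 1
  rw [one_mul] at h8
  refine lt_of_lt_of_le ?_ ((hI.trans hA).trans h8)
  exact ENNReal.ofReal_pos.2 T.hs

end Setup

end Pool.Agent.H73.DC
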