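import Pool.Agent.H73.DC.Next
import Pool.Agent.H73.DC.Base

/-! The sequence of levels. -/

namespace Pool.Agent.H73.DC

/-- JOB DC-20 LEVELS. Recursion with the invariant `(L k).Q (del k)`, `16 ≤ del (k + 1) * (L k).n`,
`2 ^ (k + 1) ≤ (L k).n`, `2 ^ k ≤ (L k).X`, `2 ^ k ≤ (L k).B`. -/
theorem exists_levels : ∃ (L : ℕ → Lvl) (J : ℕ → Finset P3), ∀ k, Link (L k) (L (k + 1)) (J k) ∧
    (2 ^ k ≤ (L k).X ∧ 2 ^ k ≤ (L k).B) ∧
    (L (k + 1)).vol ≤ (1 + del k) ^ 2 * ((J k).card * (L k).vol) ∧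
    (L (k + 1)).m ≤ (1 + 4 * del k) * ((J k).card * (L k).m) := by
  have hdpos : ∀ k, 0 < del k := by
    intro k
    unfold del
    positivity
  have hd1 : ∀ k, del k ≤ 1 := by
    intro k
    unfold del
    exact pow_le_one₀ (by norm_num) (by norm_num)
  let P : ℕ → Lvl → Prop := fun k L =>
    L.Q (del k) ∧ 2 ^ (k + 9) ≤ L.n ∧ 2 ^ k ≤ L.X ∧ 2 ^ k ≤ L.B
  let R : ℕ → Lvl → Lvl → Finset P3 → Prop := fun k L L' J =>
    Link L L' J ∧ L'.vol ≤ (1 + del k) ^ 2 * (J.card * L.vol) ∧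
      L'.m ≤ (1 + 4 * del k) * (J.card * L.m)
  have step : ∀ k (L : Lvl), P k L → ∃ (L' : Lvl) (J : Finset P3), P (k + 1) L' ∧ R k L L' J := by
    rintro k L ⟨hQ, hn, -, -⟩
    have h16 : 16 ≤ del (k + 1) * L.n := by
      have h1 : ((2 : ℝ) ^ (k + 9)) ≤ L.n := by exact_mod_cast hn
      have h2 : (16 : ℝ) = del (k + 1) * 2 ^ (k + 9) := by
        unfold del
        have h3 : k + 9 = (k + 1 + 4) + 4 := by omega
        rw [h3, pow_add (2 : ℝ) (k + 1 + 4) 4, ← mul_assoc, ← mul_pow]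
        norm_num
      rw [h2]
      exact mul_le_mul_of_nonneg_left h1 (hdpos _).le
    obtain ⟨L', J, h1, h2, h3, h4, h5, h6, h7⟩ := L.next (del k) (del (k + 1)) (hdpos k) (hd1 k)
      (hdpos _) (hd1 _) hQ h16 (2 ^ (k + 10))
    refine ⟨L', J, ⟨h2, h3, ?_, ?_⟩, h1, h6, h7⟩
    · exact (Nat.pow_le_pow_right (by norm_num) (by omega)).trans h4
    · exact ((Nat.pow_le_pow_right (by norm_num) (by omega)).trans hn).trans h5
  obtain ⟨L0, h01, h02, h03, h04⟩ := exists_base (del 0) (hdpos 0) (hd1 0) (2 ^ 9)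
  have h03' : 2 ^ 0 ≤ L0.X := le_trans (by norm_num) h03
  have h04' : 2 ^ 0 ≤ L0.B := le_trans (by norm_num) h04
  choose f g hf using step
  let sq : ∀ k, {L : Lvl // P k L} := fun k =>
    Nat.rec (motive := fun k => {L : Lvl // P k L})
      ⟨L0, h01, h02, h03', h04'⟩
      (fun k L => ⟨f k L.1 L.2, (hf k L.1 L.2).1⟩) k
  refine ⟨fun k => (sq k).1, fun k => g k (sq k).1 (sq k).2, fun k => ?_⟩
  have h := (hf k (sq k).1 (sq k).2).2
  exact ⟨h.1, ⟨(sq k).2.2.2.1, (sq k).2.2.2.2⟩, h.2.1, h.2.2⟩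


end Pool.Agent.H73.DC
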