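import Mathlib

/-! The three-dimensional lattice with explicit coordinates. -/

namespace Pool.Agent.H73.DC

/-- Points of the three-dimensional lattice. -/
abbrev P3 := ℤ × ℤ × ℤ

/-- The l1 distance. -/
def dst (u v : P3) : ℕ :=
  (u.1 - v.1).natAbs + (u.2.1 - v.2.1).natAbs + (u.2.2 - v.2.2).natAbs

/-- Adjacent points. -/
def adj3 (u v : P3) : Prop := dst u v = 1

instance : DecidableRel adj3 := fun u v => inferInstanceAs (Decidable (dst u v = 1))

/-- The closed unit ball. -/
noncomputable def nbhd3 (u : P3) : Finset P3 :=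
  (Finset.Icc (u.1 - 1) (u.1 + 1) ×ˢ Finset.Icc (u.2.1 - 1) (u.2.1 + 1) ×ˢ
    Finset.Icc (u.2.2 - 1) (u.2.2 + 1)).filter fun v => dst u v ≤ 1

theorem mem_nbhd3 {u v : P3} : v ∈ nbhd3 u ↔ dst u v ≤ 1 := by
  unfold nbhd3
  rw [Finset.mem_filter]
  constructor
  · exact fun h => h.2
  · intro h
    refine ⟨?_, h⟩
    unfold dst at h
    simp only [Finset.mem_product, Finset.mem_Icc]
    omega

theorem dst_comm (u v : P3) : dst u v = dst v u := by
  unfold dst; omega

theorem dst_self (u : P3) : dst u u = 0 := by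
  unfold dst; omega

theorem dst_eq_zero {u v : P3} : dst u v = 0 ↔ u = v := by
  unfold dst
  constructor
  · intro h
    ext <;> omega
  · rintro rfl; omega

theorem adj3_symm {u v : P3} (h : adj3 u v) : adj3 v u := by
  unfold adj3 at *; rw [dst_comm]; exact h

theorem adj3_irrefl (u : P3) : ¬ adj3 u u := by
  unfold adj3; rw [dst_self]; omega

theorem dst_add (u v e : P3) : dst (u + e) (v + e) = dst u v := by
  unfold dst
  simp only [Prod.fst_add, Prod.snd_add]
  omega

/-- `t` is the strict maximizer of `W · n` on the neighbourhood of `u`. -/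
def loc3 (W : P3 → ℕ → ℝ) (n : ℕ) (u t : P3) : Prop := ∀ y ∈ nbhd3 u, y ≠ t → W y n < W t n

open Classical in
/-- The process without ties behaves well at the point `p`. -/
def OKat (W : P3 → ℕ → ℝ) (p : P3) : Prop :=
  (∀ n, W p n ≠ 0 → ∃ t ∈ nbhd3 p, loc3 W n p t) ∧
    ∀ n, W p (n + 1) = ∑ y ∈ nbhd3 p, if loc3 W n y p then W y n else 0

end Pool.Agent.H73.DC
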