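import Pool.Agent.H73.DC.Flow
import Pool.Agent.H73.DC.P3

/-! From dimension three to dimension `d ≥ 3`: the same configuration in all the planes whose
remaining coordinates have prescribed parities. -/

open MeasureTheory Filter
open scoped ENNReal Topology

namespace Pool.Agent.H73.DC

/-- The first three coordinates. -/
def proj3 {d : ℕ} (hd : 3 ≤ d) (x : Site d) : P3 :=
  (x ⟨0, by omega⟩, x ⟨1, by omega⟩, x ⟨2, by omega⟩)

/-- Parities. -/
abbrev Par (d : ℕ) := Fin d → ZMod 2

/-- The plane of `x` is active. -/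
def Active {d : ℕ} (s : Par d) (x : Site d) : Prop :=
  ∀ i : Fin d, 3 ≤ i.val → (x i : ZMod 2) + s i = 0

instance {d : ℕ} (s : Par d) (x : Site d) : Decidable (Active s x) := by
  unfold Active; infer_instance

/-- Put the configuration `c` in all active planes. -/
def lift3 {d : ℕ} (hd : 3 ≤ d) (c : P3 → ℝ≥0∞) (s : Par d) : Config d :=
  fun x => if Active s x then c (proj3 hd x) else 0

/-- The point of the plane of `u` with first coordinates `p`. -/
def liftEmb {d : ℕ} (u : Site d) (p : P3) : Site d := fun i =>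
  if i.val = 0 then p.1 else if i.val = 1 then p.2.1 else if i.val = 2 then p.2.2 else u i

theorem lift_proj_emb {d : ℕ} (hd : 3 ≤ d) (u : Site d) (p : P3) :
    proj3 hd (liftEmb u p) = p := by
  unfold proj3 liftEmb
  simp

theorem lift_emb_ge {d : ℕ} (u : Site d) (p : P3) (i : Fin d) (hi : 3 ≤ i.val) :
    liftEmb u p i = u i := by
  unfold liftEmb
  rw [if_neg (by omega), if_neg (by omega), if_neg (by omega)]

theorem lift_ext {d : ℕ} (hd : 3 ≤ d) {x y : Site d} (h3 : ∀ i : Fin d, 3 ≤ i.val → x i = y i)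
    (hp : proj3 hd x = proj3 hd y) : x = y := by
  funext i
  by_cases hi : 3 ≤ i.val
  · exact h3 i hi
  · have h : i.val = 0 ∨ i.val = 1 ∨ i.val = 2 := by omega
    unfold proj3 at hp
    simp only [Prod.mk.injEq] at hp
    rcases h with h | h | h
    · rw [show i = ⟨0, by omega⟩ from Fin.ext h]
      exact hp.1
    · rw [show i = ⟨1, by omega⟩ from Fin.ext h]
      exact hp.2.1
    · rw [show i = ⟨2, by omega⟩ from Fin.ext h]
      exact hp.2.2

theorem lift_sum {d : ℕ} (hd : 3 ≤ d) (f : Fin d → ℤ) :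
    ∑ i, f i = f ⟨0, by omega⟩ + f ⟨1, by omega⟩ + f ⟨2, by omega⟩ +
      ∑ i ∈ Finset.univ.filter (fun i : Fin d => 3 ≤ i.val), f i := by
  rw [← Finset.sum_filter_add_sum_filter_not Finset.univ (fun i : Fin d => 3 ≤ i.val) f]
  have h : Finset.univ.filter (fun i : Fin d => ¬ 3 ≤ i.val) =
      {(⟨0, by omega⟩ : Fin d), ⟨1, by omega⟩, ⟨2, by omega⟩} := by
    ext i
    simp only [Finset.mem_filter, Finset.mem_univ, true_and, Finset.mem_insert,
      Finset.mem_singleton, Fin.ext_iff]
    omega
  rw [h, Finset.sum_insert (by simp [Fin.ext_iff]), Finset.sum_insert (by simp [Fin.ext_iff]),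
    Finset.sum_singleton]
  ring

theorem lift_dst {d : ℕ} (hd : 3 ≤ d) (x y : Site d) :
    ((dst (proj3 hd x) (proj3 hd y) : ℕ) : ℤ) = |x ⟨0, by omega⟩ - y ⟨0, by omega⟩| +
      |x ⟨1, by omega⟩ - y ⟨1, by omega⟩| + |x ⟨2, by omega⟩ - y ⟨2, by omega⟩| := by
  unfold dst proj3
  push_cast
  rfl

theorem lift_mem3 {d : ℕ} (hd : 3 ≤ d) {x y : Site d} (h : y ∈ nbhd x) :
    proj3 hd y ∈ nbhd3 (proj3 hd x) := by
  rw [mem_nbhd] at h
  rw [mem_nbhd3]
  rw [lift_sum hd] at h
  have h1 := lift_dst hd x y
  have h2 : 0 ≤ ∑ i ∈ Finset.univ.filter (fun i : Fin d => 3 ≤ i.val), |x i - y i| :=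
    Finset.sum_nonneg fun _ _ => abs_nonneg _
  have h3 : ((dst (proj3 hd x) (proj3 hd y) : ℕ) : ℤ) ≤ 1 := by
    rw [h1]
    linarith
  exact_mod_cast h3

theorem lift_mem {d : ℕ} (hd : 3 ≤ d) {x y : Site d} (h : proj3 hd y ∈ nbhd3 (proj3 hd x))
    (h3 : ∀ i : Fin d, 3 ≤ i.val → x i = y i) : y ∈ nbhd x := by
  rw [mem_nbhd3] at h
  rw [mem_nbhd, lift_sum hd]
  have h1 := lift_dst hd x y
  have h2 : ∑ i ∈ Finset.univ.filter (fun i : Fin d => 3 ≤ i.val), |x i - y i| = 0 := by
    refine Finset.sum_eq_zero fun i hi => ?_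
    rw [h3 i (Finset.mem_filter.1 hi).2, sub_self, abs_zero]
  rw [h2, add_zero, ← h1]
  exact_mod_cast h

theorem lift_active_emb {d : ℕ} {s : Par d} {x y : Site d}
    (h3 : ∀ i : Fin d, 3 ≤ i.val → x i = y i) (h : Active s x) : Active s y := by
  intro i hi
  rw [← h3 i hi]
  exact h i hi

/-- neighbours in active planes are in the same plane -/
theorem lift_plane {d : ℕ} {s : Par d} {x y : Site d} (hx : Active s x) (hy : Active s y)
    (h : y ∈ nbhd x) (i : Fin d) (hi : 3 ≤ i.val) : x i = y i := by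
  rw [mem_nbhd] at h
  have h1 : |x i - y i| ≤ ∑ i, |x i - y i| :=
    Finset.single_le_sum (f := fun i => |x i - y i|) (fun _ _ => abs_nonneg _)
      (Finset.mem_univ i)
  have h2 := abs_le.1 (h1.trans h)
  have h3 : ((x i - y i : ℤ) : ZMod 2) = 0 := by
    push_cast
    have e1 := hx i hi
    have e2 := hy i hi
    linear_combination e1 - e2
  rw [ZMod.intCast_zmod_eq_zero_iff_dvd] at h3
  have h4 : (2 : ℤ) ∣ x i - y i := by exact_mod_cast h3
  omega

theorem lift_app {d : ℕ} (hd : 3 ≤ d) (c : P3 → ℝ≥0∞) (s : Par d) {x : Site d}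
    (h : Active s x) : lift3 hd c s x = c (proj3 hd x) := if_pos h

theorem lift_app_not {d : ℕ} (hd : 3 ≤ d) (c : P3 → ℝ≥0∞) (s : Par d) {x : Site d}
    (h : ¬ Active s x) : lift3 hd c s x = 0 := if_neg h

theorem lift_loc {d : ℕ} (hd : 3 ≤ d) (s : Par d) {W : P3 → ℕ → ℝ}
    (h0 : ∀ p n, 0 ≤ W p n) (n : ℕ) {u t : Site d} (hu : Active s u) (ht : Active s t)
    (htu : t ∈ nbhd u) (hpos : 0 < W (proj3 hd u) n) :
    loc (lift3 hd (fun p => ENNReal.ofReal (W p n)) s) u t ↔
      loc3 W n (proj3 hd u) (proj3 hd t) := by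
  constructor
  · intro h y3 hy3 hne
    have hpl : ∀ i : Fin d, 3 ≤ i.val → u i = liftEmb u y3 i :=
      fun i hi => (lift_emb_ge u y3 i hi).symm
    have h1 : liftEmb u y3 ∈ nbhd u := by
      apply lift_mem hd _ hpl
      rw [lift_proj_emb]
      exact hy3
    have h2 : liftEmb u y3 ≠ t := by
      intro he
      apply hne
      rw [← he, lift_proj_emb]
    have h3 := h _ h1 h2
    rw [lift_app hd _ s (lift_active_emb hpl hu), lift_app hd _ s ht, lift_proj_emb] at h3
    exact (ENNReal.ofReal_lt_ofReal_iff_of_nonneg (h0 _ _)).1 h3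
  · intro h y hy hne
    have hpt : 0 < W (proj3 hd t) n := by
      by_cases he : proj3 hd u = proj3 hd t
      · rw [← he]; exact hpos
      · exact hpos.trans (h _ (by rw [mem_nbhd3, dst_self]; omega) he)
    rw [lift_app hd _ s ht]
    by_cases hya : Active s y
    · rw [lift_app hd _ s hya]
      have h1 : proj3 hd y ≠ proj3 hd t := by
        intro he
        apply hne
        refine lift_ext hd (fun i hi => ?_) he
        rw [← lift_plane hu hya hy i hi, ← lift_plane hu ht htu i hi]
      exact (ENNReal.ofReal_lt_ofReal_iff hpt).2 (h _ (lift_mem3 hd hy) h1)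
    · rw [lift_app_not hd _ s hya]
      exact ENNReal.ofReal_pos.2 hpt

theorem lift_pos {d : ℕ} (hd : 3 ≤ d) (s : Par d) {W : P3 → ℕ → ℝ} (n : ℕ) {u : Site d}
    (h : lift3 hd (fun p => ENNReal.ofReal (W p n)) s u ≠ 0) :
    Active s u ∧ 0 < W (proj3 hd u) n := by
  by_cases hu : Active s u
  · rw [lift_app hd _ s hu] at h
    refine ⟨hu, ?_⟩
    by_contra hc
    push Not at hc
    exact h (ENNReal.ofReal_of_nonpos hc)
  · exact absurd (lift_app_not hd _ s hu) h

/-- JOB DC-28b LIFT. The points `y` of the neighbourhood of an active `x` are those in its plane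
(same coordinates of index `≥ 3`), with `proj3 y` in `nbhd3 (proj3 x)`, and points of inactive
planes, where everything is `0`. If `x` is inactive then its neighbours `y` may be active, but
`loc _ y x` would say that `y` holds less than `0`. -/
theorem isFlow_lift3 {d : ℕ} (hd : 3 ≤ d) (s : Par d) {W : P3 → ℕ → ℝ}
    (h0 : ∀ p n, 0 ≤ W p n) (hW : ∀ p, OKat W p) :
    IsFlow fun n => lift3 hd (fun p => ENNReal.ofReal (W p n)) s := by
  constructor
  · intro n u hu
    obtain ⟨hua, hpos⟩ := lift_pos hd s n hu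
    obtain ⟨t3, ht3, hl⟩ := (hW (proj3 hd u)).1 n hpos.ne'
    have hpl : ∀ i : Fin d, 3 ≤ i.val → u i = liftEmb u t3 i :=
      fun i hi => (lift_emb_ge u t3 i hi).symm
    have h1 : liftEmb u t3 ∈ nbhd u := by
      apply lift_mem hd _ hpl
      rw [lift_proj_emb]
      exact ht3
    refine ⟨liftEmb u t3, h1, ?_⟩
    rw [lift_loc hd s h0 n hua (lift_active_emb hpl hua) h1 hpos, lift_proj_emb]
    exact hl
  · intro n x
    by_cases hx : Active s x
    · rw [lift_app hd _ s hx, (hW (proj3 hd x)).2 n]
      rw [ENNReal.ofReal_sum_of_nonneg (by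
        intro y _
        split_ifs
        · exact h0 _ _
        · exact le_rfl)]
      have hinj : Function.Injective (liftEmb x) := by
        intro p q hpq
        have := congrArg (proj3 hd) hpq
        rwa [lift_proj_emb, lift_proj_emb] at this
      have hsub : (nbhd3 (proj3 hd x)).image (liftEmb x) ⊆ nbhd x := by
        intro y hy
        obtain ⟨p, hp, rfl⟩ := Finset.mem_image.1 hy
        apply lift_mem hd _ (fun i hi => (lift_emb_ge x p i hi).symm)
        rw [lift_proj_emb]
        exact hp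
      rw [← Finset.sum_subset hsub, Finset.sum_image fun p _ q _ h => hinj h]
      · refine Finset.sum_congr rfl fun p hp => ?_
        have hpl : ∀ i : Fin d, 3 ≤ i.val → x i = liftEmb x p i :=
          fun i hi => (lift_emb_ge x p i hi).symm
        have hact : Active s (liftEmb x p) := lift_active_emb hpl hx
        have hmem : liftEmb x p ∈ nbhd x := hsub (Finset.mem_image_of_mem _ hp)
        rw [lift_app hd _ s hact, lift_proj_emb]
        rcases (h0 p n).eq_or_lt with hz | hz
        · rw [← hz]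
          split_ifs <;> simp
        · have hl := lift_loc hd s h0 n hact hx (nbhd_symm hmem)
            (by rw [lift_proj_emb]; exact hz)
          rw [lift_proj_emb] at hl
          by_cases h3 : loc3 W n p (proj3 hd x)
          · rw [if_pos h3, if_pos (hl.2 h3)]
          · rw [if_neg h3, if_neg (fun h => h3 (hl.1 h)), ENNReal.ofReal_zero]
      · intro y hy hyn
        have hna : ¬ Active s y := by
          intro hya
          apply hyn
          refine Finset.mem_image.2 ⟨proj3 hd y, lift_mem3 hd hy, ?_⟩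
          refine lift_ext hd (fun i hi => ?_) (lift_proj_emb hd _ _)
          rw [lift_emb_ge x _ i hi]
          exact lift_plane hx hya hy i hi
        rw [lift_app_not hd _ s hna]
        split_ifs <;> rfl
    · rw [lift_app_not hd _ s hx]
      symm
      refine Finset.sum_eq_zero fun y hy => ?_
      by_cases hl : loc (lift3 hd (fun p => ENNReal.ofReal (W p n)) s) y x
      · rw [if_pos hl]
        by_contra hne
        have hyx : y ≠ x := by
          rintro rfl
          exact hne (lift_app_not hd _ s hx)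
        have h1 := hl y (self_mem_nbhd y) hyx
        rw [lift_app_not hd _ s hx] at h1
        exact not_lt_bot h1
      · rw [if_neg hl]

end Pool.Agent.H73.DC
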