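import Pool.Agent.H73.DC.Lift

/-! Laws in dimension `d ≥ 3`. -/

open MeasureTheory Filter ProbabilityTheory
open scoped ENNReal Topology

namespace Pool.Agent.H73.DC

theorem measurable_lift3 {d : ℕ} (hd : 3 ≤ d) :
    Measurable fun p : (P3 → ℝ≥0∞) × Par d => lift3 hd p.1 p.2 := by
  refine measurable_pi_lambda _ fun x => ?_
  unfold lift3
  refine Measurable.ite ?_ ((measurable_pi_apply (proj3 hd x)).comp measurable_fst)
    measurable_const
  have h : MeasurableSet {s : Par d | Active s x} := MeasurableSet.of_discrete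
  exact measurable_snd h

/-- The law of the configuration in dimension `d`. -/
noncomputable def liftLaw {d : ℕ} (hd : 3 ≤ d) (ν : Measure (P3 → ℝ≥0∞)) : Measure (Config d) :=
  (ν.prod (PMF.uniformOfFintype (Par d)).toMeasure).map fun p => lift3 hd p.1 p.2

/-- The uniform law on the parities is invariant. -/
theorem liftLaw_uniform_shift {d : ℕ} (t : Par d) :
    (PMF.uniformOfFintype (Par d)).toMeasure.map (fun s => s + t) =
      (PMF.uniformOfFintype (Par d)).toMeasure := by
  rw [PMF.toMeasure_map (fun s => s + t) _ (measurable_of_countable _)]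
  congr 1
  ext s
  rw [PMF.map_apply]
  simp only [PMF.uniformOfFintype_apply]
  rw [tsum_eq_single (s - t)]
  · simp
  · intro s' hs'
    rw [if_neg]
    intro h
    exact hs' (by rw [h]; simp)

theorem liftLaw_lift_add {d : ℕ} (hd : 3 ≤ d) (c : P3 → ℝ≥0∞) (s : Par d) (x z : Site d) :
    lift3 hd c s (x + z) =
      lift3 hd (fun v => c (v + proj3 hd z)) (s + fun i => (z i : ZMod 2)) x := by
  unfold lift3
  have h1 : Active s (x + z) ↔ Active (s + fun i => (z i : ZMod 2)) x := by
    unfold Active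
    refine forall_congr' fun i => imp_congr_right fun _ => ?_
    simp only [Pi.add_apply, Int.cast_add]
    rw [show (x i : ZMod 2) + (z i : ZMod 2) + s i = (x i : ZMod 2) + (s i + (z i : ZMod 2)) by
      ring]
  by_cases h : Active s (x + z)
  · rw [if_pos h, if_pos (h1.1 h)]
    rfl
  · rw [if_neg h, if_neg fun h' => h (h1.2 h')]

/-- `lift3 c s (x + z) = lift3 (fun v => c (v + proj3 z)) (s + z mod 2) x`, and both maps
`c ↦ c (· + e)` and `s ↦ s + t` preserve the laws. -/
theorem liftLaw_shift {d : ℕ} (hd : 3 ≤ d) (ν : Measure (P3 → ℝ≥0∞)) [IsProbabilityMeasure ν]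
    (hν : ∀ e : P3, ν.map (fun c v => c (v + e)) = ν) (z : Site d) :
    (liftLaw hd ν).map (fun c x => c (x + z)) = liftLaw hd ν := by
  have hm : Measurable fun (c : Config d) (x : Site d) => c (x + z) :=
    measurable_pi_lambda _ fun x => measurable_pi_apply _
  have hm1 : Measurable fun (c : P3 → ℝ≥0∞) (v : P3) => c (v + proj3 hd z) :=
    measurable_pi_lambda _ fun x => measurable_pi_apply _
  have hm2 : Measurable fun s : Par d => s + fun i => (z i : ZMod 2) :=
    measurable_of_countable _
  unfold liftLaw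
  rw [Measure.map_map hm (measurable_lift3 hd)]
  have h1 : (fun (c : Config d) (x : Site d) => c (x + z)) ∘
      (fun p : (P3 → ℝ≥0∞) × Par d => lift3 hd p.1 p.2) =
      (fun p : (P3 → ℝ≥0∞) × Par d => lift3 hd p.1 p.2) ∘
        Prod.map (fun (c : P3 → ℝ≥0∞) (v : P3) => c (v + proj3 hd z))
          (fun s : Par d => s + fun i => (z i : ZMod 2)) := by
    funext p x
    exact liftLaw_lift_add hd p.1 p.2 x z
  rw [h1, ← Measure.map_map (measurable_lift3 hd) (hm1.prodMap hm2),
    ← Measure.map_prod_map _ _ hm1 hm2, hν, liftLaw_uniform_shift]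

/-- The mean at `x` is the probability that `x` is active times the mean in dimension three. -/
theorem liftLaw_lintegral {d : ℕ} (hd : 3 ≤ d) (ν : Measure (P3 → ℝ≥0∞)) [IsProbabilityMeasure ν]
    (hν : ∀ e : P3, ν.map (fun c v => c (v + e)) = ν) (x : Site d) (hfin : ∫⁻ c, c 0 ∂ν < ∞)
    (hpos : 0 < ∫⁻ c, c 0 ∂ν) :
    0 < ∫⁻ c, c x ∂(liftLaw hd ν) ∧ ∫⁻ c, c x ∂(liftLaw hd ν) < ∞ := by
  have h0 : ∀ v : P3, ∫⁻ c, c v ∂ν = ∫⁻ c, c 0 ∂ν := by
    intro v
    have hm : Measurable fun (c : P3 → ℝ≥0∞) (w : P3) => c (w + v) :=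
      measurable_pi_lambda _ fun x => measurable_pi_apply _
    conv_rhs => rw [← hν v]
    rw [lintegral_map (measurable_pi_apply 0) hm]
    simp
  have h1 : ∫⁻ c, c x ∂(liftLaw hd ν) =
      ∫⁻ s, ∫⁻ c, lift3 hd c s x ∂ν ∂(PMF.uniformOfFintype (Par d)).toMeasure := by
    unfold liftLaw
    rw [lintegral_map (measurable_pi_apply x) (measurable_lift3 hd)]
    have hmx : Measurable fun p : (P3 → ℝ≥0∞) × Par d => lift3 hd p.1 p.2 x :=
      (measurable_pi_apply x).comp (measurable_lift3 hd)
    rw [lintegral_prod_symm _ hmx.aemeasurable]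
  have h2 : ∀ s : Par d, ∫⁻ c, lift3 hd c s x ∂ν = if Active s x then ∫⁻ c, c 0 ∂ν else 0 := by
    intro s
    unfold lift3
    split_ifs with h
    · exact h0 _
    · simp
  rw [h1]
  simp only [h2]
  constructor
  · have h3 : (0 : ℝ≥0∞) < ∫⁻ s, ({(fun i => -(x i : ZMod 2) : Par d)} : Set (Par d)).indicator
        (fun _ => ∫⁻ c, c 0 ∂ν) s ∂(PMF.uniformOfFintype (Par d)).toMeasure := by
      rw [lintegral_indicator (measurableSet_singleton _), lintegral_const,
        Measure.restrict_apply_univ, PMF.toMeasure_apply_singleton _ _ (measurableSet_singleton _)]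
      refine ENNReal.mul_pos hpos.ne' ?_
      simp
    refine h3.trans_le (lintegral_mono fun s => ?_)
    by_cases hs : s = fun i => -(x i : ZMod 2)
    · subst hs
      rw [Set.indicator_of_mem (Set.mem_singleton _), if_pos]
      intro i _
      exact add_neg_cancel _
    · rw [Set.indicator_of_notMem (by simpa using hs)]
      exact zero_le
  · calc ∫⁻ s, (if Active s x then ∫⁻ c, c 0 ∂ν else 0) ∂(PMF.uniformOfFintype (Par d)).toMeasure
        ≤ ∫⁻ _s, ∫⁻ c, c 0 ∂ν ∂(PMF.uniformOfFintype (Par d)).toMeasure := by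
          refine lintegral_mono fun s => ?_
          dsimp only
          split_ifs
          · exact le_refl _
          · exact zero_le
      _ = ∫⁻ c, c 0 ∂ν := by
          rw [lintegral_const, measure_univ, mul_one]
      _ < ∞ := hfin

end Pool.Agent.H73.DC
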