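import Pool.Agent.H73.DC.Build

/-! Levels. -/

namespace Pool.Agent.H73.DC

/-- A level: a tree together with the size `n` of the board used for the next level. -/
structure Lvl where
  X : ℕ
  B : ℕ
  n : ℕ
  H : ℕ
  W : P3 → ℕ → ℝ
  S : Finset P3
  lev : IsLev X B H W S
  fit : X + lam B n + 1 ≤ n * (n - 1)

namespace Lvl

/-- The resource of the root at time zero. -/
def M (L : Lvl) : ℝ := L.W (rootP L.X) 0
/-- The total resource. -/
noncomputable def m (L : Lvl) : ℝ := ∑ v ∈ L.S, L.W v 0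
/-- The number of points of the box. -/
noncomputable def vol (L : Lvl) : ℝ := L.X * (L.B : ℝ) ^ 2
/-- Quality of a level. -/
def Q (L : Lvl) (δ : ℝ) : Prop :=
  (L.n : ℝ) ^ 2 * ((L.B : ℝ) + 3) ^ 2 ≤ (1 + δ) * (L.X * (L.B : ℝ) ^ 2) ∧
    (lam L.B L.n + 1) * (L.M + 2) ≤ δ * L.m

end Lvl

/-- The relation between consecutive levels: `J` is the set of the translations which map the box
of `L` to the boxes of the bodies in the box of `L'`. -/
structure Link (L L' : Lvl) (J : Finset P3) : Prop where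
  copy : ∀ τ ∈ J, ∀ v ∈ boxF L.X L.B, τ + v ∈ boxF L'.X L'.B ∧ L'.W (τ + v) = L.W v
  disj : ∀ τ ∈ J, ∀ τ' ∈ J, ∀ v ∈ boxF L.X L.B, ∀ v' ∈ boxF L.X L.B, τ + v = τ' + v' → τ = τ'

/-- The tolerances. -/
noncomputable def del (k : ℕ) : ℝ := (1 / 2) ^ (k + 4)

end Pool.Agent.H73.DC
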