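import Pool.Agent.H73.DC.Good
import Pool.Agent.H73.DC.LimitOK

/-! Translation invariance. -/

open MeasureTheory Filter ProbabilityTheory
open scoped ENNReal Topology

namespace Pool.Agent.H73.DC

namespace Setup

variable (T : Setup)

open Classical in
theorem shift_prob (k : ℕ) (q : P3 → Prop) :
    T.P {ω | q (T.U k ω)} = (((T.box k).filter q).card : ℝ≥0∞) * ((T.box k).card : ℝ≥0∞)⁻¹ := by
  have h1 : {ω | q (T.U k ω)} = ⋃ u ∈ (T.box k).filter q, {ω | T.U k ω = u} := by
    ext ω
    simp only [Set.mem_ofPred_eq, Finset.mem_filter, Set.mem_iUnion, exists_prop]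
    constructor
    · intro h
      exact ⟨T.U k ω, ⟨T.mem k ω, h⟩, rfl⟩
    · rintro ⟨u, ⟨_, hq⟩, rfl⟩
      exact hq
  rw [h1, measure_biUnion_finset]
  · have h2 : ∀ u ∈ (T.box k).filter q, T.P {ω | T.U k ω = u} = ((T.box k).card : ℝ≥0∞)⁻¹ :=
      fun u hu => T.unif k u (Finset.mem_filter.1 hu).1
    rw [Finset.sum_congr rfl h2, Finset.sum_const, nsmul_eq_mul]
  · intro u _ v _ huv
    rw [Function.onFun, Set.disjoint_left]
    intro ω h1 h2
    exact huv (h1.symm.trans h2)
  · intro u _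
    exact T.meas k (measurableSet_singleton u)

open Classical in
theorem shift_card_le (k : ℕ) (q : P3 → Prop) (e : P3) :
    ((T.box k).filter fun u => q (u + e)).card ≤ ((T.box k).filter q).card +
      ((T.box k).filter fun u => u + e ∉ T.box k).card := by
  have h1 : (T.box k).filter (fun u => q (u + e)) ⊆
      (((T.box k).filter q).map (Equiv.subRight e).toEmbedding) ∪
        (T.box k).filter fun u => u + e ∉ T.box k := by
    intro u hu
    rw [Finset.mem_filter] at hu
    rw [Finset.mem_union, Finset.mem_map_equiv, Finset.mem_filter, Finset.mem_filter]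
    by_cases h : u + e ∈ T.box k
    · left
      exact ⟨h, hu.2⟩
    · right
      exact ⟨hu.1, h⟩
  refine (Finset.card_le_card h1).trans ((Finset.card_union_le _ _).trans ?_)
  rw [Finset.card_map]

open Classical in
theorem shift_prob_le (k : ℕ) (q : P3 → Prop) (e : P3) :
    T.P {ω | q (T.U k ω + e)} ≤ T.P {ω | q (T.U k ω)} + (dst e 0 : ℝ≥0∞) * (2⁻¹) ^ k := by
  rw [T.shift_prob k q, T.shift_prob k (fun u => q (u + e))]
  have hpos : 0 < (T.box k).card := by
    rw [Finset.card_pos]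
    obtain ⟨ω⟩ : Nonempty T.Ω := by
      by_contra h
      rw [not_nonempty_iff] at h
      have h1 : T.P Set.univ = 0 := by
        rw [Set.eq_empty_of_isEmpty (Set.univ : Set T.Ω)]
        exact measure_empty
      rw [measure_univ] at h1
      exact one_ne_zero h1
    exact ⟨_, T.mem k ω⟩
  have hne : ((T.box k).card : ℝ≥0∞) ≠ 0 := by
    exact_mod_cast hpos.ne'
  have hnt : ((T.box k).card : ℝ≥0∞) ≠ ⊤ := ENNReal.natCast_ne_top _
  have h1 := T.shift_card_le k q e
  have h2 := card_boundary (T.L k).X (T.L k).B e (2 ^ k) (T.hX k) (T.hB k)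
  have h3 : (((T.box k).filter fun u => q (u + e)).card : ℝ≥0∞) ≤
      (((T.box k).filter q).card : ℝ≥0∞) +
        (((T.box k).filter fun u => u + e ∉ T.box k).card : ℝ≥0∞) := by
    exact_mod_cast h1
  have h4 : ((((T.box k).filter fun u => u + e ∉ T.box k).card : ℕ) : ℝ≥0∞) * 2 ^ k ≤
      (dst e 0 : ℝ≥0∞) * (T.box k).card := by
    have : (((T.box k).filter fun u => u + e ∉ T.box k).card) * 2 ^ k ≤
      dst e 0 * (T.box k).card := h2
    exact_mod_cast this
  have h5 : ((((T.box k).filter fun u => u + e ∉ T.box k).card : ℕ) : ℝ≥0∞) *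
      ((T.box k).card : ℝ≥0∞)⁻¹ ≤ (dst e 0 : ℝ≥0∞) * (2⁻¹) ^ k := by
    rw [← div_eq_mul_inv, ENNReal.div_le_iff hne hnt]
    have h6 : ((((T.box k).filter fun u => u + e ∉ T.box k).card : ℕ) : ℝ≥0∞) =
        ((((T.box k).filter fun u => u + e ∉ T.box k).card : ℕ) : ℝ≥0∞) * 2 ^ k * (2⁻¹) ^ k := by
      rw [mul_assoc, ← mul_pow, ENNReal.mul_inv_cancel (by norm_num) (by norm_num), one_pow,
        mul_one]
    rw [h6]
    calc ((((T.box k).filter fun u => u + e ∉ T.box k).card : ℕ) : ℝ≥0∞) * 2 ^ k * (2⁻¹) ^ k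
        ≤ (dst e 0 : ℝ≥0∞) * (T.box k).card * (2⁻¹) ^ k := mul_le_mul_left h4 _
      _ = (dst e 0 : ℝ≥0∞) * (2⁻¹) ^ k * (T.box k).card := by ring
  calc (((T.box k).filter fun u => q (u + e)).card : ℝ≥0∞) * ((T.box k).card : ℝ≥0∞)⁻¹
      ≤ ((((T.box k).filter q).card : ℝ≥0∞) +
        (((T.box k).filter fun u => u + e ∉ T.box k).card : ℝ≥0∞)) *
          ((T.box k).card : ℝ≥0∞)⁻¹ := mul_le_mul_left h3 _
    _ = _ := add_mul _ _ _
    _ ≤ _ := add_le_add_right h5 _

/-- The event that the configuration, seen from `e`, has its restriction to `B` in `A`. -/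
def shiftEv (B : Finset P3) (A : Set ((v : B) → ℝ≥0∞)) (e : P3) : Set T.Ω :=
  {ω | (fun v : B => T.cfg ω (v + e)) ∈ A}

/-- The same at level `k`. -/
def shiftEvK (B : Finset P3) (A : Set ((v : B) → ℝ≥0∞)) (k : ℕ) (e : P3) : Set T.Ω :=
  {ω | (fun v : B => ENNReal.ofReal (T.see k ω (v + e) 0)) ∈ A}

theorem shift_tendsto (B : Finset P3) {A : Set ((v : B) → ℝ≥0∞)} (hA : MeasurableSet A) (e : P3) :
    Tendsto (fun k => T.P (T.shiftEvK B A k e)) atTop (𝓝 (T.P (T.shiftEv B A e))) := by
  refine tendsto_measure_of_ae_tendsto_indicator_of_isFiniteMeasure atTop ?_ ?_ ?_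
  · have : Measurable fun ω => (fun v : B => T.cfg ω (v + e)) :=
      measurable_pi_lambda _ fun v => (measurable_pi_apply ((v : P3) + e)).comp T.measurable_cfg
    exact this hA
  · intro k
    have : Measurable fun ω => (fun v : B => ENNReal.ofReal (T.see k ω (v + e) 0)) :=
      measurable_pi_lambda _ fun v => (T.measurable_see k _ 0).ennreal_ofReal
    exact this hA
  · filter_upwards [T.ae_good] with ω hω
    obtain ⟨W, -, hW, hcfg, -, -⟩ := T.exists_limit hω
    have h1 : ∀ᶠ k in atTop, ∀ v : B, T.see k ω (v + e) = W (v + e) := by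
      rw [eventually_all]
      intro v
      exact hW _
    filter_upwards [h1] with k hk
    unfold shiftEv shiftEvK
    simp only [Set.mem_ofPred_eq]
    have h2 : (fun v : B => ENNReal.ofReal (T.see k ω (v + e) 0)) =
        fun v : B => T.cfg ω (v + e) := by
      funext v
      rw [hk v, hcfg]
    rw [h2]

theorem shift_le (B : Finset P3) {A : Set ((v : B) → ℝ≥0∞)} (hA : MeasurableSet A) (e f : P3) :
    T.P (T.shiftEv B A (f + e)) ≤ T.P (T.shiftEv B A f) := by
  have h1 := T.shift_tendsto B hA (f + e)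
  have h2 := T.shift_tendsto B hA f
  have h3 : Tendsto (fun k : ℕ => (dst e 0 : ℝ≥0∞) * (2⁻¹ : ℝ≥0∞) ^ k) atTop (𝓝 0) := by
    have h4 : Tendsto (fun k : ℕ => (2⁻¹ : ℝ≥0∞) ^ k) atTop (𝓝 0) :=
      ENNReal.tendsto_pow_atTop_nhds_zero_of_lt_one (by norm_num)
    have h5 := ENNReal.Tendsto.const_mul (a := (dst e 0 : ℝ≥0∞)) h4
      (Or.inr (ENNReal.natCast_ne_top _))
    rwa [mul_zero] at h5
  have h6 := h2.add h3
  rw [add_zero] at h6
  refine le_of_tendsto_of_tendsto' h1 h6 fun k => ?_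
  have h7 := T.shift_prob_le k
    (fun u => (fun v : B => ENNReal.ofReal ((T.L k).W (u + (v + f)) 0)) ∈ A) e
  have h8 : T.shiftEvK B A k (f + e) = {ω | (fun v : B =>
      ENNReal.ofReal ((T.L k).W (T.U k ω + e + (v + f)) 0)) ∈ A} := by
    unfold shiftEvK see
    ext ω
    simp only [Set.mem_ofPred_eq]
    have : ∀ v : B, T.U k ω + ((v : P3) + (f + e)) = T.U k ω + e + (v + f) := fun v => by abel
    simp only [this]
  rw [h8]
  exact h7

theorem map_shift (e : P3) :
    (T.P.map T.cfg).map (fun c v => c (v + e)) = T.P.map T.cfg := by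
  have hm : Measurable fun (c : P3 → ℝ≥0∞) (v : P3) => c (v + e) :=
    measurable_pi_lambda _ fun v => measurable_pi_apply _
  have : IsProbabilityMeasure (T.P.map T.cfg) :=
    Measure.isProbabilityMeasure_map T.measurable_cfg.aemeasurable
  have : IsProbabilityMeasure ((T.P.map T.cfg).map (fun c v => c (v + e))) :=
    Measure.isProbabilityMeasure_map hm.aemeasurable
  refine ext_of_generate_finite (measurableCylinders fun _ : P3 => ℝ≥0∞)
    generateFrom_measurableCylinders.symm isPiSystem_measurableCylinders ?_ (by simp)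
  intro s hs
  obtain ⟨B, A, hA, rfl⟩ := (mem_measurableCylinders s).1 hs
  have hcyl : MeasurableSet (cylinder (α := fun _ : P3 => ℝ≥0∞) B A) :=
    MeasurableSet.of_mem_measurableCylinders hs
  rw [Measure.map_apply hm hcyl, Measure.map_apply T.measurable_cfg (hm hcyl),
    Measure.map_apply T.measurable_cfg hcyl]
  have h1 : T.cfg ⁻¹' ((fun (c : P3 → ℝ≥0∞) (v : P3) => c (v + e)) ⁻¹' cylinder B A) =
      T.shiftEv B A e := rfl
  have h2 : T.cfg ⁻¹' cylinder B A = T.shiftEv B A 0 := by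
    unfold shiftEv
    ext ω
    simp only [Set.mem_preimage, mem_cylinder, Set.mem_ofPred_eq, add_zero]
    rfl
  rw [h1, h2]
  apply le_antisymm
  · have := T.shift_le B hA e 0
    rwa [zero_add] at this
  · have := T.shift_le B hA (-e) e
    rwa [add_neg_cancel] at this

end Setup

end Pool.Agent.H73.DC
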