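import Pool.Agent.H73.DC.Defs

/-! The tie-breaking variables are valid almost surely. -/

open MeasureTheory Filter ProbabilityTheory
open scoped ENNReal Topology

namespace Pool.Agent.H73.DC

instance (d : ℕ) : IsProbabilityMeasure (tieLaw d) := by
  unfold tieLaw; infer_instance

/-- JOB DC-30 TIES. The index set is countable; each coordinate has the law
`(PMF.uniformOfFinset ..).toMeasure` (`measurePreserving_eval_infinitePi`). -/
theorem ae_validTies (d : ℕ) : ∀ᵐ g ∂(tieLaw d), ValidTies g := by
  unfold ValidTies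
  rw [ae_all_iff]
  intro i
  have h1 := (measurePreserving_eval_infinitePi
    (fun i : TieIndex d => (PMF.uniformOfFinset i.2.2.1 i.2.2.2).toMeasure) i)
  have h2 : ∀ᵐ x ∂((PMF.uniformOfFinset i.2.2.1 i.2.2.2).toMeasure), x ∈ i.2.2.1 := by
    rw [ae_iff]
    rw [PMF.toMeasure_apply_eq_zero_iff _ (MeasurableSet.of_discrete)]
    rw [Set.disjoint_left]
    intro x hx hx'
    rw [PMF.mem_support_uniformOfFinset_iff] at hx
    exact hx' hx
  exact h1.quasiMeasurePreserving.ae h2

end Pool.Agent.H73.DC
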