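import Pool.Agent.H73.DC.SetupExists
import Pool.Agent.H73.DC.Shift
import Pool.Agent.H73.DC.Integral
import Pool.Agent.H73.DC.LiftLaw
import Pool.Agent.H73.DC.TiesAE
import Pool.Agent.H73.DC.Det

/-! The theorem. -/

open MeasureTheory Filter ProbabilityTheory
open scoped ENNReal Topology

namespace Pool.Agent.H73.DC

/-- For a good `ω` all the lifts of the limit configuration are good. -/
theorem Setup.lift_mem (T : Setup) {ω : T.Ω} (h : T.Good ω) {d : ℕ} (hd : 3 ≤ d) (s : Par d) :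
    lift3 hd (T.cfg ω) s ∈ GoodSet d := by
  obtain ⟨W, hnn, -, hcfg, hok, hvan⟩ := T.exists_limit h
  have hflow := isFlow_lift3 hd s hnn hok
  have h1 : lift3 hd (T.cfg ω) s = lift3 hd (fun p => ENNReal.ofReal (W p 0)) s := by
    have : T.cfg ω = fun p => ENNReal.ofReal (W p 0) := funext hcfg
    rw [this]
  rw [h1]
  refine mem_goodSet_of_isFlow hflow ?_
  intro x
  filter_upwards [hvan (proj3 hd x)] with n hn
  unfold lift3
  simp [hn]

theorem Setup.ae_lift_mem (T : Setup) {d : ℕ} (hd : 3 ≤ d) :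
    ∀ᵐ c ∂(T.P.map T.cfg), ∀ s : Par d, lift3 hd c s ∈ GoodSet d := by
  have hmeas : MeasurableSet {c : P3 → ℝ≥0∞ | ∀ s : Par d, lift3 hd c s ∈ GoodSet d} := by
    have : {c : P3 → ℝ≥0∞ | ∀ s : Par d, lift3 hd c s ∈ GoodSet d} =
        ⋂ s : Par d, (fun c => lift3 hd c s) ⁻¹' GoodSet d := by
      ext c; simp
    rw [this]
    refine MeasurableSet.iInter fun s => ?_
    exact ((measurable_lift3 hd).comp (measurable_id.prodMk measurable_const))
      (measurableSet_goodSet d)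
  rw [ae_map_iff T.measurable_cfg.aemeasurable hmeas]
  filter_upwards [T.ae_good] with ω hω s
  exact T.lift_mem hω hd s

theorem ae_goodSet (T : Setup) {d : ℕ} (hd : 3 ≤ d) :
    ∀ᵐ c ∂(liftLaw hd (T.P.map T.cfg)), c ∈ GoodSet d := by
  have : IsProbabilityMeasure (T.P.map T.cfg) :=
    Measure.isProbabilityMeasure_map T.measurable_cfg.aemeasurable
  unfold liftLaw
  refine (ae_map_iff (p := fun c => c ∈ GoodSet d) (measurable_lift3 hd).aemeasurable
    (measurableSet_goodSet d)).2 ?_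
  have h := Measure.quasiMeasurePreserving_fst
    (μ := T.P.map T.cfg) (ν := (PMF.uniformOfFintype (Par d)).toMeasure) |>.ae
      (T.ae_lift_mem hd)
  filter_upwards [h] with p hp
  exact hp p.2

theorem main (d : ℕ) (hd : 3 ≤ d) : ∃ μ : Measure (Config d), IsProbabilityMeasure μ ∧
    (∀ z : Site d, μ.map (fun c x => c (x + z)) = μ) ∧
    (∀ x, 0 < ∫⁻ c, c x ∂μ ∧ ∫⁻ c, c x ∂μ < ∞) ∧
    ∀ᵐ c ∂μ, ∀ g : Ties d, ValidTies g → ∀ x, ∀ᶠ n in atTop, run c g n x = 0 := by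
  obtain ⟨T⟩ := exists_setup
  have : IsProbabilityMeasure (T.P.map T.cfg) :=
    Measure.isProbabilityMeasure_map T.measurable_cfg.aemeasurable
  have hint : ∫⁻ c, c 0 ∂(T.P.map T.cfg) = ∫⁻ ω, T.cfg ω 0 ∂T.P :=
    lintegral_map (measurable_pi_apply 0) T.measurable_cfg
  refine ⟨liftLaw hd (T.P.map T.cfg), ?_, liftLaw_shift hd _ T.map_shift, ?_, ?_⟩
  · unfold liftLaw
    exact Measure.isProbabilityMeasure_map (measurable_lift3 hd).aemeasurable
  · intro x
    refine liftLaw_lintegral hd _ T.map_shift x ?_ ?_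
    · rw [hint]
      exact (T.lintegral_cfg_le 0).trans_lt ENNReal.ofReal_lt_top
    · rw [hint]
      exact T.lintegral_cfg_pos
  · filter_upwards [ae_goodSet T hd] with c hc g hg x
    exact run_of_mem_goodSet hc hg x

/-- The final statement. -/
theorem resultDraft (d : ℕ) (hd : 3 ≤ d) : ∃ μ : Measure (Config d), IsProbabilityMeasure μ ∧
    (∀ z : Site d, μ.map (fun c x => c (x + z)) = μ) ∧
    (∀ x : Site d,
      (∀ᵐ p ∂(μ.prod (tieLaw d)), Tendsto (fun n => run p.1 p.2 n x) atTop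
        (𝓝 (limsup (fun n => run p.1 p.2 n x) atTop))) ∧
      ∫⁻ p, limsup (fun n => run p.1 p.2 n x) atTop ∂(μ.prod (tieLaw d)) < ∫⁻ c, c x ∂μ ∧
      ∫⁻ c, c x ∂μ < ∞) ∧
    ∀ᵐ c ∂μ, ∀ g : Ties d, ValidTies g → ∀ x, ∀ᶠ n in atTop, run c g n x = 0 := by
  obtain ⟨μ, hμ, hshift, hint, hae⟩ := main d hd
  have h1 : ∀ᵐ p ∂(μ.prod (tieLaw d)), ∀ g : Ties d, ValidTies g → ∀ x, ∀ᶠ n in atTop,
      run p.1 g n x = 0 :=
    Measure.quasiMeasurePreserving_fst (μ := μ) (ν := tieLaw d) |>.ae hae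
  have h2 : ∀ᵐ p ∂(μ.prod (tieLaw d)), ValidTies p.2 :=
    Measure.quasiMeasurePreserving_snd (μ := μ) (ν := tieLaw d) |>.ae (ae_validTies d)
  have h3 : ∀ᵐ p ∂(μ.prod (tieLaw d)), ∀ x, ∀ᶠ n in atTop, run p.1 p.2 n x = 0 := by
    filter_upwards [h1, h2] with p hp hp' x
    exact hp p.2 hp' x
  refine ⟨μ, hμ, hshift, fun x => ⟨?_, ?_, (hint x).2⟩, hae⟩
  · filter_upwards [h3] with p hp
    have ht : Tendsto (fun n => run p.1 p.2 n x) atTop (𝓝 0) :=
      tendsto_const_nhds.congr' ((hp x).mono fun n hn => hn.symm)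
    rw [ht.limsup_eq]
    exact ht
  · have : ∫⁻ p, limsup (fun n => run p.1 p.2 n x) atTop ∂(μ.prod (tieLaw d)) =
        ∫⁻ p, 0 ∂(μ.prod (tieLaw d)) := by
      refine lintegral_congr_ae ?_
      filter_upwards [h3] with p hp
      have ht : Tendsto (fun n => run p.1 p.2 n x) atTop (𝓝 0) :=
        tendsto_const_nhds.congr' ((hp x).mono fun n hn => hn.symm)
      exact ht.limsup_eq
    rw [this]
    simpa using (hint x).1

end Pool.Agent.H73.DC
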