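import Pool.Agent.H73.DC.Quality

/-! The next level. -/

namespace Pool.Agent.H73.DC

theorem next_large (X₀ B' A : ℕ) :
    ∀ᶠ n' : ℕ in Filter.atTop, A ≤ n' * (n' - 1) - (lam B' n' + 1) - X₀ := by
  filter_upwards [Filter.eventually_ge_atTop (2 * (B' + 3) + 2 + (A + 1 + X₀))] with n' hn'
  obtain ⟨t, rfl⟩ : ∃ t, n' = 2 * (B' + 3) + 2 + t := ⟨n' - (2 * (B' + 3) + 2), by omega⟩
  have ht : A + 1 + X₀ ≤ t := by omega
  set n' := 2 * (B' + 3) + 2 + t with hn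
  have h1 : n' - 1 = 2 * (B' + 3) + (1 + t) := by omega
  have h2 : n' * (n' - 1) = lam B' n' + n' * (1 + t) := by
    rw [h1]; unfold lam; ring
  have h3 : 1 + t ≤ n' * (1 + t) := Nat.le_mul_of_pos_left _ (by omega)
  rw [h2]
  omega

/-- The mass of a level is at least one. -/
theorem Lvl.one_le_m (L : Lvl) : 1 ≤ L.m := by
  unfold Lvl.m
  have h1 := L.lev.piece.one_le _ L.lev.piece.mem
  have h2 : L.W (rootP L.X) 0 ≤ ∑ v ∈ L.S, L.W v 0 :=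
    Finset.single_le_sum (f := fun v => L.W v 0) (fun v _ => L.lev.piece.nonneg v 0)
      L.lev.piece.mem
  linarith

/-- JOB DC-18 NEXT. Let `X₀ = L.X + lam L.B L.n`, `B' = L.n * (L.B + 3)` and, for a large `n'`
(from `eventually_quality` with `c = L.m`, `M'` the bound of `build` for the new root), let
`N = n' (n' - 1) - (lam B' n' + 1) - X₀` and use `build`. Besides `eventually_quality` one needs that
`N` is large: `L.H + lam ≤ N`, `X₀ ≤ δ N`, `(H + lam) (σ + lam (M + 1)) ≤ δ N m`. Then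
`vol' = (X₀ + N) n² (B + 3)² ≤ (1 + δ) N (1 + δ) X B²` and
`m' ≤ N (m + lam (M + 1) + M + 2) + δ N m ≤ (1 + 2 δ) N m`. -/
theorem Lvl.next (L : Lvl) (δ δ' : ℝ) (hδ : 0 < δ) (hδ1 : δ ≤ 1) (hδ' : 0 < δ') (hδ'1 : δ' ≤ 1)
    (hQ : L.Q δ) (hn : 16 ≤ δ' * L.n) (K : ℕ) :
    ∃ (L' : Lvl) (J : Finset P3), Link L L' J ∧ L'.Q δ' ∧ K ≤ L'.n ∧ K ≤ L'.X ∧
      L.n ≤ L'.B ∧ L'.vol ≤ (1 + δ) ^ 2 * (J.card * L.vol) ∧
      L'.m ≤ (1 + 4 * δ) * (J.card * L.m) := by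
  obtain ⟨hQ1, hQ2⟩ := hQ
  have hm1 := L.one_le_m
  have hM1 : 1 ≤ L.M := one_le_root L.lev
  have hB := L.lev.hB
  have hn1 : 1 ≤ L.n := by
    by_contra h
    have : L.n = 0 := by omega
    rw [this] at hn
    norm_num at hn
  set X₀ := L.X + lam L.B L.n with hX₀
  set B' := L.n * (L.B + 3) with hB'
  set σ := ∑ k ∈ Finset.range L.H, L.W (rootP L.X) k with hσ
  have hσ0 : 0 ≤ σ := Finset.sum_nonneg fun k _ => L.lev.piece.nonneg _ k
  set Λ : ℝ := (lam L.B L.n : ℝ) with hΛ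
  have hΛ0 : 0 ≤ Λ := Nat.cast_nonneg _
  set M' : ℝ := L.M + 2 + (σ + Λ * (L.M + 1)) with hM'
  have hM'0 : 0 ≤ M' := by positivity
  have hB'n : L.n ≤ B' := Nat.le_mul_of_pos_right _ (by omega)
  have hB'1 : 1 ≤ B' := hn1.trans hB'n
  have hq : 16 ≤ δ' * (B' : ℝ) := by
    have : (L.n : ℝ) ≤ B' := by exact_mod_cast hB'n
    have := mul_le_mul_of_nonneg_left this hδ'.le
    linarith
  obtain ⟨a1, ha1⟩ := exists_nat_ge ((X₀ : ℝ) / δ)
  obtain ⟨a2, ha2⟩ := exists_nat_ge (((L.H : ℝ) + Λ) * (σ + Λ * (L.M + 1)) / (δ * L.m))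
  have hev := (eventually_quality X₀ B' L.m M' δ' hB'1 hδ' hδ'1 (by linarith) hM'0 hq).and
    ((next_large X₀ B' (L.H + lam L.B L.n + a1 + a2 + K)).and (Filter.eventually_ge_atTop K))
  obtain ⟨n', ⟨hX₀n, hfit', hq1, hq2⟩, hlarge, hK⟩ := hev.exists
  set N := n' * (n' - 1) - (lam B' n' + 1) - X₀ with hN
  have hNX : X₀ + N = n' * (n' - 1) - (lam B' n' + 1) := by omega
  obtain ⟨W', S', J, hlev, hJ, hcopy, hdisj, hroot, hlow, hup⟩ :=
    build L.lev (n := L.n) (N := N) L.fit (by omega)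
  have hfit2 : L.X + lam L.B L.n + N + lam (L.n * (L.B + 3)) n' + 1 ≤ n' * (n' - 1) := by
    rw [← hX₀, ← hB']; omega
  let L' : Lvl := ⟨L.X + lam L.B L.n + N, L.n * (L.B + 3), n', N + (L.H + lam L.B L.n), W', S',
    hlev, hfit2⟩
  have hNr : (L.H : ℝ) + Λ + a1 + a2 ≤ N := by
    have : L.H + lam L.B L.n + a1 + a2 ≤ N := by omega
    have h' : ((L.H + lam L.B L.n + a1 + a2 : ℕ) : ℝ) ≤ N := by exact_mod_cast this
    push_cast at h'
    exact h'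
  have hN0 : (0 : ℝ) ≤ N := Nat.cast_nonneg _
  have hH0 : (0 : ℝ) ≤ L.H := Nat.cast_nonneg _
  have ha10 : (0 : ℝ) ≤ a1 := Nat.cast_nonneg _
  have ha20 : (0 : ℝ) ≤ a2 := Nat.cast_nonneg _
  have hXδ : (X₀ : ℝ) ≤ δ * N := by
    rw [div_le_iff₀ hδ] at ha1
    nlinarith
  have hmδ : ((L.H : ℝ) + Λ) * (σ + Λ * (L.M + 1)) ≤ δ * (N * L.m) := by
    have hpos : 0 < δ * L.m := mul_pos hδ (by linarith)
    rw [div_le_iff₀ hpos] at ha2
    have : (a2 : ℝ) * (δ * L.m) ≤ N * (δ * L.m) :=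
      mul_le_mul_of_nonneg_right (by linarith) hpos.le
    linarith
  have hvol0 : 0 ≤ L.vol := by unfold Lvl.vol; positivity
  have hJr : (J.card : ℝ) = N := by rw [hJ]
  refine ⟨L', J, ⟨hcopy, hdisj⟩, ⟨?_, ?_⟩, hK, ?_, hB'n, ?_, ?_⟩
  · -- first quality
    have h1 : (L'.X : ℝ) = ((n' * (n' - 1) - (lam B' n' + 1) : ℕ) : ℝ) := by
      rw [← hNX]
    have h2 : (L'.B : ℝ) = (B' : ℝ) := rfl
    rw [h1, h2]
    exact hq1
  · have h2 : lam L'.B L'.n = lam B' n' := rfl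
    rw [h2]
    have h3 : L'.M ≤ M' := hroot
    have h4 : L.m * N ≤ L'.m := by
      have : (N : ℝ) * L.m ≤ L'.m := hlow
      linarith
    have h5 : ((lam B' n' : ℝ) + 1) * (L'.M + 2) ≤ ((lam B' n' : ℝ) + 1) * (M' + 2) :=
      mul_le_mul_of_nonneg_left (by linarith) (by positivity)
    have h6 : δ' * (L.m * N) ≤ δ' * L'.m := mul_le_mul_of_nonneg_left h4 hδ'.le
    exact (h5.trans hq2).trans h6
  · show K ≤ L.X + lam L.B L.n + N
    omega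
  · -- volume
    have h1 : L'.vol = ((X₀ : ℝ) + N) * ((L.n : ℝ) ^ 2 * ((L.B : ℝ) + 3) ^ 2) := by
      show ((L.X + lam L.B L.n + N : ℕ) : ℝ) * ((L.n * (L.B + 3) : ℕ) : ℝ) ^ 2 = _
      rw [hX₀]
      push_cast
      ring
    rw [h1, hJr]
    have h2 : (X₀ : ℝ) + N ≤ (1 + δ) * N := by linarith
    have h3 : (L.n : ℝ) ^ 2 * ((L.B : ℝ) + 3) ^ 2 ≤ (1 + δ) * L.vol := hQ1
    calc ((X₀ : ℝ) + N) * ((L.n : ℝ) ^ 2 * ((L.B : ℝ) + 3) ^ 2)
        ≤ ((1 + δ) * N) * ((1 + δ) * L.vol) :=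
          mul_le_mul h2 h3 (by positivity) (by positivity)
      _ = (1 + δ) ^ 2 * (N * L.vol) := by ring
  · have h1 : L'.m ≤ N * (L.m + Λ * (L.M + 1) + (L.M + 2)) +
        (L.H + Λ) * (σ + Λ * (L.M + 1)) := hup
    rw [hJr]
    have h2 : Λ * (L.M + 1) + (L.M + 2) ≤ δ * L.m := by
      have : (Λ + 1) * (L.M + 2) ≤ δ * L.m := hQ2
      nlinarith
    have h3 : (N : ℝ) * (L.m + Λ * (L.M + 1) + (L.M + 2)) ≤ N * (L.m + δ * L.m) :=
      mul_le_mul_of_nonneg_left (by linarith) hN0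
    have h4 : 0 ≤ δ * (N * L.m) := by positivity
    nlinarith

end Pool.Agent.H73.DC
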