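import Pool.Agent.H73.DC.P3

/-! Finite rooted trees with weights on which the process is deterministic. -/

namespace Pool.Agent.H73.DC

/-- `W v n` is the resource at time `n` at the vertex `v` of a finite tree with vertex set `S` and
root `r`, induced in the graph `adj`, when all vertices send to their parents. The root sends to a
vertex outside. `H` is a time after which nothing is left. -/
structure IsPiece {V : Type} [DecidableEq V] (adj : V → V → Prop) (W : V → ℕ → ℝ)
    (S : Finset V) (r : V) (H : ℕ) : Prop where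
  nonneg : ∀ v n, 0 ≤ W v n
  supp : ∀ v, v ∉ S → ∀ n, W v n = 0
  one_le : ∀ v ∈ S, 1 ≤ W v 0
  vanish : ∀ v n, H ≤ n → W v n = 0
  mem : r ∈ S
  tree : ∃ par : V → V, (∀ v ∈ S, v ≠ r → par v ∈ S ∧ adj v (par v)) ∧
    (∀ u ∈ S, ∀ v ∈ S, adj u v → (u ≠ r ∧ par u = v) ∨ (v ≠ r ∧ par v = u)) ∧
    (∀ v ∈ S, v ≠ r → ∀ n, 0 < W v n → W v n < W (par v) n) ∧
    (∀ v ∈ S, ∀ n, W v (n + 1) = ∑ u ∈ S.erase r, if par u = v then W u n else 0)

variable {V : Type} [DecidableEq V] {adj : V → V → Prop}

end Pool.Agent.H73.DC
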