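import Pool.Agent.H73.DC.Lvl

/-! Quality of a level with a large board. -/

namespace Pool.Agent.H73.DC

/-- JOB DC-17 QUALITY. Elementary asymptotics in `n'` (here `lam B' n' = 2 n' (B' + 3)`).
The third condition: `(B' + 3)^2 ≤ (1 + 3 δ' / 16)^2 B'^2` and `(1 + 3 δ' / 16)^2 < 1 + δ'`, and
`n'^2 ≤ (1 + ε) (n' (n' - 1) - (lam B' n' + 1))` for large `n'`.
Quality of the next level, for a large board. The tree of the next level has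
length `n' (n' - 1) - lam B' n' - 1`. -/
theorem eventually_quality (X₀ B' : ℕ) (c M' δ' : ℝ) (hB' : 1 ≤ B') (hδ' : 0 < δ')
    (hδ'1 : δ' ≤ 1) (hc : 0 < c) (hM : 0 ≤ M') (hq : 16 ≤ δ' * B') :
    ∀ᶠ n' : ℕ in Filter.atTop, X₀ ≤ n' ∧ X₀ + (lam B' n' + 1) ≤ n' * (n' - 1) ∧
      (n' : ℝ) ^ 2 * ((B' : ℝ) + 3) ^ 2 ≤
        (1 + δ') * (((n' * (n' - 1) - (lam B' n' + 1) : ℕ) : ℝ) * (B' : ℝ) ^ 2) ∧
      ((lam B' n' : ℝ) + 1) * (M' + 2) ≤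
        δ' * (c * ((n' * (n' - 1) - (lam B' n' + 1) - X₀ : ℕ) : ℝ)) := by
  set K : ℕ := 2 * (B' + 3) with hK
  have hr := (tendsto_natCast_atTop_atTop (R := ℝ)).eventually_ge_atTop (4 * ((K : ℝ) + 2) / δ')
  have hr' := (tendsto_natCast_atTop_atTop (R := ℝ)).eventually_ge_atTop
    (2 * ((K : ℝ) + 1) * (M' + 2) / (δ' * c))
  filter_upwards [hr, hr', Filter.eventually_ge_atTop (X₀ + 2 * (K + 2 + X₀))] with n h2 h3 h1
  have hlam : lam B' n = K * n := by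
    rw [hK]; unfold lam; ring
  have hn1 : 1 ≤ n := by omega
  have hnn : n * (K + 1 + X₀) ≤ n * (n - 1) := Nat.mul_le_mul_left _ (by omega)
  have hx : X₀ + (lam B' n + 1) ≤ n * (n - 1) := by
    rw [hlam]
    refine le_trans ?_ hnn
    have : X₀ ≤ n * X₀ := Nat.le_mul_of_pos_left _ (by omega)
    nlinarith
  have ha1 : (1 : ℝ) ≤ n := by exact_mod_cast hn1
  have hcast1 : ((n * (n - 1) : ℕ) : ℝ) = (n : ℝ) * ((n : ℝ) - 1) := by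
    rw [Nat.cast_mul, Nat.cast_sub hn1, Nat.cast_one]
  have hcast2 : ((n * (n - 1) - (lam B' n + 1) : ℕ) : ℝ) =
      (n : ℝ) * ((n : ℝ) - 1) - ((K : ℝ) * n + 1) := by
    rw [Nat.cast_sub (by omega), hcast1, hlam]
    push_cast
    ring
  have hcast3 : ((n * (n - 1) - (lam B' n + 1) - X₀ : ℕ) : ℝ) =
      (n : ℝ) * ((n : ℝ) - 1) - ((K : ℝ) * n + 1) - X₀ := by
    rw [Nat.cast_sub (by omega), hcast2]
  have hK0 : (0 : ℝ) ≤ K := Nat.cast_nonneg K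
  have hX0 : (0 : ℝ) ≤ X₀ := Nat.cast_nonneg X₀
  have h2' : 4 * ((K : ℝ) + 2) ≤ δ' * n := by
    rw [div_le_iff₀ hδ'] at h2
    linarith
  have h3' : 2 * ((K : ℝ) + 1) * (M' + 2) ≤ δ' * c * n := by
    rw [div_le_iff₀ (by positivity)] at h3
    linarith
  have h1' : 2 * ((K : ℝ) + 2 + X₀) ≤ n := by
    have h1c : ((X₀ + 2 * (K + 2 + X₀) : ℕ) : ℝ) ≤ n := by exact_mod_cast h1
    push_cast at h1c
    linarith
  have hB'' : (1 : ℝ) ≤ B' := by exact_mod_cast hB'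
  refine ⟨by omega, hx, ?_, ?_⟩
  · rw [hcast2]
    have hb : ((B' : ℝ) + 3) ^ 2 ≤ (1 + δ' / 2) * (B' : ℝ) ^ 2 := by
      have e1 : (B' : ℝ) + 3 ≤ (1 + 3 * δ' / 16) * B' := by nlinarith
      have e2 : ((B' : ℝ) + 3) ^ 2 ≤ ((1 + 3 * δ' / 16) * B') ^ 2 :=
        pow_le_pow_left₀ (by positivity) e1 2
      have e3 : (1 + 3 * δ' / 16) ^ 2 ≤ 1 + δ' / 2 := by nlinarith
      calc ((B' : ℝ) + 3) ^ 2 ≤ ((1 + 3 * δ' / 16) * B') ^ 2 := e2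
        _ = (1 + 3 * δ' / 16) ^ 2 * (B' : ℝ) ^ 2 := by ring
        _ ≤ (1 + δ' / 2) * (B' : ℝ) ^ 2 := mul_le_mul_of_nonneg_right e3 (by positivity)
    have hq : (n : ℝ) ^ 2 * (1 + δ' / 2) ≤
        (1 + δ') * ((n : ℝ) * ((n : ℝ) - 1) - ((K : ℝ) * n + 1)) := by
      have e1 : 2 * ((K : ℝ) + 2) * n ≤ δ' / 2 * (n : ℝ) ^ 2 := by nlinarith
      have e2 : (1 + δ') * (((K : ℝ) + 1) * n + 1) ≤ 2 * (((K : ℝ) + 2) * n) := by
        have : ((K : ℝ) + 1) * n + 1 ≤ ((K : ℝ) + 2) * n := by nlinarith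
        calc (1 + δ') * (((K : ℝ) + 1) * n + 1) ≤ 2 * (((K : ℝ) + 1) * n + 1) :=
              mul_le_mul_of_nonneg_right (by linarith) (by positivity)
          _ ≤ 2 * (((K : ℝ) + 2) * n) := by linarith
      nlinarith
    calc (n : ℝ) ^ 2 * ((B' : ℝ) + 3) ^ 2 ≤ (n : ℝ) ^ 2 * ((1 + δ' / 2) * (B' : ℝ) ^ 2) :=
          mul_le_mul_of_nonneg_left hb (by positivity)
      _ = ((n : ℝ) ^ 2 * (1 + δ' / 2)) * (B' : ℝ) ^ 2 := by ring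
      _ ≤ ((1 + δ') * ((n : ℝ) * ((n : ℝ) - 1) - ((K : ℝ) * n + 1))) * (B' : ℝ) ^ 2 :=
          mul_le_mul_of_nonneg_right hq (by positivity)
      _ = _ := by ring
  · rw [hcast3, hlam]
    push_cast
    have e1 : (n : ℝ) ^ 2 / 2 ≤ (n : ℝ) * ((n : ℝ) - 1) - ((K : ℝ) * n + 1) - X₀ := by
      nlinarith
    have e2 : ((K : ℝ) * n + 1) * (M' + 2) ≤ ((K : ℝ) + 1) * n * (M' + 2) :=
      mul_le_mul_of_nonneg_right (by nlinarith) (by positivity)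
    have e3 : ((K : ℝ) + 1) * n * (M' + 2) ≤ δ' * (c * ((n : ℝ) ^ 2 / 2)) := by
      have := mul_le_mul_of_nonneg_right h3' (by positivity : (0 : ℝ) ≤ (n : ℝ) / 2)
      calc ((K : ℝ) + 1) * n * (M' + 2) = 2 * ((K : ℝ) + 1) * (M' + 2) * ((n : ℝ) / 2) := by ring
        _ ≤ δ' * c * n * ((n : ℝ) / 2) := this
        _ = _ := by ring
    have e4 : δ' * (c * ((n : ℝ) ^ 2 / 2)) ≤
        δ' * (c * ((n : ℝ) * ((n : ℝ) - 1) - ((K : ℝ) * n + 1) - X₀)) := by gcongr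
    linarith

end Pool.Agent.H73.DC
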