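import Pool.Agent.H73.DC.Lvl

/-! The levels and the random positions in the boxes. -/

open MeasureTheory Filter ProbabilityTheory
open scoped ENNReal Topology

namespace Pool.Agent.H73.DC

/-- The levels with all their properties, and the random positions in the boxes. -/
structure Setup where
  L : ℕ → Lvl
  J : ℕ → Finset P3
  link : ∀ k, Link (L k) (L (k + 1)) (J k)
  hX : ∀ k, 2 ^ k ≤ (L k).X
  hB : ∀ k, 2 ^ k ≤ (L k).B
  C : ℝ
  hC : 0 < C
  dens : ∀ k, (L k).m ≤ C * (L k).vol
  s : ℝ
  hs : 0 < s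
  supp : ∀ k, s * (L k).vol ≤ (L k).S.card
  Ω : Type
  mΩ : MeasurableSpace Ω
  P : Measure Ω
  prob : IsProbabilityMeasure P
  U : ℕ → Ω → P3
  meas : ∀ k, Measurable (U k)
  mem : ∀ k ω, U k ω ∈ boxF (L k).X (L k).B
  unif : ∀ k, ∀ u ∈ boxF (L k).X (L k).B,
    P {ω | U k ω = u} = ((boxF (L k).X (L k).B).card : ℝ≥0∞)⁻¹
  step : ∀ k, P {ω | ¬ ∃ τ ∈ J k, U (k + 1) ω = τ + U k ω} ≤ ENNReal.ofReal (3 * del k)

attribute [instance] Setup.mΩ Setup.prob

namespace Setup

variable (T : Setup)

/-- The box of level `k`. -/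
noncomputable def box (k : ℕ) : Finset P3 := boxF (T.L k).X (T.L k).B

/-- The good event: eventually the position of level `k + 1` continues the one of level `k`, and
every fixed neighbour is in the box. -/
def Good (ω : T.Ω) : Prop := ∀ v : P3, ∀ᶠ k in atTop,
  (∃ τ ∈ T.J k, T.U (k + 1) ω = τ + T.U k ω) ∧ T.U k ω + v ∈ T.box k

/-- The resource seen at level `k` at the point `v`, at time `n`. -/
noncomputable def see (k : ℕ) (ω : T.Ω) (v : P3) (n : ℕ) : ℝ := (T.L k).W (T.U k ω + v) n

/-- The limit configuration. -/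
noncomputable def cfg (ω : T.Ω) (v : P3) : ℝ≥0∞ :=
  liminf (fun k => ENNReal.ofReal (T.see k ω v 0)) atTop

theorem measurable_see (k : ℕ) (v : P3) (n : ℕ) : Measurable fun ω => T.see k ω v n := by
  unfold see
  exact (Measurable.of_discrete (f := fun u : P3 => (T.L k).W (u + v) n)).comp (T.meas k)

theorem measurable_cfg : Measurable T.cfg := by
  refine measurable_pi_lambda _ fun v => ?_
  unfold cfg
  exact Measurable.liminf fun k => (T.measurable_see k v 0).ennreal_ofReal

end Setup

end Pool.Agent.H73.DC
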