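import Pool.Agent.H73.DC.Setup
import Pool.Agent.H73.DC.Levels
import Pool.Agent.H73.DC.Density
import Pool.Agent.H73.DC.Couple

/-! Existence of the levels and the random positions. -/

open MeasureTheory Filter ProbabilityTheory
open scoped ENNReal Topology

namespace Pool.Agent.H73.DC

theorem setup_del_pos (k : ℕ) : 0 < del k := by
  unfold del
  positivity

theorem setup_vol (L : Lvl) : ((boxF L.X L.B).card : ℝ) = L.vol := by
  rw [card_boxF]
  unfold Lvl.vol
  push_cast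
  ring

theorem setup_real {a b c : ℕ} {δ : ℝ} (hδ : 0 < δ) (hab : b ≤ a)
    (h : (a : ℝ) ≤ (1 + δ) ^ 2 * b) (hc : c = a - b) : (c : ℝ) ≤ 3 * δ * a := by
  have h1 : (c : ℝ) = a - b := by
    rw [hc, Nat.cast_sub hab]
  have ha : (0 : ℝ) ≤ a := Nat.cast_nonneg a
  have hb : (0 : ℝ) ≤ b := Nat.cast_nonneg b
  have h3 : (b : ℝ) ≤ a := by exact_mod_cast hab
  rw [h1]
  -- `a - b ≤ ((1+δ)^2 - 1) b = (2 δ + δ^2) b`
  rcases le_or_gt δ 1 with h4 | h4
  · have h5 : (a : ℝ) - b ≤ (2 * δ + δ ^ 2) * b := by nlinarith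
    have h6 : (2 * δ + δ ^ 2) * b ≤ 3 * δ * b := by
      apply mul_le_mul_of_nonneg_right _ hb
      nlinarith
    have h7 : 3 * δ * b ≤ 3 * δ * (a : ℝ) := by
      apply mul_le_mul_of_nonneg_left h3
      positivity
    linarith
  · nlinarith

/-- JOB DC-24 SETUP. From `exists_levels`, `exists_density_bound`, `exists_support_bound` and
`exists_coupling` (boxes `boxF (L k).X (L k).B`). For `step`: `1 - 1 / (1 + δ)^2 ≤ 3 δ`. -/
theorem exists_setup : Nonempty Setup := by
  obtain ⟨L, J, h⟩ := exists_levels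
  obtain ⟨C, hC, hdens⟩ := exists_density_bound h
  obtain ⟨s, hs, hsupp⟩ := exists_support_bound h
  have hne : ∀ k, (boxF (L k).X (L k).B).Nonempty := by
    intro k
    have h1 := (L k).lev.hX
    have h2 := (L k).lev.hB
    refine ⟨(0, 0, 0), ?_⟩
    rw [mem_boxF]
    simp only
    omega
  obtain ⟨Ω, mΩ, P, U, hP, hmeas, hmem, hunif, hstep⟩ :=
    exists_coupling (fun k => boxF (L k).X (L k).B) J hne
      (fun k τ hτ v hv => ((h k).1.copy τ hτ v hv).1) (fun k => (h k).1.disj)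
  refine ⟨⟨L, J, fun k => (h k).1, fun k => (h k).2.1.1, fun k => (h k).2.1.2, C, hC, hdens, s, hs,
    hsupp, Ω, mΩ, P, hP, U, hmeas, hmem, hunif, fun k => ?_⟩⟩
  rw [hstep k]
  have h1 := (h k).1.card_mul_le.1
  have h2 := (h k).2.2.1
  rw [← setup_vol, ← setup_vol, ← Nat.cast_mul] at h2
  have h3 := setup_real (setup_del_pos k) h1 h2 rfl
  have hpos : (0 : ℝ) < ((boxF (L (k + 1)).X (L (k + 1)).B).card : ℝ) := by
    exact_mod_cast Finset.card_pos.2 (hne (k + 1))
  rw [← ENNReal.ofReal_natCast, ← ENNReal.ofReal_natCast, ← ENNReal.ofReal_div_of_pos hpos]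
  apply ENNReal.ofReal_le_ofReal
  rw [div_le_iff₀ hpos]
  exact h3

end Pool.Agent.H73.DC
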