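import Pool.Agent.H73.DC.SideDef

/-! Side trees. -/

namespace Pool.Agent.H73.DC

private theorem side_adj (t u v : P3) :
    adj3 (Equiv.addLeft t u) (Equiv.addLeft t v) ↔ adj3 u v := by
  unfold adj3 dst
  simp only [Equiv.coe_addLeft, Prod.fst_add, Prod.snd_add]
  constructor <;> intro h <;> omega

private theorem side_root {X B n : ℕ} (F : Frame X B n) (j : ℕ) :
    Equiv.addLeft (F.tau j) (rootP X) = (F.x j - F.D j, F.cyw j + 2, F.czw j + 2) := by
  unfold rootP Frame.tau
  simp only [Equiv.coe_addLeft]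
  ext
  · simp only [Prod.fst_add]; ring
  · simp only [Prod.snd_add, Prod.fst_add]; ring
  · simp only [Prod.snd_add]; ring

private theorem side_len {X B n : ℕ} (F : Frame X B n) (j : ℕ) :
    (lam B n : ℤ) + 1 = F.cyw j + F.czw j + 4 + F.D j := by
  unfold Frame.D
  ring

/-- JOB DC-14 SIDE. Apply `IsPiece.map` to `h.piece` with `Equiv.addLeft (F.tau j)` (then
`W' v = W (-F.tau j + v)`), and then `IsPiece.stem` with `L = lam B n`, `g = F.g j` and
`a = stemA (W (rootP X) 0) L`. `F.g j 0` is the root of the body by `posS_end`, because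
`lam B n + 1 = cyw + czw + 4 + D`; adjacency along the stem: `posS_adj`; distinctness: `posS_ind`;
distance from the body: `posS_body` and `body_box`. -/
theorem exists_side {X B H n : ℕ} {W : P3 → ℕ → ℝ} {S : Finset P3} (h : IsLev X B H W S)
    (F : Frame X B n) (j : ℕ) :
    ∃ W' : P3 → ℕ → ℝ, IsPiece adj3 W' (F.sideS S j) (F.g j (lam B n)) (H + lam B n) ∧
      (∀ v ∈ S, W' (F.tau j + v) = W v) ∧
      W' (F.g j (lam B n)) = stemProf (stemA (W (rootP X) 0) (lam B n)) (lam B n) (W (rootP X)) ∧
      ∑ v ∈ F.sideS S j, W' v 0 =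
        ∑ v ∈ S, W v 0 + ∑ t ∈ Finset.Icc 1 (lam B n), stemA (W (rootP X) 0) (lam B n) t := by
  have hy := F.cyw_nonneg j
  have hz := F.czw_nonneg j
  have hD := F.D_pos j
  have hlen := side_len F j
  have hL1 : 1 ≤ lam B n := by omega
  have hLr : (0 : ℝ) < (lam B n : ℝ) := by exact_mod_cast hL1
  have hM := one_le_root h
  have hroot := side_root F j
  have hp := h.piece.map (Equiv.addLeft (F.tau j)) (side_adj (F.tau j))
  obtain ⟨W', h1, h2, h3, h4⟩ := IsPiece.stem (adj := adj3) (fun u v huv => adj3_symm huv) adj3_irrefl hp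
    (by
      intro m hm
      rw [Equiv.symm_apply_apply] at hm ⊢
      rcases Nat.lt_or_ge m H with hmH | hmH
      · exact h.dec m hmH
      · rw [h.piece.vanish _ _ (by omega : H ≤ m + 1)] at hm
        exact absurd hm (lt_irrefl 0))
    (lam B n) (F.g j) (stemA (W (rootP X) 0) (lam B n))
    (by
      rw [hroot]
      unfold Frame.g
      rw [Nat.cast_zero, sub_zero, hlen]
      exact posS_end hy hz (by omega))
    (by
      intro t ht
      have ht' : (t : ℤ) < (lam B n : ℤ) := by exact_mod_cast ht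
      have h5 := posS_adj (e := F.e j) (x := F.x j) (cy := F.cyw j) (cz := F.czw j)
        (s := (lam B n : ℤ) - t) hy hz (by omega)
      apply adj3_symm
      unfold Frame.g
      have e1 : (lam B n : ℤ) + 1 - ((t + 1 : ℕ) : ℤ) = (lam B n : ℤ) - t := by
        push_cast; ring
      have e2 : (lam B n : ℤ) + 1 - (t : ℤ) = (lam B n : ℤ) - t + 1 := by ring
      rw [e1, e2]
      exact h5)
    (by
      intro t ht1 htL hmem
      have ht1' : (1 : ℤ) ≤ (t : ℤ) := by exact_mod_cast ht1
      have htL' : (t : ℤ) ≤ (lam B n : ℤ) := by exact_mod_cast htL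
      have hb := F.body_box h.inbox (j := j) hmem
      exact (posS_body (e := F.e j) (s := (lam B n : ℤ) + 1 - t) (by omega) (by omega) hy hz
        hD hb).1 rfl)
    (by
      intro t ht1 htL v hv hadj
      have ht1' : (1 : ℤ) ≤ (t : ℤ) := by exact_mod_cast ht1
      have htL' : (t : ℤ) ≤ (lam B n : ℤ) := by exact_mod_cast htL
      have hb := F.body_box h.inbox (j := j) hv
      have h5 := (posS_body (e := F.e j) (s := (lam B n : ℤ) + 1 - t) (by omega) (by omega) hy hz
        hD hb).2 hadj
      refine ⟨?_, ?_⟩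
      · have := h5.1
        omega
      · rw [hroot]
        exact h5.2)
    (by
      intro s t hs hst ht
      have hs' : (1 : ℤ) ≤ (s : ℤ) := by exact_mod_cast hs
      have hst' : (s : ℤ) < (t : ℤ) := by exact_mod_cast hst
      have ht' : (t : ℤ) ≤ (lam B n : ℤ) := by exact_mod_cast ht
      have h5 := posS_ind (e := F.e j) (x := F.x j) (cy := F.cyw j) (cz := F.czw j)
        (s := (lam B n : ℤ) + 1 - t) (t := (lam B n : ℤ) + 1 - s) hy hz (by omega) (by omega)
      refine ⟨fun he => h5.1 he.symm, fun ha => ?_⟩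
      have := h5.2 (adj3_symm ha)
      omega)
    (by
      rw [Equiv.symm_apply_apply]
      unfold stemA
      have : (0 : ℝ) < ((1 : ℕ) : ℝ) / (lam B n : ℝ) := by positivity
      linarith)
    (by
      intro t _ _
      unfold stemA
      have : (t : ℝ) / (lam B n : ℝ) < ((t + 1 : ℕ) : ℝ) / (lam B n : ℝ) := by
        apply div_lt_div_of_pos_right _ hLr
        push_cast
        linarith
      linarith)
    (by
      unfold stemA
      have : (0 : ℝ) < ((1 : ℕ) : ℝ) / (lam B n : ℝ) := by positivity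
      linarith)
  refine ⟨W', h1, ?_, ?_, ?_⟩
  · intro v hv
    have hm : F.tau j + v ∈ S.map (Equiv.addLeft (F.tau j)).toEmbedding := by
      rw [Finset.mem_map_equiv]
      simpa using hv
    rw [h2 _ hm]
    congr 1
    simp
  · rw [h3, Equiv.symm_apply_apply]
  · have h5 : ∑ v ∈ S.map (Equiv.addLeft (F.tau j)).toEmbedding,
        W ((Equiv.addLeft (F.tau j)).symm v) 0 = ∑ v ∈ S, W v 0 := by
      rw [Finset.sum_map]
      refine Finset.sum_congr rfl fun v _ => ?_
      rw [Equiv.coe_toEmbedding, Equiv.symm_apply_apply]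
    rw [← h5]
    exact h4

end Pool.Agent.H73.DC
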