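import Pool.Agent.H73.DC.FrameFar
import Pool.Agent.H73.DC.Stem
import Pool.Agent.H73.DC.Trunk
import Pool.Agent.H73.DC.Cells

/-! Weights of stems and trunks. -/

namespace Pool.Agent.H73.DC

/-- The weights of a stem of length `L` on top of a root holding `M`. -/
noncomputable def stemA (M : ℝ) (L : ℕ) (t : ℕ) : ℝ := M + t / L

/-- The weights of the trunk before the flattening terms. -/
noncomputable def trunkC (M : ℝ) (N : ℕ) (j : ℕ) : ℝ := M + 1 + j / N

theorem one_le_root {X B H : ℕ} {W : P3 → ℕ → ℝ} {S : Finset P3} (h : IsLev X B H W S) :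
    1 ≤ W (rootP X) 0 := h.piece.one_le _ h.piece.mem

end Pool.Agent.H73.DC
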